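import Mathlib

set_option autoImplicit false

/-! # A covering lemma for the one-dimensional Hausdorff measure -/

namespace Pool.Agent.K6.H26.ML

open Set Metric Filter Topology MeasureTheory ENNReal

theorem null_limsup {ι : Type} [Countable ι] (A : ι → Set ℂ) (hA : ∀ i, (A i).Finite)
    (r : ι → ℝ) (hr : ∀ i, 0 ≤ r i) (hs : Summable (fun i => ((A i).ncard : ℝ) * r i)) :
    μH[1] {c : ℂ | ∃ᶠ i in cofinite, ∃ a ∈ A i, dist a c ≤ r i} = 0 := by
  classical
  obtain ⟨f, hf⟩ : ∃ f : ι → ℝ≥0∞, f = fun i => ENNReal.ofReal (2 * (((A i).ncard : ℝ) * r i)) :=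
    ⟨_, rfl⟩
  have hfs : ∑' i, f i ≠ ∞ := by
    rw [hf]
    exact (hs.mul_left 2).tsum_ofReal_ne_top
  have htail := ENNReal.tendsto_tsum_compl_atTop_zero hfs
  have hfi : ∀ i, f i = ((A i).ncard : ℝ≥0∞) * ENNReal.ofReal (2 * r i) := by
    intro i
    rw [hf]
    show ENNReal.ofReal (2 * (((A i).ncard : ℝ) * r i)) = _
    rw [show 2 * (((A i).ncard : ℝ) * r i) = ((A i).ncard : ℝ) * (2 * r i) by ring,
      ENNReal.ofReal_mul (Nat.cast_nonneg _), ENNReal.ofReal_natCast]
  have hdiam : ∀ (a : ℂ) (i : ι), ediam (closedBall a (r i)) ≤ ENNReal.ofReal (2 * r i) := by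
    intro a i
    rw [← Metric.closedEBall_ofReal (hr i)]
    refine (Metric.ediam_closedEBall_le).trans ?_
    rw [ENNReal.ofReal_mul (by norm_num)]
    simp
  have hct : ∀ i, Countable (A i) := fun i => (hA i).countable.to_subtype
  have key := Measure.hausdorffMeasure_le_liminf_tsum (X := ℂ) (β := Finset ι)
    (ι := fun s => Σ i : {x // x ∉ s}, A i.1) 1
    {c : ℂ | ∃ᶠ i in cofinite, ∃ a ∈ A i, dist a c ≤ r i} (l := atTop)
    (fun s => ∑' b : {x // x ∉ s}, f b) htail
    (fun s x => closedBall (x.2 : ℂ) (r x.1.1))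
    (Eventually.of_forall fun s => by
      rintro ⟨i, a⟩
      refine (hdiam a i.1).trans ?_
      refine le_trans ?_ (ENNReal.le_tsum i)
      rw [hfi]
      have h1 : 1 ≤ (A i.1).ncard := by
        rw [Nat.one_le_iff_ne_zero, Ne, Set.ncard_eq_zero (hA i.1)]
        intro h
        exact (Set.eq_empty_iff_forall_notMem.1 h) a.1 a.2
      calc ENNReal.ofReal (2 * r i.1) = 1 * ENNReal.ofReal (2 * r i.1) := (one_mul _).symm
        _ ≤ _ := by
          gcongr
          exact_mod_cast h1)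
    (Eventually.of_forall fun s => by
      intro c hc
      have h1 : {i : ι | ∃ a ∈ A i, dist a c ≤ r i}.Infinite := by
        rw [mem_ofPred_eq, frequently_cofinite_iff_infinite] at hc
        exact hc
      obtain ⟨i, hi, his⟩ := h1.exists_notMem_finset s
      obtain ⟨a, ha, hac⟩ := hi
      rw [mem_iUnion]
      exact ⟨⟨⟨i, his⟩, ⟨a, ha⟩⟩, by rw [mem_closedBall, dist_comm]; exact hac⟩)
  refine le_antisymm (key.trans ?_) bot_le
  have hle : ∀ s : Finset ι, (∑' x : Σ i : {x // x ∉ s}, A i.1,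
      ediam (closedBall (x.2 : ℂ) (r x.1.1)) ^ (1:ℝ)) ≤ ∑' b : {x // x ∉ s}, f b := by
    intro s
    rw [ENNReal.tsum_sigma']
    apply ENNReal.tsum_le_tsum
    intro i
    have h1 : ∀ a : A i.1, ediam (closedBall (a : ℂ) (r i.1)) ^ (1:ℝ) ≤
        ENNReal.ofReal (2 * r i.1) := by
      intro a
      rw [ENNReal.rpow_one]
      exact hdiam a i.1
    refine (ENNReal.tsum_le_tsum h1).trans ?_
    have := (hA i.1).fintype
    rw [tsum_fintype, Finset.sum_const, nsmul_eq_mul, hfi, Finset.card_univ,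
      ← Nat.card_eq_fintype_card, Nat.card_coe_set_eq]
  calc liminf (fun s : Finset ι => ∑' x : Σ i : {x // x ∉ s}, A i.1,
      ediam (closedBall (x.2 : ℂ) (r x.1.1)) ^ (1:ℝ)) atTop
      ≤ liminf (fun s : Finset ι => ∑' b : {x // x ∉ s}, f b) atTop :=
        liminf_le_liminf (Eventually.of_forall hle)
    _ = 0 := htail.liminf_eq

end Pool.Agent.K6.H26.ML
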