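import Mathlib

set_option autoImplicit false

/-! # The number of postcritically finite and of parabolic parameters -/

namespace Pool.Agent.K6.H26.ML

open Set Metric Filter Topology Polynomial

/-- the quadratic map -/
def qm (c : ℂ) : ℂ → ℂ := fun z => z ^ 2 + c

/-- iterates of the critical point, as polynomials in the parameter -/
noncomputable def Qp : ℕ → ℂ[X]
  | 0 => 0
  | n + 1 => Qp n ^ 2 + X

theorem Qp_eval (n : ℕ) (c : ℂ) : (Qp n).eval c = (qm c)^[n] 0 := by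
  induction n with
  | zero => simp [Qp]
  | succ n ih =>
    rw [Function.iterate_succ_apply', ← ih]
    simp [Qp, qm]

theorem Qp_deg (n : ℕ) : (Qp n).natDegree ≤ 2 ^ n := by
  induction n with
  | zero => simp [Qp]
  | succ n ih =>
    refine (natDegree_add_le _ _).trans (max_le ?_ ?_)
    · refine natDegree_pow_le.trans ?_
      rw [pow_succ]
      omega
    · rw [natDegree_X]
      exact Nat.one_le_two_pow

/-- the critical orbit at the parameter `3` -/
def oR : ℕ → ℝ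
  | 0 => 0
  | n + 1 => oR n ^ 2 + 3

theorem oR_eq (n : ℕ) : (qm 3)^[n] 0 = (oR n : ℂ) := by
  induction n with
  | zero => simp [oR]
  | succ n ih =>
    rw [Function.iterate_succ_apply', ih]
    simp [oR, qm]

theorem oR_mono : StrictMono oR := by
  apply strictMono_nat_of_lt_succ
  intro n
  show oR n < oR n ^ 2 + 3
  nlinarith [sq_nonneg (oR n - 1 / 2)]

theorem roots_bound {p : ℂ[X]} (hp : p ≠ 0) {A : Set ℂ} (h : ∀ a ∈ A, p.eval a = 0) {N : ℕ}
    (hN : p.natDegree ≤ N) : A.Finite ∧ A.ncard ≤ N := by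
  classical
  have h1 : A ⊆ (p.roots.toFinset : Set ℂ) := by
    intro a ha
    rw [Finset.mem_coe, Multiset.mem_toFinset, mem_roots hp]
    exact h a ha
  refine ⟨(Finset.finite_toSet _).subset h1, ?_⟩
  refine (Set.ncard_le_ncard h1 (Finset.finite_toSet _)).trans ?_
  rw [Set.ncard_coe_finset]
  exact (Multiset.toFinset_card_le _).trans ((card_roots' p).trans hN)

/-- the parameters at which the critical point is preperiodic, with given times -/
theorem pcf_count {k n : ℕ} (hkn : k < n) :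
    {a : ℂ | (qm a)^[n] 0 = (qm a)^[k] 0}.Finite ∧
      {a : ℂ | (qm a)^[n] 0 = (qm a)^[k] 0}.ncard ≤ 2 ^ n := by
  apply roots_bound (p := Qp n - Qp k)
  · intro h
    have h1 : (Qp n - Qp k).eval 3 = 0 := by rw [h, eval_zero]
    rw [eval_sub, Qp_eval, Qp_eval, oR_eq, oR_eq, sub_eq_zero] at h1
    have h2 : oR n = oR k := by exact_mod_cast h1
    exact absurd (oR_mono hkn) (by rw [h2]; exact lt_irrefl _)
  · intro a ha
    rw [eval_sub, Qp_eval, Qp_eval, ha, sub_self]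
  · refine (natDegree_sub_le _ _).trans (max_le (Qp_deg n) ?_)
    exact (Qp_deg k).trans (Nat.pow_le_pow_right (by norm_num) hkn.le)

/-- the iterates, as polynomials in the variable over the polynomials in the parameter -/
noncomputable def Fz : ℕ → ℂ[X][X]
  | 0 => X
  | n + 1 => Fz n ^ 2 + C X

/-- the iterates, as polynomials -/
noncomputable def Fc (c : ℂ) : ℕ → ℂ[X]
  | 0 => X
  | n + 1 => Fc c n ^ 2 + C c

theorem Fz_map (c : ℂ) (n : ℕ) : (Fz n).map (evalRingHom c) = Fc c n := by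
  induction n with
  | zero => simp [Fz, Fc]
  | succ n ih => simp [Fz, Fc, ih]

theorem Fc_eval (c z : ℂ) (n : ℕ) : (Fc c n).eval z = (qm c)^[n] z := by
  induction n with
  | zero => simp [Fc]
  | succ n ih =>
    rw [Function.iterate_succ_apply', ← ih]
    simp [Fc, qm]

theorem Fz_monic (n : ℕ) : (Fz n).Monic ∧ (Fz n).natDegree = 2 ^ n := by
  induction n with
  | zero => simp [Fz]
  | succ n ih =>
    obtain ⟨h1, h2⟩ := ih
    have h3 : (Fz n ^ 2).Monic := h1.pow 2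
    have h4 : (Fz n ^ 2).natDegree = 2 ^ (n + 1) := by
      rw [h1.natDegree_pow, h2, pow_succ, Nat.mul_comm]
    have h5 : (C (X : ℂ[X])).degree < (Fz n ^ 2).degree := by
      rw [degree_eq_natDegree h3.ne_zero, h4]
      refine lt_of_le_of_lt degree_C_le ?_
      exact_mod_cast Nat.pos_of_ne_zero (by positivity)
    refine ⟨h3.add_of_left h5, ?_⟩
    show (Fz n ^ 2 + C X).natDegree = _
    rw [natDegree_add_eq_left_of_degree_lt h5, h4]

/-- the fixed point polynomial -/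
noncomputable def FF (m : ℕ) : ℂ[X][X] := Fz m - X

theorem FF_monic {m : ℕ} (hm : 1 ≤ m) : (FF m).Monic ∧ (FF m).natDegree = 2 ^ m := by
  obtain ⟨h1, h2⟩ := Fz_monic m
  have h3 : (X : ℂ[X][X]).degree < (Fz m).degree := by
    rw [degree_eq_natDegree h1.ne_zero, h2, degree_X]
    have : 1 < 2 ^ m := Nat.one_lt_two_pow (by omega)
    exact_mod_cast this
  refine ⟨h1.sub_of_left h3, ?_⟩
  unfold FF
  rw [natDegree_sub_eq_left_of_natDegree_lt, h2]
  rw [h2, natDegree_X]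
  exact Nat.one_lt_two_pow (by omega)

/-- the multiplier polynomial -/
noncomputable def GG (m q : ℕ) : ℂ[X][X] := (derivative (Fz m)) ^ q - 1

theorem GG_deg (m q : ℕ) : (GG m q).natDegree ≤ q * 2 ^ m := by
  refine (natDegree_sub_le _ _).trans (max_le ?_ (by simp))
  refine natDegree_pow_le.trans ?_
  gcongr
  refine (natDegree_derivative_le _).trans ?_
  rw [(Fz_monic m).2]
  exact Nat.sub_le _ _

/-- the multiplier -/
noncomputable def lam (c : ℂ) (m : ℕ) (z : ℂ) : ℂ := (derivative (Fc c m)).eval z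

theorem lam_deriv (c : ℂ) (m : ℕ) (z : ℂ) : deriv ((qm c)^[m]) z = lam c m z := by
  have h1 : (qm c)^[m] = fun z => (Fc c m).eval z := by
    funext z
    rw [Fc_eval]
  rw [h1, Polynomial.deriv, lam]

theorem lam_succ (c : ℂ) (m : ℕ) (z : ℂ) : lam c (m + 1) z = 2 * (qm c)^[m] z * lam c m z := by
  unfold lam
  simp only [Fc, derivative_add, derivative_C, add_zero, derivative_pow]
  simp only [eval_mul, eval_pow, Fc_eval, eval_C]
  norm_num

theorem GG_map (c : ℂ) (m q : ℕ) (z : ℂ) :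
    ((GG m q).map (evalRingHom c)).eval z = lam c m z ^ q - 1 := by
  unfold GG lam
  rw [Polynomial.map_sub, Polynomial.map_pow, Polynomial.map_one, ← derivative_map, Fz_map]
  simp

theorem FF_map (c : ℂ) (m : ℕ) : (FF m).map (evalRingHom c) = Fc c m - X := by
  unfold FF
  rw [Polynomial.map_sub, Fz_map, Polynomial.map_X]

/-- the parabolic resultant -/
noncomputable def RR (m q : ℕ) : ℂ[X] := resultant (FF m) (GG m q) (2 ^ m) (q * 2 ^ m)

theorem RR_eval {m : ℕ} (hm : 1 ≤ m) (q : ℕ) (c : ℂ) :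
    (RR m q).eval c = ((Fc c m - X).roots.map fun z => lam c m z ^ q - 1).prod := by
  obtain ⟨h1, h2⟩ := FF_monic hm
  have h3 : ((FF m).map (evalRingHom c)).natDegree = 2 ^ m := by
    rw [h1.natDegree_map, h2]
  have h4 := resultant_map_map (f := FF m) (g := GG m q) (m := 2 ^ m) (n := q * 2 ^ m)
    (evalRingHom c)
  have h5 := resultant_eq_prod_eval ((FF m).map (evalRingHom c)) ((GG m q).map (evalRingHom c))
    (q * 2 ^ m) (natDegree_map_le.trans (GG_deg m q)) (IsAlgClosed.splits _)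
  rw [h3, (h1.map _).leadingCoeff, one_pow, one_mul, h4] at h5
  rw [show (RR m q).eval c = evalRingHom c (RR m q) from rfl]
  unfold RR
  rw [h5, FF_map]
  congr 1
  apply Multiset.map_congr rfl
  intro z _
  exact GG_map c m q z

theorem Fc_zero (m : ℕ) : Fc 0 m = X ^ 2 ^ m := by
  induction m with
  | zero => simp [Fc]
  | succ n ih => rw [Fc, ih, C_0, add_zero, ← pow_mul, pow_succ]

theorem RR_ne {m q : ℕ} (hm : 1 ≤ m) (hq : 1 ≤ q) : RR m q ≠ 0 := by
  intro h
  have h1 := RR_eval hm q 0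
  rw [h, eval_zero] at h1
  have h2 := Multiset.prod_eq_zero_iff.1 h1.symm
  rw [Multiset.mem_map] at h2
  obtain ⟨z, hz, hz2⟩ := h2
  have h3 : (Fc 0 m - X).eval z = 0 := (mem_roots'.1 hz).2
  have hD : 1 < 2 ^ m := Nat.one_lt_two_pow (by omega)
  rw [Fc_zero, eval_sub, eval_pow, eval_X] at h3
  have h4 : lam 0 m z = 2 ^ m * z ^ (2 ^ m - 1) := by
    unfold lam
    rw [Fc_zero, derivative_X_pow]
    simp
  rw [h4] at hz2
  rcases eq_or_ne z 0 with rfl | hz0
  · rw [zero_pow (by omega), mul_zero, zero_pow (by omega)] at hz2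
    norm_num at hz2
  · have h5 : z ^ (2 ^ m - 1) = 1 := by
      apply mul_right_cancel₀ hz0
      rw [← pow_succ, Nat.sub_add_cancel hD.le, one_mul]
      linear_combination h3
    rw [h5, mul_one, sub_eq_zero] at hz2
    have h6 : ((2 : ℝ) ^ m) ^ q = 1 := by
      have := congrArg (fun x : ℂ => ‖x‖) hz2
      simpa using this
    have h7 : (1:ℝ) < (2 ^ m) ^ q := by
      apply one_lt_pow₀ _ (by omega)
      exact_mod_cast hD
    linarith

/-- periodic points are not large -/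
theorem periodic_small {c z : ℂ} {m : ℕ} (hm : 1 ≤ m) (hc : 4 ≤ ‖c‖) (h : (qm c)^[m] z = z) :
    ‖z‖ ≤ 2 * Real.sqrt ‖c‖ := by
  by_contra hcon
  push Not at hcon
  have hs : 2 ≤ Real.sqrt ‖c‖ := by
    rw [show (2:ℝ) = Real.sqrt 4 by rw [show (4:ℝ) = 2 ^ 2 by norm_num]; simp]
    exact Real.sqrt_le_sqrt hc
  have hss : Real.sqrt ‖c‖ ^ 2 = ‖c‖ := Real.sq_sqrt (norm_nonneg c)
  have step : ∀ w : ℂ, ‖z‖ ≤ ‖w‖ → ‖z‖ < ‖qm c w‖ := by
    intro w hw
    have h1 : ‖w‖ ^ 2 - ‖c‖ ≤ ‖qm c w‖ := by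
      have := norm_sub_norm_le (w ^ 2) (-c)
      rw [norm_neg, norm_pow, sub_neg_eq_add] at this
      exact this
    have h2 : ‖c‖ < ‖z‖ ^ 2 / 4 := by nlinarith
    nlinarith [norm_nonneg z]
  have h1 : ∀ n, ‖z‖ < ‖(qm c)^[n + 1] z‖ := by
    intro n
    induction n with
    | zero => exact step z le_rfl
    | succ n ih =>
      rw [Function.iterate_succ_apply']
      exact step _ ih.le
  have h2 := h1 (m - 1)
  rw [Nat.sub_add_cancel hm, h] at h2
  exact lt_irrefl _ h2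

theorem periodic_orbit {c z : ℂ} {m : ℕ} (h : (qm c)^[m] z = z) (i : ℕ) :
    (qm c)^[m] ((qm c)^[i] z) = (qm c)^[i] z := by
  rw [← Function.iterate_add_apply, Nat.add_comm, Function.iterate_add_apply, h]

theorem lam_le {c z : ℂ} {m : ℕ} (hm : 1 ≤ m) (hc : 4 ≤ ‖c‖) (h : (qm c)^[m] z = z) (n : ℕ) :
    ‖lam c n z‖ ≤ (4 * Real.sqrt ‖c‖) ^ n := by
  induction n with
  | zero =>
    unfold lam
    simp [Fc]
  | succ n ih =>
    rw [lam_succ, norm_mul, norm_mul, Complex.norm_ofNat, pow_succ,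
      mul_comm ((4 * Real.sqrt ‖c‖) ^ n)]
    have h1 := periodic_small hm hc (periodic_orbit h n)
    have h2 : 2 * ‖(qm c)^[n] z‖ ≤ 4 * Real.sqrt ‖c‖ := by linarith
    exact mul_le_mul h2 ih (norm_nonneg _) (by positivity)

theorem RR_growth {m q : ℕ} (hm : 1 ≤ m) {c : ℂ} (hc : 4 ≤ ‖c‖) :
    ‖(RR m q).eval c‖ ≤ (2 * 4 ^ (m * q)) ^ 2 ^ m * ‖c‖ ^ (m * q * 2 ^ (m - 1)) := by
  obtain ⟨h1, h2⟩ := FF_monic hm
  rw [RR_eval hm]
  have hs : 0 ≤ Real.sqrt ‖c‖ := Real.sqrt_nonneg _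
  have hs1 : 1 ≤ Real.sqrt ‖c‖ := by
    rw [Real.one_le_sqrt]
    linarith
  have h3 : ∀ z ∈ (Fc c m - X).roots, ‖lam c m z ^ q - 1‖ ≤ 2 * (4 * Real.sqrt ‖c‖) ^ (m * q) := by
    intro z hz
    have h4 : (Fc c m - X).eval z = 0 := (mem_roots'.1 hz).2
    rw [eval_sub, Fc_eval, eval_X, sub_eq_zero] at h4
    have h5 := lam_le hm hc h4 m
    have h6 : (1:ℝ) ≤ (4 * Real.sqrt ‖c‖) ^ (m * q) := one_le_pow₀ (by linarith)
    calc ‖lam c m z ^ q - 1‖ ≤ ‖lam c m z ^ q‖ + ‖(1:ℂ)‖ := norm_sub_le _ _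
      _ ≤ ((4 * Real.sqrt ‖c‖) ^ m) ^ q + 1 := by
          rw [norm_pow, norm_one]
          gcongr
      _ ≤ _ := by
          rw [← pow_mul]
          linarith
  have h4 : ‖((Fc c m - X).roots.map fun z => lam c m z ^ q - 1).prod‖ ≤
      (2 * (4 * Real.sqrt ‖c‖) ^ (m * q)) ^ (Fc c m - X).roots.card := by
    clear h1 h2
    revert h3
    induction (Fc c m - X).roots using Multiset.induction_on with
    | empty => simp
    | cons a s ih =>
      intro h3
      rw [Multiset.map_cons, Multiset.prod_cons, norm_mul, Multiset.card_cons, pow_succ, mul_comm]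
      have h5 := h3 a (Multiset.mem_cons_self a s)
      have h6 := ih (fun z hz => h3 z (Multiset.mem_cons_of_mem hz))
      gcongr
  have h5 : (Fc c m - X).roots.card = 2 ^ m := by
    rw [← FF_map]
    have h6 := (IsAlgClosed.splits ((FF m).map (evalRingHom c))).natDegree_eq_card_roots
    rw [← h6, h1.natDegree_map, h2]
  rw [h5] at h4
  refine h4.trans (le_of_eq ?_)
  have h6 : (Real.sqrt ‖c‖ ^ (m * q)) ^ 2 ^ m = ‖c‖ ^ (m * q * 2 ^ (m - 1)) := by
    obtain ⟨k, rfl⟩ : ∃ k, m = k + 1 := ⟨m - 1, by omega⟩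
    rw [Nat.add_sub_cancel, ← pow_mul, pow_succ 2 k, show (k + 1) * q * (2 ^ k * 2) =
      2 * ((k + 1) * q * 2 ^ k) by ring, pow_mul, Real.sq_sqrt (norm_nonneg c)]
  have h7 : (2 * (4 * Real.sqrt ‖c‖) ^ (m * q)) ^ 2 ^ m =
      (2 * 4 ^ (m * q)) ^ 2 ^ m * (Real.sqrt ‖c‖ ^ (m * q)) ^ 2 ^ m := by
    rw [mul_pow 4, ← mul_assoc, mul_pow (2 * 4 ^ (m * q))]
  rw [h7, h6]

/-- the degree from the growth -/
theorem deg_of_growth {p : ℂ[X]} {K : ℝ} {N : ℕ}
    (h : ∀ c : ℂ, 4 ≤ ‖c‖ → ‖p.eval c‖ ≤ K * ‖c‖ ^ N) : p.natDegree ≤ N := by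
  by_contra hcon
  push Not at hcon
  have hmon : (X ^ N : ℂ[X]).Monic := monic_X_pow N
  obtain ⟨S, hS⟩ : ∃ S, S = p /ₘ X ^ N := ⟨_, rfl⟩
  obtain ⟨T, hT⟩ : ∃ T, T = p %ₘ X ^ N := ⟨_, rfl⟩
  have hpST : T + X ^ N * S = p := by rw [hS, hT]; exact modByMonic_add_div p (X ^ N)
  have hSd : 0 < S.natDegree := by
    rw [hS, natDegree_divByMonic p hmon, natDegree_X_pow]
    omega
  have hTd : T.natDegree ≤ N := by
    rcases Nat.eq_zero_or_pos N with rfl | hN
    · rw [hT]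
      simp
    · have h1 := natDegree_modByMonic_lt p hmon (by
        intro h1
        have := congrArg natDegree h1
        rw [natDegree_X_pow, natDegree_one] at this
        omega)
      rw [natDegree_X_pow] at h1
      rw [hT]
      exact h1.le
  obtain ⟨B, hB⟩ : ∃ B : ℝ, B = ∑ i ∈ Finset.range (N + 1), ‖T.coeff i‖ := ⟨_, rfl⟩
  have hTB : ∀ c : ℂ, 4 ≤ ‖c‖ → ‖T.eval c‖ ≤ B * ‖c‖ ^ N := by
    intro c hc
    rw [eval_eq_sum_range' (Nat.lt_succ_of_le hTd), hB, Finset.sum_mul]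
    refine (norm_sum_le _ _).trans (Finset.sum_le_sum fun i hi => ?_)
    rw [Finset.mem_range] at hi
    rw [norm_mul, norm_pow]
    gcongr
    · linarith
    · omega
  have hSb : ∀ c : ℂ, 4 ≤ ‖c‖ → ‖S.eval c‖ ≤ K + B := by
    intro c hc
    have hc0 : 0 < ‖c‖ ^ N := by
      have : 0 < ‖c‖ := by linarith
      positivity
    have h1 : c ^ N * S.eval c = p.eval c - T.eval c := by
      rw [← hpST]
      simp
    have h2 : ‖c‖ ^ N * ‖S.eval c‖ ≤ ‖c‖ ^ N * (K + B) := by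
      rw [← norm_pow, ← norm_mul, h1]
      calc ‖p.eval c - T.eval c‖ ≤ ‖p.eval c‖ + ‖T.eval c‖ := norm_sub_le _ _
        _ ≤ K * ‖c‖ ^ N + B * ‖c‖ ^ N := add_le_add (h c hc) (hTB c hc)
        _ = ‖c ^ N‖ * (K + B) := by rw [norm_pow]; ring
    exact le_of_mul_le_mul_left h2 hc0
  have h3 := S.tendsto_norm_atTop (natDegree_pos_iff_degree_pos.1 hSd) (l := atTop)
    (z := fun n : ℕ => (n : ℂ)) (by
      simp only [Complex.norm_natCast]
      exact tendsto_natCast_atTop_atTop)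
  obtain ⟨n, h4, h5⟩ := ((h3.eventually_gt_atTop (K + B)).and (eventually_ge_atTop 4)).exists
  have h6 := hSb n (by
    rw [Complex.norm_natCast]
    exact_mod_cast h5)
  linarith

/-- **The number of parabolic parameters.** -/
theorem par_count {m q : ℕ} (hm : 1 ≤ m) (hq : 1 ≤ q) :
    {a : ℂ | ∃ z, (qm a)^[m] z = z ∧ deriv ((qm a)^[m]) z ^ q = 1}.Finite ∧
      {a : ℂ | ∃ z, (qm a)^[m] z = z ∧ deriv ((qm a)^[m]) z ^ q = 1}.ncard ≤
        m * q * 2 ^ (m - 1) := by
  apply roots_bound (RR_ne hm hq)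
  · rintro a ⟨z, hz1, hz2⟩
    rw [RR_eval hm]
    apply Multiset.prod_eq_zero
    rw [Multiset.mem_map]
    refine ⟨z, ?_, ?_⟩
    · rw [mem_roots', IsRoot, eval_sub, Fc_eval, eval_X, hz1, sub_self]
      refine ⟨?_, rfl⟩
      rw [← FF_map]
      exact ((FF_monic hm).1.map _).ne_zero
    · rw [← lam_deriv, hz2, sub_self]
  · exact deg_of_growth fun c hc => RR_growth hm hc

end Pool.Agent.K6.H26.ML
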