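import Pool.Agent.R240.Res2
import Pool.Agent.K6.H26.ML.Count

set_option autoImplicit false

/-! # Renormalizable parameters: counting the parameters with a relation of the critical orbit -/

namespace Pool.Agent.K6.H26.ML

open Filter Topology Set Metric MeasureTheory Pool.Agent.H712R2 Pool.Agent.Y736.RN
open Pool.Agent.H712R2 (P P_succ P_one P_zero fc continuous_P mem_multibrot_iff)

/-- the equation -/
def HH (p j l : ℕ) (c y : ℂ) : ℂ := (fc 2 c)^[p * (j + l)] y - (fc 2 c)^[p * j] y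

theorem HH_cd (p j l : ℕ) : ContDiff ℂ ⊤ (fun q : ℂ × ℂ => HH p j l q.1 q.2) :=
  (contDiff_it 2 _).sub (contDiff_it 2 _)

theorem HH_cont (p j l : ℕ) : Continuous (fun q : ℂ × ℂ => HH p j l q.1 q.2) :=
  (HH_cd p j l).continuous

theorem HH_diff (p j l : ℕ) (c : ℂ) : Differentiable ℂ (HH p j l c) :=
  (diff_it_y 2 _ c).sub (diff_it_y 2 _ c)

theorem split_it (p j l : ℕ) (c : ℂ) :
    (fc 2 c)^[p * (j + l)] = (fc 2 c)^[p * l] ∘ (fc 2 c)^[p * j] := by
  rw [← Function.iterate_add]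
  congr 1
  ring

theorem deriv_HH_ne {p j l : ℕ} {c y : ℂ} (hy : HH p j l c y = 0)
    (h1 : ∀ k, 1 ≤ k → k ≤ p * j → P 2 (k + p * l) c ≠ P 2 k c)
    (h2 : ∀ z, (fc 2 c)^[p * l] z = z → deriv ((fc 2 c)^[p * l]) z ≠ 1) :
    deriv (HH p j l c) y ≠ 0 := by
  obtain ⟨w, hw⟩ : ∃ w, w = (fc 2 c)^[p * j] y := ⟨_, rfl⟩
  have e1 := split_it p j l c
  have hper : (fc 2 c)^[p * l] w = w := by
    have h3 := sub_eq_zero.1 hy
    rw [e1, Function.comp_apply, ← hw] at h3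
    exact h3
  have hne := deriv_it_ne le_rfl (c := c) (y := y) (w := w) (m := p * j) hw.symm (by
    intro k hk1 hk2 hk3
    apply h1 k hk1 hk2
    rw [Nat.add_comm, ← iter_P, hk3, hper])
  have hd1 := (diff_it_y 2 (p * j) c y).hasDerivAt
  have hd2 := (diff_it_y 2 (p * l) c w).hasDerivAt
  have h3 : HasDerivAt (HH p j l c) (deriv ((fc 2 c)^[p * l]) w * deriv ((fc 2 c)^[p * j]) y -
      deriv ((fc 2 c)^[p * j]) y) y := by
    have h4 : HH p j l c = fun y => ((fc 2 c)^[p * l] ∘ (fc 2 c)^[p * j]) y -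
        (fc 2 c)^[p * j] y := by
      funext z
      unfold HH
      rw [e1]
    rw [h4]
    rw [hw] at hd2 ⊢
    exact (hd2.comp y hd1).fun_sub hd1
  rw [h3.deriv]
  have h5 : deriv ((fc 2 c)^[p * l]) w * deriv ((fc 2 c)^[p * j]) y -
      deriv ((fc 2 c)^[p * j]) y =
      (deriv ((fc 2 c)^[p * l]) w - 1) * deriv ((fc 2 c)^[p * j]) y := by ring
  rw [h5]
  exact mul_ne_zero (sub_ne_zero.2 (h2 w hper)) hne

theorem HH_ev_ne {p j l : ℕ} (hpl : 1 ≤ p * l) (c y₀ w : ℂ) :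
    ∀ᶠ y in 𝓝[≠] y₀, HH p j l c y ≠ w := by
  have han : AnalyticOnNhd ℂ (HH p j l c) univ := fun z _ => (HH_diff p j l c).analyticAt z
  rcases (han y₀ trivial).eventually_eq_or_eventually_ne (g := fun _ => w) analyticAt_const with h | h
  · exfalso
    have h1 := han.eq_of_eventuallyEq (g := fun _ => w) (fun z _ => analyticAt_const) h
    obtain ⟨y, hy⟩ : ∃ y : ℂ, y = ((3 + ‖c‖ + ‖w‖ : ℝ) : ℂ) := ⟨_, rfl⟩
    have hc := norm_nonneg c
    have hw := norm_nonneg w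
    have hyn : ‖y‖ = 3 + ‖c‖ + ‖w‖ := by
      rw [hy, Complex.norm_real, Real.norm_eq_abs, abs_of_nonneg (by positivity)]
    obtain ⟨u, hu⟩ : ∃ u, u = (fc 2 c)^[p * j] y := ⟨_, rfl⟩
    have hun : 3 + ‖c‖ + ‖w‖ ≤ ‖u‖ := by
      rw [hu, ← hyn]
      exact big_it le_rfl (by rw [hyn]; linarith) _
    have h2 : (fc 2 c)^[p * l] u = u + w := by
      have h3 : HH p j l c y = w := congrFun h1 y
      unfold HH at h3
      rw [split_it, Function.comp_apply, ← hu] at h3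
      linear_combination h3
    obtain ⟨n, hn⟩ : ∃ n, p * l = n + 1 := ⟨p * l - 1, by omega⟩
    rw [hn, Function.iterate_succ_apply] at h2
    have h4 : ‖u‖ ^ 2 - ‖c‖ ≤ ‖fc 2 c u‖ := by
      have h5 : u ^ 2 = fc 2 c u - c := by unfold fc; ring
      have h6 := norm_sub_le (fc 2 c u) c
      rw [← h5, norm_pow] at h6
      linarith
    have h5 : 2 + ‖c‖ ≤ ‖fc 2 c u‖ := by nlinarith
    have h6 := big_it le_rfl h5 n
    rw [h2] at h6
    have h7 := norm_add_le u w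
    nlinarith
  · exact h

/-- the trapped preperiodic points -/
def YM (p : ℕ) (V : Set ℂ) (j l : ℕ) (c : ℂ) : Set ℂ :=
  {y : ℂ | (c, y) ∈ OO 2 p V (j + l) ∧ HH p j l c y = 0}

/-- zeros persist -/
theorem persist_HH {p : ℕ} {V : Set ℂ} (hV : IsOpen V) {ĉ : ℂ} {j l : ℕ} (hpl : 1 ≤ p * l)
    (h1 : ∀ i < j + l, P 2 (p * i) ĉ ∈ V) (h2 : P 2 (p * (j + l)) ĉ = P 2 (p * j) ĉ) {ε : ℝ}
    (hε : 0 < ε) : ∀ᶠ c in 𝓝 ĉ, ∃ y, ‖y‖ < ε ∧ y ∈ YM p V j l c := by
  have h20 : HH p j l ĉ 0 = 0 := sub_eq_zero.2 h2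
  have hO : OO 2 p V (j + l) ∈ 𝓝 (ĉ, (0 : ℂ)) := (isOpen_OO 2 p hV (j + l)).mem_nhds h1
  rw [nhds_prod_eq] at hO
  obtain ⟨N, hN, T, hT, hNT⟩ := mem_prod_iff.1 hO
  obtain ⟨t, ht, hTt⟩ := Metric.mem_nhds_iff.1 hT
  have h3 := HH_ev_ne (j := j) hpl ĉ 0 0
  rw [eventually_nhdsWithin_iff, Metric.eventually_nhds_iff] at h3
  obtain ⟨s, hs, h3⟩ := h3
  obtain ⟨r, hr⟩ : ∃ r, r = min (min (t / 2) (s / 2)) (ε / 2) := ⟨_, rfl⟩
  have hr0 : 0 < r := by rw [hr]; positivity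
  have hrt : r < t := by
    have := min_le_left (min (t / 2) (s / 2)) (ε / 2)
    have := min_le_left (t / 2) (s / 2)
    rw [hr]; linarith
  have hrs : r < s := by
    have := min_le_left (min (t / 2) (s / 2)) (ε / 2)
    have := min_le_right (t / 2) (s / 2)
    rw [hr]; linarith
  have hrε : r < ε := by
    have := min_le_right (min (t / 2) (s / 2)) (ε / 2)
    rw [hr]; linarith
  have hsph : ∀ y ∈ sphere (0 : ℂ) r, HH p j l ĉ y ≠ 0 := by
    intro y hy
    rw [mem_sphere_zero_iff_norm] at hy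
    apply h3 (by rw [dist_zero_right, hy]; exact hrs)
    intro h0
    rw [mem_singleton_iff] at h0
    rw [h0, norm_zero] at hy
    linarith
  obtain ⟨y₁, hy₁, hmin⟩ := (isCompact_sphere (0 : ℂ) r).exists_isMinOn
    (NormedSpace.sphere_nonempty.2 hr0.le)
    (f := fun y => ‖HH p j l ĉ y‖)
    ((HH_diff p j l ĉ).continuous.norm.continuousOn)
  obtain ⟨m₀, hm₀⟩ : ∃ m₀, m₀ = ‖HH p j l ĉ y₁‖ := ⟨_, rfl⟩
  have hm0 : 0 < m₀ := by
    rw [hm₀]
    exact norm_pos_iff.2 (hsph _ hy₁)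
  have hmin' : ∀ y ∈ sphere (0 : ℂ) r, m₀ ≤ ‖HH p j l ĉ y‖ := by
    intro y hy
    rw [hm₀]
    exact hmin hy
  -- uniform closeness
  have hun : ∀ᶠ c in 𝓝 ĉ, ∀ y ∈ closedBall (0 : ℂ) r,
      ‖HH p j l c y - HH p j l ĉ y‖ < m₀ / 4 := by
    have hopen : IsOpen {q : ℂ × ℂ | ‖HH p j l q.1 q.2 - HH p j l ĉ q.2‖ < m₀ / 4} := by
      refine isOpen_lt ?_ continuous_const
      exact ((HH_cont p j l).sub ((HH_diff p j l ĉ).continuous.comp continuous_snd)).norm
    obtain ⟨u, v, hu, hv, hsu, htv, huv⟩ := generalized_tube_lemma (isCompact_singleton (x := ĉ))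
      (isCompact_closedBall (0 : ℂ) r) hopen (by
        rintro ⟨a, b⟩ ⟨ha, hb⟩
        rw [mem_singleton_iff] at ha
        simp only [mem_ofPred_eq]
        have ha' : a = ĉ := ha
        rw [ha', sub_self, norm_zero]
        positivity)
    filter_upwards [hu.mem_nhds (hsu rfl)] with c hc y hy
    exact huv (show (c, y) ∈ u ×ˢ v from ⟨hc, htv hy⟩)
  filter_upwards [hun, hN] with c hc hcN
  have hw0 : ‖HH p j l c 0‖ < m₀ / 4 := by
    have := hc 0 (mem_closedBall_self hr0.le)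
    rwa [h20, sub_zero] at this
  have h4 : ball (HH p j l c 0) (m₀ / 2 / 2) ⊆ (HH p j l c) '' closedBall 0 r := by
    apply DiffContOnCl.ball_subset_image_closedBall (HH_diff p j l c).diffContOnCl hr0
    · intro y hy
      have h5 := hmin' y hy
      have h6 := hc y (sphere_subset_closedBall hy)
      have h8 : ‖HH p j l ĉ y‖ ≤ ‖HH p j l c y - HH p j l c 0‖ +
          ‖HH p j l c y - HH p j l ĉ y‖ + ‖HH p j l c 0‖ := by
        calc ‖HH p j l ĉ y‖ = ‖(HH p j l c y - HH p j l c 0) -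
          (HH p j l c y - HH p j l ĉ y) + HH p j l c 0‖ := by congr 1; ring
          _ ≤ _ := (norm_add_le _ _).trans (add_le_add (norm_sub_le _ _) le_rfl)
      linarith
    · have h5 := HH_ev_ne (j := j) hpl c 0 (HH p j l c 0)
      exact (h5.frequently).filter_mono nhdsWithin_le_nhds
  obtain ⟨y, hy1, hy2⟩ := h4 (show (0 : ℂ) ∈ ball _ _ by
    rw [mem_ball, dist_eq_norm, zero_sub, norm_neg]
    linarith)
  rw [mem_closedBall_zero_iff] at hy1
  refine ⟨y, by linarith, ?_, hy2⟩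
  exact hNT (show (c, y) ∈ N ×ˢ T from ⟨hcN, hTt (by rw [mem_ball_zero_iff]; linarith)⟩)

/-- compactness of the trapped zeros -/
theorem compact_HH {p : ℕ} {V : Set ℂ} (hVo : IsOpen V) (hVb : Bornology.IsBounded V)
    {B : Set ℂ} (hfr : ∀ c ∈ B, ∀ z ∈ frontier V, (fc 2 c)^[p] z ∉ closure V)
    {j l : ℕ} (hl : 1 ≤ l) {c₀ : ℂ} {r : ℝ} (hr : closedBall c₀ r ⊆ B) :
    IsCompact {q : ℂ × ℂ | q ∈ OO 2 p V (j + l) ∧ q.1 ∈ closedBall c₀ r ∧
      HH p j l q.1 q.2 = 0} := by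
  have heq : {q : ℂ × ℂ | q ∈ OO 2 p V (j + l) ∧ q.1 ∈ closedBall c₀ r ∧
      HH p j l q.1 q.2 = 0} = (closedBall c₀ r ×ˢ closure V) ∩
      ((⋂ i ∈ Finset.range (j + l), (fun q : ℂ × ℂ => (fc 2 q.1)^[p * i] q.2) ⁻¹' closure V) ∩
        {q | HH p j l q.1 q.2 = 0}) := by
    ext ⟨c, y⟩
    simp only [OO, mem_ofPred_eq, mem_inter_iff, mem_prod, mem_iInter, Finset.mem_range,
      mem_preimage]
    constructor
    · rintro ⟨h1, h2, h3⟩
      refine ⟨⟨h2, subset_closure ?_⟩, fun i hi => subset_closure (h1 i hi), h3⟩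
      have := h1 0 (by omega)
      simpa using this
    · rintro ⟨⟨h1, h2⟩, h3, h4⟩
      refine ⟨?_, h1, h4⟩
      intro i hi
      by_contra hcon
      have hf : (fc 2 c)^[p * i] y ∈ frontier V := by
        rw [hVo.frontier_eq]
        exact ⟨h3 i hi, hcon⟩
      apply hfr c (hr h1) _ hf
      rw [← Function.iterate_add_apply, show p + p * i = p * (i + 1) by ring]
      rcases Nat.lt_or_ge (i + 1) (j + l) with h5 | h5
      · exact h3 (i + 1) h5
      · rw [show i + 1 = j + l by omega, sub_eq_zero.1 h4]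
        exact h3 j (by omega)
  rw [heq]
  refine IsCompact.inter_right ((isCompact_closedBall _ _).prod ?_) ?_
  · exact Metric.isCompact_of_isClosed_isBounded isClosed_closure hVb.closure
  · refine IsClosed.inter ?_ (isClosed_eq (HH_cont p j l) continuous_const)
    exact isClosed_biInter fun i _ => isClosed_closure.preimage (cont_it 2 (p * i))

/-- the number of the periodic points -/
theorem per_card (c : ℂ) {m : ℕ} (hm : 1 ≤ m) :
    {w : ℂ | (fc 2 c)^[m] w = w}.Finite ∧ {w : ℂ | (fc 2 c)^[m] w = w}.ncard ≤ 2 ^ m := by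
  obtain ⟨h1, h2⟩ := FF_monic hm
  have h3 := FF_map c m
  apply roots_bound (p := Fc c m - Polynomial.X)
  · rw [← h3]
    exact (h1.map _).ne_zero
  · intro a ha
    rw [Polynomial.eval_sub, Fc_eval, Polynomial.eval_X, sub_eq_zero]
    exact ha
  · rw [← h3]
    exact (Polynomial.natDegree_map_le).trans h2.le

theorem tree_YM {p : ℕ} {V : Set ℂ} {c : ℂ} (hdeg : Deg 2 p V c) {j l : ℕ} (hpl : 1 ≤ p * l) :
    (YM p V j l c).Finite ∧ (YM p V j l c).ncard ≤ 2 ^ (p * l) * 2 ^ j := by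
  classical
  have hl : 1 ≤ l := Nat.pos_of_ne_zero (by rintro rfl; simp at hpl)
  obtain ⟨hf, hcard⟩ := per_card c hpl
  have hsub : YM p V j l c ⊆ ↑(hf.toFinset.biUnion fun w =>
      if h : w ∈ V then (tree hdeg h j).1.toFinset else ∅) := by
    rintro y ⟨h1, h2⟩
    simp only [Finset.coe_biUnion, Set.Finite.coe_toFinset, mem_iUnion, Finset.mem_coe]
    have hwV : (fc 2 c)^[p * j] y ∈ V := h1 j (by omega)
    refine ⟨(fc 2 c)^[p * j] y, ?_, ?_⟩
    · show (fc 2 c)^[p * l] ((fc 2 c)^[p * j] y) = (fc 2 c)^[p * j] y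
      have h3 := sub_eq_zero.1 h2
      rw [split_it, Function.comp_apply] at h3
      exact h3
    · rw [dif_pos hwV, Set.Finite.mem_toFinset]
      exact ⟨fun i hi => h1 i (by omega), rfl⟩
  refine ⟨(Finset.finite_toSet _).subset hsub, ?_⟩
  refine (Set.ncard_le_ncard hsub (Finset.finite_toSet _)).trans ?_
  rw [Set.ncard_coe_finset]
  have h1 : (hf.toFinset.biUnion fun w =>
      if h : w ∈ V then (tree hdeg h j).1.toFinset else ∅).card ≤ hf.toFinset.card * 2 ^ j := by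
    apply Finset.card_biUnion_le_card_mul
    intro w _
    by_cases h : w ∈ V
    · rw [dif_pos h, ← Set.ncard_eq_toFinset_card _ (tree hdeg h j).1]
      exact (tree hdeg h j).2
    · rw [dif_neg h]
      simp
  rw [← Set.ncard_eq_toFinset_card _ hf] at h1
  exact h1.trans (Nat.mul_le_mul_right _ hcard)

/-- the normalised product -/
noncomputable def GP (S : Set ℂ) (R : ℝ) : ℂ := (∏ᶠ y ∈ S, y) / (R : ℂ) ^ S.ncard

theorem GP_le {S : Set ℂ} {R : ℝ} (hR : 0 < R) (hS : ∀ y ∈ S, ‖y‖ ≤ R) : ‖GP S R‖ ≤ 1 := by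
  unfold GP
  by_cases hf : S.Finite
  · rw [finprod_mem_eq_finite_toFinset_prod _ hf, Set.ncard_eq_toFinset_card _ hf, norm_div,
      norm_prod, norm_pow, Complex.norm_real, Real.norm_eq_abs, abs_of_pos hR,
      div_le_one (by positivity)]
    rw [← Finset.prod_const]
    apply Finset.prod_le_prod (fun _ _ => norm_nonneg _)
    intro y hy
    exact hS y ((Set.Finite.mem_toFinset hf).1 hy)
  · have h1 : (∏ᶠ y ∈ S, y) = 1 := by
      apply finprod_mem_eq_one_of_infinite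
      intro hfin
      apply hf
      refine (hfin.union (Set.finite_singleton (1 : ℂ))).subset ?_
      intro y hy
      by_cases h : y = 1
      · exact Or.inr h
      · exact Or.inl ⟨hy, h⟩
    rw [h1, Set.Infinite.ncard hf]
    simp

theorem GP_ge {S : Set ℂ} {R η : ℝ} (hη : 0 < η) (hηR : η ≤ R) (hf : S.Finite) {N : ℕ}
    (hN : S.ncard ≤ N) (h : ∀ y ∈ S, η ≤ ‖y‖) : (η / R) ^ N ≤ ‖GP S R‖ := by
  have hR : 0 < R := hη.trans_le hηR
  have h0 : η / R ≤ 1 := (div_le_one hR).2 hηR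
  refine (pow_le_pow_of_le_one (by positivity) h0 hN).trans ?_
  unfold GP
  rw [finprod_mem_eq_finite_toFinset_prod _ hf, Set.ncard_eq_toFinset_card _ hf, norm_div,
    norm_prod, norm_pow, Complex.norm_real, Real.norm_eq_abs, abs_of_pos hR, div_pow]
  gcongr
  rw [← Finset.prod_const]
  apply Finset.prod_le_prod (fun _ _ => hη.le)
  intro y hy
  exact h y ((Set.Finite.mem_toFinset hf).1 hy)

theorem GP_small {S : Set ℂ} {R ε : ℝ} (hR : 0 < R) (hS : ∀ y ∈ S, ‖y‖ ≤ R) (hf : S.Finite)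
    {y : ℂ} (hy : y ∈ S) (hyε : ‖y‖ < ε * R) : ‖GP S R‖ < ε := by
  classical
  unfold GP
  rw [finprod_mem_eq_finite_toFinset_prod _ hf, Set.ncard_eq_toFinset_card _ hf, norm_div,
    norm_prod, norm_pow, Complex.norm_real, Real.norm_eq_abs, abs_of_pos hR,
    div_lt_iff₀ (by positivity)]
  have hmem : y ∈ hf.toFinset := (Set.Finite.mem_toFinset hf).2 hy
  rw [← Finset.mul_prod_erase _ _ hmem]
  have h1 : ∏ x ∈ hf.toFinset.erase y, ‖x‖ ≤ R ^ (hf.toFinset.erase y).card := by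
    rw [← Finset.prod_const]
    apply Finset.prod_le_prod (fun _ _ => norm_nonneg _)
    intro x hx
    exact hS x ((Set.Finite.mem_toFinset hf).1 (Finset.mem_of_mem_erase hx))
  have h2 : hf.toFinset.card = (hf.toFinset.erase y).card + 1 := by
    rw [Finset.card_erase_of_mem hmem]
    have := Finset.card_pos.2 ⟨y, hmem⟩
    omega
  rw [h2, pow_succ]
  calc ‖y‖ * ∏ x ∈ hf.toFinset.erase y, ‖x‖ ≤ ‖y‖ * R ^ (hf.toFinset.erase y).card := by gcongr
    _ < ε * R * R ^ (hf.toFinset.erase y).card := by gcongr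
    _ = ε * (R ^ (hf.toFinset.erase y).card * R) := by ring

/-- the exceptional parameters of the pair `(j, l)` -/
def EE (p j l : ℕ) : Set ℂ :=
  {c | (∃ k, 1 ≤ k ∧ k ≤ p * j ∧ P 2 (k + p * l) c = P 2 k c) ∨
    ∃ z, (fc 2 c)^[p * l] z = z ∧ deriv ((fc 2 c)^[p * l]) z = 1}

theorem pcf_fin {k n : ℕ} (hkn : k < n) : {a : ℂ | P 2 n a = P 2 k a}.Finite :=
  (pcf_count hkn).1

theorem par_fin {m : ℕ} (hm : 1 ≤ m) :
    {a : ℂ | ∃ z, (fc 2 a)^[m] z = z ∧ deriv ((fc 2 a)^[m]) z = 1}.Finite := by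
  refine (par_count hm (q := 1) le_rfl).1.subset ?_
  rintro a ⟨z, h1, h2⟩
  exact ⟨z, h1, by rw [pow_one]; exact h2⟩

theorem EE_finite {p j l : ℕ} (hpl : 1 ≤ p * l) : (EE p j l).Finite := by
  have h1 : EE p j l ⊆ (⋃ k ∈ Finset.Icc 1 (p * j), {c | P 2 (k + p * l) c = P 2 k c}) ∪
      {c | ∃ z, (fc 2 c)^[p * l] z = z ∧ deriv ((fc 2 c)^[p * l]) z = 1} := by
    rintro c (⟨k, h1, h2, h3⟩ | h)
    · left
      simp only [mem_iUnion]
      exact ⟨k, Finset.mem_Icc.2 ⟨h1, h2⟩, h3⟩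
    · right
      exact h
  refine Set.Finite.subset (Set.Finite.union ?_ (par_fin hpl)) h1
  apply Set.Finite.biUnion (Finset.finite_toSet _)
  intro k _
  exact pcf_fin (by omega)

theorem local_HH {p : ℕ} {V : Set ℂ} (hVo : IsOpen V)
    (hVb : Bornology.IsBounded V) {B : Set ℂ} (hBo : IsOpen B)
    (hfr : ∀ c ∈ B, ∀ z ∈ frontier V, (fc 2 c)^[p] z ∉ closure V)
    {j l : ℕ} (hl : 1 ≤ l) (R : ℝ) {c₀ : ℂ} (hc₀ : c₀ ∈ B) (hE : c₀ ∉ EE p j l) :
    (∀ᶠ c in 𝓝 c₀, (YM p V j l c).Finite ∧ (YM p V j l c).ncard = (YM p V j l c₀).ncard) ∧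
    DifferentiableAt ℂ (fun c => GP (YM p V j l c) R) c₀ := by
  obtain ⟨r, hr, hrB⟩ := Metric.isOpen_iff.1 hBo c₀ hc₀
  have hE1 : ∀ k, 1 ≤ k → k ≤ p * j → P 2 (k + p * l) c₀ ≠ P 2 k c₀ := by
    intro k h1 h2 h3
    exact hE (Or.inl ⟨k, h1, h2, h3⟩)
  have hE2 : ∀ z, (fc 2 c₀)^[p * l] z = z → deriv ((fc 2 c₀)^[p * l]) z ≠ 1 := by
    intro z h1 h2
    exact hE (Or.inr ⟨z, h1, h2⟩)
  obtain ⟨h1, h2⟩ := lp (HH p j l) (OO 2 p V (j + l)) c₀ (r / 2)
    (HH_cd p j l) (isOpen_OO 2 p hVo (j + l)) (half_pos hr)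
    (compact_HH hVo hVb hfr hl ((closedBall_subset_ball (half_lt_self hr)).trans hrB)) (by
      intro y _ hy
      exact deriv_HH_ne hy hE1 hE2)
  refine ⟨h1, ?_⟩
  have h3 : DifferentiableAt ℂ (fun c => (∏ᶠ y ∈ YM p V j l c, y) /
      (R : ℂ) ^ (YM p V j l c₀).ncard) c₀ := h2.div_const _
  refine h3.congr_of_eventuallyEq ?_
  filter_upwards [h1] with c hc
  unfold GP
  have hc2 : (YM p V j l c).ncard = (YM p V j l c₀).ncard := hc.2
  rw [hc2]

/-- the parameters with a relation -/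
def ZM (p : ℕ) (V : Set ℂ) (B : Set ℂ) (j l : ℕ) : Set ℂ :=
  {c | c ∈ B ∧ (∀ i < j + l, P 2 (p * i) c ∈ V) ∧ P 2 (p * (j + l)) c = P 2 (p * j) c}

/-- **The counting lemma.** -/
theorem count_HH {p : ℕ} (hp : 1 ≤ p) {V : Set ℂ}
    (hVo : IsOpen V) (hVb : Bornology.IsBounded V) {c₁ c' : ℂ} {δ : ℝ} (hδ : 0 < δ)
    (hfr : ∀ c ∈ ball c₁ δ, ∀ z ∈ frontier V, (fc 2 c)^[p] z ∉ closure V)
    (hdeg : Deg 2 p V c₁) (hc' : ‖c' - c₁‖ < δ / 16)
    (hesc : ∃ i, P 2 (p * i) c' ∉ closure V)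
    (hseg : ∀ c ∈ segment ℝ c₁ c', ∀ j l, 1 ≤ l → c ∉ EE p j l) :
    ∃ (C : ℝ) (J : ℕ), 0 ≤ C ∧ ∀ j l, 1 ≤ l → J ≤ j + l →
      (ZM p V (ball c₁ (δ / 16)) j l).Finite ∧
      ((ZM p V (ball c₁ (δ / 16)) j l).ncard : ℝ) ≤ C * 2 ^ (p * l + j) := by
  obtain ⟨i₀, hi₀⟩ := hesc
  obtain ⟨η₀, hη₀, hη₀'⟩ : ∃ η₀ > 0, ∀ y : ℂ, ‖y‖ < η₀ → (fc 2 c')^[p * i₀] y ∉ closure V := by
    have h1 : IsOpen {y | (fc 2 c')^[p * i₀] y ∉ closure V} :=
      isClosed_closure.isOpen_compl.preimage (cont_it_y 2 _ _)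
    obtain ⟨η, hη, h2⟩ := Metric.isOpen_iff.1 h1 0 hi₀
    exact ⟨η, hη, fun y hy => h2 (mem_ball_zero_iff.2 hy)⟩
  obtain ⟨R₀, hR₀⟩ := hVb.exists_norm_le
  obtain ⟨R, hRdef⟩ : ∃ R, R = max R₀ (max 1 (2 * η₀)) := ⟨_, rfl⟩
  have hR1 : 1 ≤ R := by rw [hRdef]; exact (le_max_left _ _).trans (le_max_right _ _)
  have hR : 0 < R := by linarith
  have hRη : 2 * η₀ ≤ R := by rw [hRdef]; exact (le_max_right _ _).trans (le_max_right _ _)
  have hVR : ∀ y ∈ V, ‖y‖ ≤ R := fun y hy => (hR₀ y hy).trans (by rw [hRdef]; exact le_max_left _ _)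
  have hq0 : 0 < η₀ / R := by positivity
  have hlog : 0 < Real.log (R / η₀) := Real.log_pos (by rw [one_lt_div hη₀]; linarith)
  have hlog2 : 0 < Real.log 2 := Real.log_pos (by norm_num)
  refine ⟨Real.log (R / η₀) / Real.log 2, i₀ + 1, by positivity, fun j l hl hj => ?_⟩
  have hpl : 1 ≤ p * l := Nat.mul_pos hp hl
  have hYR : ∀ c, ∀ y ∈ YM p V j l c, ‖y‖ ≤ R := by
    intro c y hy
    apply hVR
    have := hy.1 0 (by omega)
    simpa using this
  have hfinZ : (ZM p V (ball c₁ (δ / 16)) j l).Finite := by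
    refine (pcf_fin (k := p * j) (n := p * (j + l)) (by rw [Nat.mul_add]; omega)).subset ?_
    rintro c ⟨_, _, h⟩
    exact h
  refine ⟨hfinZ, ?_⟩
  have hsegB : ∀ c ∈ segment ℝ c₁ c', c ∈ ball c₁ δ := by
    intro c hc
    have h1 : segment ℝ c₁ c' ⊆ ball c₁ δ :=
      (convex_ball c₁ δ).segment_subset (mem_ball_self hδ) (by
        rw [mem_ball, dist_eq_norm]; linarith)
    exact h1 hc
  obtain ⟨N, hN⟩ : ∃ N : ℕ, N = 2 ^ (p * l) * 2 ^ j := ⟨_, rfl⟩
  -- the number of trapped points at `c'`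
  have hcard : (YM p V j l c').ncard ≤ N := by
    have h1 : ∀ c ∈ segment ℝ c₁ c', ContinuousWithinAt
        (fun c => (YM p V j l c).ncard) (segment ℝ c₁ c') c := by
      intro c hc
      have h2 := (local_HH hVo hVb isOpen_ball hfr hl R (hsegB c hc) (hseg c hc j l hl)).1
      have h3 : (fun c => (YM p V j l c).ncard) =ᶠ[𝓝 c] fun _ => (YM p V j l c).ncard := by
        filter_upwards [h2] with a ha using ha.2
      exact (continuousAt_const.congr h3.symm).continuousWithinAt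
    have h2 := (convex_segment c₁ c').isPreconnected.constant (f := fun c => (YM p V j l c).ncard)
      h1 (left_mem_segment ℝ c₁ c') (right_mem_segment ℝ c₁ c')
    have h3 := (tree_YM hdeg hpl (j := j)).2
    have h4 : (YM p V j l c₁).ncard = (YM p V j l c').ncard := h2
    rw [← h4, hN]
    exact h3
  have hEfin := EE_finite (j := j) hpl
  have hc'E : c' ∉ EE p j l := hseg c' (right_mem_segment ℝ c₁ c') j l hl
  have hsub : ball c' (δ / 2) ⊆ ball c₁ δ := by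
    apply ball_subset_ball'
    rw [dist_eq_norm]
    linarith
  have hc'fin : (YM p V j l c').Finite :=
    ((local_HH hVo hVb isOpen_ball hfr hl R (hsegB c' (right_mem_segment ℝ c₁ c'))
      hc'E).1.self_of_nhds).1
  have hlow : (η₀ / R) ^ N ≤ ‖GP (YM p V j l c') R‖ := by
    apply GP_ge hη₀ (by linarith) hc'fin hcard
    intro y hy
    by_contra hlt
    push Not at hlt
    exact hη₀' y hlt (subset_closure (hy.1 i₀ (by omega)))
  have key := jz (fun c => GP (YM p V j l c) R) c' (δ / 2) 1 ((η₀ / R) ^ N)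
    (EE p j l) hfinZ.toFinset (by positivity) hEfin
    (by
      rintro c ⟨hc1, hc2⟩
      exact ((local_HH hVo hVb isOpen_ball hfr hl R (hsub hc1) hc2).2).differentiableWithinAt)
    (fun c _ => GP_le hR (hYR c)) hc'E hlow (by
      intro c hc
      rw [Set.Finite.coe_toFinset] at hc
      have h1 := hc.1
      rw [mem_ball, dist_eq_norm] at h1 ⊢
      have h2 : ‖c - c'‖ ≤ ‖c - c₁‖ + ‖c' - c₁‖ := by
        rw [← dist_eq_norm, ← dist_eq_norm, ← dist_eq_norm]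
        exact dist_triangle_right _ _ _
      linarith)
    (by
      intro ĉ hĉ
      rw [Set.Finite.mem_toFinset] at hĉ
      obtain ⟨h1, h2, h3⟩ := hĉ
      rw [Metric.tendsto_nhds]
      intro ε hε
      have h4 := persist_HH hVo hpl h2 h3 (ε := ε * R) (by positivity)
      have h5 : ∀ᶠ c in 𝓝[≠] ĉ, c ∉ EE p j l := by
        have h6 : IsClosed (EE p j l \ {ĉ}) := (hEfin.subset sdiff_subset).isClosed
        have h7 : (EE p j l \ {ĉ})ᶜ ∈ 𝓝 ĉ := h6.isOpen_compl.mem_nhds (by simp)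
        filter_upwards [mem_nhdsWithin_of_mem_nhds h7, self_mem_nhdsWithin] with c hc1 hc2 hc3
        exact hc1 ⟨hc3, hc2⟩
      have h6 : ∀ᶠ c in 𝓝[≠] ĉ, c ∈ ball c₁ δ := by
        apply mem_nhdsWithin_of_mem_nhds
        exact isOpen_ball.mem_nhds (ball_subset_ball (by linarith) h1)
      filter_upwards [nhdsWithin_le_nhds h4, h5, h6] with c hc1 hc2 hc3
      obtain ⟨y, hy1, hy2⟩ := hc1
      rw [dist_zero_right]
      have hf := ((local_HH hVo hVb isOpen_ball hfr hl R hc3 hc2).1.self_of_nhds).1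
      exact GP_small hR (hYR c) hf hy2 hy1)
  rw [← Set.ncard_eq_toFinset_card _ hfinZ] at key
  have h1 : (2 : ℝ) ^ ((ZM p V (ball c₁ (δ / 16)) j l).ncard) ≤ (R / η₀) ^ N := by
    have h2 : (R / η₀) ^ N = 1 / (η₀ / R) ^ N := by
      rw [← inv_div, inv_pow, one_div]
    rw [h2, le_div_iff₀ (by positivity)]
    linarith
  have h2 := Real.log_le_log (by positivity) h1
  rw [Real.log_pow, Real.log_pow] at h2
  rw [div_mul_eq_mul_div, le_div_iff₀ hlog2]
  have h3 : (N : ℝ) = 2 ^ (p * l + j) := by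
    rw [hN, pow_add]
    push_cast
    ring
  rw [h3] at h2
  linarith

/-- a segment from a boundary parameter to an escaping one, free of a countable set -/
theorem exists_seg' {c₁ : ℂ} (hc₁ : c₁ ∈ frontier (N62a1eb23.multibrotSet 2)) {Z : Set ℂ}
    (hZc : Z.Countable) (hZ : c₁ ∉ Z) {ε : ℝ}
    (hε : 0 < ε) : ∃ c' : ℂ, ‖c' - c₁‖ < ε ∧ c' ∉ N62a1eb23.multibrotSet 2 ∧
      ∀ c ∈ segment ℝ c₁ c', c ∉ Z := by
  have hMc : IsClosed (N62a1eb23.multibrotSet 2) :=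
    (Pool.Agent.H712R2.isCompact_multibrot le_rfl).isClosed
  have h1 : c₁ ∈ closure (N62a1eb23.multibrotSet 2)ᶜ := by
    rw [frontier_eq_closure_inter_closure] at hc₁
    exact hc₁.2
  obtain ⟨c'', hc''M, hc''⟩ := Metric.mem_closure_iff.1 h1 (ε / 2) (half_pos hε)
  rw [dist_comm, dist_eq_norm] at hc''
  have hc₁M : c₁ ∈ N62a1eb23.multibrotSet 2 := hMc.frontier_subset hc₁
  obtain ⟨u, hu⟩ : ∃ u, u = c'' - c₁ := ⟨_, rfl⟩
  rw [← hu] at hc''
  have hu0 : u ≠ 0 := by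
    rw [hu, sub_ne_zero]
    rintro rfl
    exact hc''M hc₁M
  -- the curve
  obtain ⟨g, hg⟩ : ∃ g : ℝ → ℂ, g = fun t : ℝ => c₁ + (1 + (t : ℂ) * Complex.I) * u := ⟨_, rfl⟩
  have hgc : Continuous g := by rw [hg]; fun_prop
  have hg0 : g 0 = c'' := by rw [hg, hu]; simp
  have hev : ∀ᶠ t in 𝓝 (0 : ℝ), g t ∈ (N62a1eb23.multibrotSet 2)ᶜ ∩ ball c₁ ε := by
    apply hgc.continuousAt.eventually
    rw [hg0]
    refine (hMc.isOpen_compl.inter isOpen_ball).mem_nhds ⟨hc''M, ?_⟩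
    rw [mem_ball, dist_eq_norm, ← hu]
    linarith
  obtain ⟨η, hη, hball⟩ := Metric.eventually_nhds_iff.1 hev
  by_contra hcon
  push Not at hcon
  have h2 : ∀ t ∈ Ioo (0:ℝ) η, ∃ a ∈ Z, a ∈ segment ℝ c₁ (g t) := by
    intro t ht
    obtain ⟨h3, h4⟩ := hball (by
      rw [dist_zero_right, Real.norm_eq_abs, abs_of_pos ht.1]; exact ht.2)
    rw [mem_ball, dist_eq_norm] at h4
    obtain ⟨c, hc, hP⟩ := hcon (g t) h4 h3
    exact ⟨c, hP, hc⟩
  choose! a haZ has using h2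
  have hinj : InjOn a (Ioo (0:ℝ) η) := by
    intro s hs t ht hst
    have h3 := has s hs
    have h4 := has t ht
    rw [segment_eq_image'] at h3 h4
    obtain ⟨x, _, hx⟩ := h3
    obtain ⟨y, _, hy⟩ := h4
    have h5 : a s ≠ c₁ := by
      intro h5
      have h6 := haZ s hs
      rw [h5] at h6
      exact hZ h6
    have h6 : (x : ℂ) * ((1 + s * Complex.I) * u) = y * ((1 + t * Complex.I) * u) := by
      have h7 : a s = c₁ + x * ((1 + s * Complex.I) * u) := by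
        rw [← hx, hg]
        simp only [Complex.real_smul]
        ring
      have h8 : a t = c₁ + y * ((1 + t * Complex.I) * u) := by
        rw [← hy, hg]
        simp only [Complex.real_smul]
        ring
      rw [hst, h8] at h7
      linear_combination -h7
    have h7 : (x : ℂ) * (1 + s * Complex.I) = y * (1 + t * Complex.I) := by
      apply mul_right_cancel₀ hu0
      linear_combination h6
    have h8 := congrArg Complex.re h7
    have h9 := congrArg Complex.im h7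
    simp at h8 h9
    have hx0 : x ≠ 0 := by
      intro h0
      apply h5
      rw [← hx, h0]
      simp
    rw [← h8] at h9
    exact mul_left_cancel₀ hx0 h9
  have hcount : (Ioo (0:ℝ) η).Countable :=
    (show MapsTo a (Ioo (0:ℝ) η) Z from haZ).countable_of_injOn hinj hZc
  have h3 := hcount.measure_zero volume
  rw [Real.volume_Ioo, ENNReal.ofReal_eq_zero] at h3
  linarith

end Pool.Agent.K6.H26.ML
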