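import Pool.Agent.R240.Loc

set_option autoImplicit false

/-! # Continua of points at which a plane continuum is not locally connected -/

namespace Pool.Agent.K6.H26.ML

open Set Metric Filter Topology MeasureTheory
open Pool.Agent.R240.Loc

/-- the limit of a sequence of sets along an ultrafilter -/
def ulim (U : Ultrafilter ℕ) (C : ℕ → Set ℂ) : Set ℂ :=
  {w | ∀ ε : ℝ, 0 < ε → ∀ᶠ n in (U : Filter ℕ), (C n ∩ ball w ε).Nonempty}

theorem ulim_closed (U : Ultrafilter ℕ) (C : ℕ → Set ℂ) : IsClosed (ulim U C) := by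
  rw [← closure_subset_iff_isClosed]
  intro w hw ε hε
  obtain ⟨w', hw', hd⟩ := Metric.mem_closure_iff.1 hw (ε / 2) (half_pos hε)
  filter_upwards [hw' (ε / 2) (half_pos hε)] with n hn
  obtain ⟨z, hz1, hz2⟩ := hn
  refine ⟨z, hz1, ?_⟩
  rw [mem_ball] at hz2 ⊢
  have := dist_triangle z w' w
  rw [dist_comm w w'] at hd
  linarith

theorem mem_ulim {U : Ultrafilter ℕ} {C : ℕ → Set ℂ} {z : ℕ → ℂ} {w : ℂ}
    (hz : ∀ᶠ n in (U : Filter ℕ), z n ∈ C n) (hw : Tendsto z U (𝓝 w)) : w ∈ ulim U C := by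
  intro ε hε
  filter_upwards [hz, hw (ball_mem_nhds w hε)] with n h1 h2
  exact ⟨z n, h1, h2⟩

theorem ulim_subset {U : Ultrafilter ℕ} {C : ℕ → Set ℂ} {F : Set ℂ} (hF : IsClosed F)
    (h : ∀ᶠ n in (U : Filter ℕ), C n ⊆ F) : ulim U C ⊆ F := by
  intro w hw
  rw [← hF.closure_eq, Metric.mem_closure_iff]
  intro ε hε
  obtain ⟨n, h1, h2⟩ := (h.and (hw ε hε)).exists
  obtain ⟨z, hz1, hz2⟩ := h2
  exact ⟨z, h1 hz1, by rw [dist_comm]; exact hz2⟩

theorem ulim_preconnected {U : Ultrafilter ℕ} {C : ℕ → Set ℂ} {F : Set ℂ} (hF : IsCompact F)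
    (h : ∀ᶠ n in (U : Filter ℕ), C n ⊆ F) (hc : ∀ᶠ n in (U : Filter ℕ), IsPreconnected (C n)) :
    IsPreconnected (ulim U C) := by
  classical
  rw [isPreconnected_iff_subset_of_fully_disjoint_closed (ulim_closed U C)]
  intro u v hu hv huv hd
  obtain ⟨U1, U2, hU1, hU2, hu1, hv2, hdis⟩ := normal_separation hu hv hd
  have key : ∀ᶠ n in (U : Filter ℕ), C n ⊆ U1 ∪ U2 := by
    by_contra hcon
    have h1 : ∀ᶠ n in (U : Filter ℕ), ¬ C n ⊆ U1 ∪ U2 := Ultrafilter.eventually_not.2 hcon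
    obtain ⟨z, hz⟩ : ∃ z : ℕ → ℂ, ∀ n, ¬ C n ⊆ U1 ∪ U2 → z n ∈ C n ∧ z n ∉ U1 ∪ U2 := by
      refine ⟨fun n => if hn : ∃ x, x ∈ C n ∧ x ∉ U1 ∪ U2 then hn.choose else 0, fun n hn => ?_⟩
      have hn' : ∃ x, x ∈ C n ∧ x ∉ U1 ∪ U2 := not_subset.1 hn
      simp only [dif_pos hn']
      exact hn'.choose_spec
    have h2 : ∀ᶠ n in (U : Filter ℕ), z n ∈ F ∩ (U1 ∪ U2)ᶜ := by
      filter_upwards [h1, h] with n h3 h4
      exact ⟨h4 (hz n h3).1, (hz n h3).2⟩
    have hF' : IsCompact (F ∩ (U1 ∪ U2)ᶜ) := hF.inter_right (hU1.union hU2).isClosed_compl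
    obtain ⟨w, hw, hle⟩ := hF'.ultrafilter_le_nhds (U.map z) (by
      rw [le_principal_iff]
      exact h2)
    have hlim : Tendsto z U (𝓝 w) := hle
    have hwL : w ∈ ulim U C := mem_ulim (by
      filter_upwards [h1] with n h3
      exact (hz n h3).1) hlim
    apply hw.2
    rcases huv hwL with h3 | h3
    · exact Or.inl (hu1 h3)
    · exact Or.inr (hv2 h3)
  have key2 : ∀ᶠ n in (U : Filter ℕ), C n ⊆ U1 ∨ C n ⊆ U2 := by
    filter_upwards [key, hc] with n h1 h2
    exact h2.subset_or_subset hU1 hU2 hdis h1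
  rcases Ultrafilter.eventually_or.1 key2 with h1 | h1
  · left
    intro w hw
    rcases huv hw with h2 | h2
    · exact h2
    exfalso
    obtain ⟨ε, hε, hb⟩ := Metric.isOpen_iff.1 hU2 w (hv2 h2)
    obtain ⟨n, h3, z, hz1, hz2⟩ := (h1.and (hw ε hε)).exists
    exact Set.disjoint_left.1 hdis (h3 hz1) (hb hz2)
  · right
    intro w hw
    rcases huv hw with h2 | h2
    · exfalso
      obtain ⟨ε, hε, hb⟩ := Metric.isOpen_iff.1 hU1 w (hu1 h2)
      obtain ⟨n, h3, z, hz1, hz2⟩ := (h1.and (hw ε hε)).exists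
      exact Set.disjoint_left.1 hdis (hb hz2) (h3 hz1)
    · exact h2

theorem compIn_compact {F : Set ℂ} (hF : IsCompact F) {x : ℂ} (hx : x ∈ F) :
    IsCompact (connectedComponentIn F x) := by
  rw [connectedComponentIn_eq_image hx]
  have : CompactSpace F := isCompact_iff_compactSpace.1 hF
  exact isClosed_connectedComponent.isCompact.image continuous_subtype_val

/-- **Continua of convergence.** If a plane continuum is not connected im kleinen at `p` then `p`
lies in a subcontinuum with more than one point, at every point of which it is not connected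
im kleinen. -/
theorem exists_continuum {K : Set ℂ} (hK : IsCompact K) (hc : IsPreconnected K) {p : ℂ}
    (h : ¬ CIK K p) : ∃ C ⊆ K, IsCompact C ∧ IsConnected C ∧ p ∈ C ∧ C.Nontrivial ∧
      ∀ z ∈ C, ¬ CIK K z := by
  unfold CIK at h
  push Not at h
  obtain ⟨ε₀, hε₀, h⟩ := h
  obtain ⟨ε, hε⟩ : ∃ ε, ε = ε₀ / 2 := ⟨_, rfl⟩
  have hε0 : 0 < ε := by rw [hε]; linarith
  have hεε : ε < ε₀ := by rw [hε]; linarith
  obtain ⟨q, hq⟩ : ∃ q : ℕ → ℂ, ∀ n, q n ∈ K ∧ dist (q n) p < 1 / ((n : ℝ) + 1) ∧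
      ∀ C ⊆ K ∩ ball p ε₀, IsPreconnected C → p ∈ C → q n ∉ C := by
    have h1 : ∀ n : ℕ, ∃ y, y ∈ K ∧ dist y p < 1 / ((n : ℝ) + 1) ∧
      ∀ C ⊆ K ∩ ball p ε₀, IsPreconnected C → p ∈ C → y ∉ C := by
      intro n
      obtain ⟨y, h1, h2, h3⟩ := h (1 / ((n : ℝ) + 1)) (by positivity)
      exact ⟨y, h1, h2, h3⟩
    choose q hq using h1
    exact ⟨q, hq⟩
  have hqlim : Tendsto q atTop (𝓝 p) := by
    rw [tendsto_iff_dist_tendsto_zero]
    exact squeeze_zero (fun _ => dist_nonneg) (fun n => (hq n).2.1.le)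
      tendsto_one_div_add_atTop_nhds_zero_nat
  have hpK : p ∈ K := hK.isClosed.mem_of_tendsto hqlim (Eventually.of_forall fun n => (hq n).1)
  obtain ⟨k, hk, hkp⟩ : ∃ k ∈ K, ε < dist k p := by
    by_contra hcon
    push Not at hcon
    exact (hq 0).2.2 K (fun y hy => ⟨hy, mem_ball.2 ((hcon y hy).trans_lt hεε)⟩) hc hpK (hq 0).1
  obtain ⟨F, hF⟩ : ∃ F : Set ℂ, F = K ∩ closedBall p ε := ⟨_, rfl⟩
  have hFc : IsCompact F := by rw [hF]; exact hK.inter_right isClosed_closedBall
  have hFK : F ⊆ K := by rw [hF]; exact inter_subset_left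
  have hFsub : F ⊆ K ∩ ball p ε₀ := by
    rw [hF]
    exact fun y hy => ⟨hy.1, closedBall_subset_ball hεε hy.2⟩
  obtain ⟨U, hU⟩ : ∃ U : Ultrafilter ℕ, (U : Filter ℕ) ≤ atTop :=
    ⟨Ultrafilter.of atTop, Ultrafilter.of_le atTop⟩
  have hqU : Tendsto q U (𝓝 p) := hqlim.mono_left hU
  have hqF : ∀ᶠ n in (U : Filter ℕ), q n ∈ F := by
    filter_upwards [hqU (closedBall_mem_nhds p hε0)] with n hn
    rw [hF]
    exact ⟨(hq n).1, hn⟩
  obtain ⟨C, hC⟩ : ∃ C : ℕ → Set ℂ, C = fun n => connectedComponentIn F (q n) := ⟨_, rfl⟩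
  have hCF : ∀ n, C n ⊆ F := fun n => by rw [hC]; exact connectedComponentIn_subset F (q n)
  have hCp : ∀ n, IsPreconnected (C n) := fun n => by
    rw [hC]; exact isPreconnected_connectedComponentIn
  have hqC : ∀ n, q n ∈ F → q n ∈ C n := fun n hn => by
    rw [hC]; exact mem_connectedComponentIn hn
  have hpC : ∀ n, q n ∈ F → p ∉ C n := by
    intro n hn hp
    exact (hq n).2.2 _ ((hCF n).trans hFsub) (hCp n) hp (hqC n hn)
  obtain ⟨L, hL⟩ : ∃ L, L = ulim U C := ⟨_, rfl⟩
  have hLF : L ⊆ F := by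
    rw [hL]; exact ulim_subset hFc.isClosed (Eventually.of_forall hCF)
  have hLc : IsCompact L := by
    rw [hL] at hLF ⊢
    exact hFc.of_isClosed_subset (ulim_closed U C) hLF
  have hLp : IsPreconnected L := by
    rw [hL]
    exact ulim_preconnected hFc (Eventually.of_forall hCF) (Eventually.of_forall hCp)
  have hpL : p ∈ L := by
    rw [hL]
    exact mem_ulim (by filter_upwards [hqF] with n hn using hqC n hn) hqU
  -- a far point
  obtain ⟨y₀, hy₀L, hy₀⟩ : ∃ y ∈ L, dist y p = ε := by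
    have h1 : ∀ᶠ n in (U : Filter ℕ), ∃ y ∈ C n, dist y p = ε := by
      filter_upwards [hqF, hqU (ball_mem_nhds p hε0)] with n hn1 hn2
      obtain ⟨y, hy, hyp⟩ := bump hK hc (hq n).1 hn2 hk hkp
      rw [← hF] at hy
      exact ⟨y, by rw [hC]; exact hy, hyp⟩
    obtain ⟨y, hy⟩ : ∃ y : ℕ → ℂ, ∀ n, (∃ y ∈ C n, dist y p = ε) → y n ∈ C n ∧ dist (y n) p = ε := by
      classical
      refine ⟨fun n => if hn : ∃ y, y ∈ C n ∧ dist y p = ε then hn.choose else 0, fun n hn => ?_⟩
      have hn' : ∃ y, y ∈ C n ∧ dist y p = ε := hn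
      simp only [dif_pos hn']
      exact hn'.choose_spec
    obtain ⟨w, hw, hle⟩ := hFc.ultrafilter_le_nhds (U.map y) (by
      rw [le_principal_iff]
      show ∀ᶠ n in (U : Filter ℕ), y n ∈ F
      filter_upwards [h1] with n hn
      exact hCF n (hy n hn).1)
    have hlim : Tendsto y U (𝓝 w) := hle
    refine ⟨w, by rw [hL]; exact mem_ulim (by filter_upwards [h1] with n hn using (hy n hn).1) hlim,
      ?_⟩
    have h2 : Tendsto (fun n => dist (y n) p) U (𝓝 (dist w p)) := hlim.dist tendsto_const_nhds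
    have h3 : Tendsto (fun n => dist (y n) p) U (𝓝 ε) := by
      refine tendsto_const_nhds.congr' ?_
      filter_upwards [h1] with n hn
      exact ((hy n hn).2).symm
    exact tendsto_nhds_unique h2 h3
  -- the points inside
  have hbad : ∀ w ∈ L, dist w p < ε → ¬ CIK K w := by
    intro w hwL hwp hcik
    obtain ⟨δ, hδ, hcik⟩ := hcik (ε - dist w p) (by linarith)
    have hwF := hLF hwL
    have hsubF : K ∩ ball w (ε - dist w p) ⊆ F := by
      rintro y ⟨hy1, hy2⟩
      rw [hF]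
      refine ⟨hy1, mem_closedBall.2 ?_⟩
      rw [mem_ball] at hy2
      have := dist_triangle y w p
      linarith
    rw [hL] at hwL
    have hev : ∀ᶠ n in (U : Filter ℕ), C n = connectedComponentIn F w := by
      filter_upwards [hwL δ hδ] with n hn
      obtain ⟨z, hz1, hz2⟩ := hn
      obtain ⟨D, hD1, hD2, hD3, hD4⟩ := hcik z (hFK (hCF n hz1)) hz2
      have h1 : D ⊆ connectedComponentIn F w :=
        hD2.subset_connectedComponentIn hD3 (hD1.trans hsubF)
      have hz1' : z ∈ connectedComponentIn F (q n) := by rw [hC] at hz1; exact hz1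
      rw [hC]
      show connectedComponentIn F (q n) = connectedComponentIn F w
      rw [connectedComponentIn_eq hz1', ← connectedComponentIn_eq (h1 hD4)]
    have hclosed : IsClosed (connectedComponentIn F w) := (compIn_compact hFc hwF).isClosed
    have hpw : p ∈ connectedComponentIn F w := by
      apply hclosed.mem_of_tendsto hqU
      filter_upwards [hev, hqF] with n hn1 hn2
      rw [← hn1]
      exact hqC n hn2
    obtain ⟨n, hn1, hn2⟩ := (hev.and hqF).exists
    rw [← hn1] at hpw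
    exact hpC n hn2 hpw
  -- the component of `p`
  obtain ⟨y₁, hy₁, hy₁p⟩ := bump hLc hLp (p := p) (q := p) (k := y₀) (ε := ε / 2) hpL
    (by rw [dist_self]; linarith) hy₀L (by rw [hy₀]; linarith)
  have hG : IsCompact (L ∩ closedBall p (ε / 2)) := hLc.inter_right isClosed_closedBall
  have hpG : p ∈ L ∩ closedBall p (ε / 2) := ⟨hpL, mem_closedBall_self (by linarith)⟩
  refine ⟨connectedComponentIn (L ∩ closedBall p (ε / 2)) p,
    (connectedComponentIn_subset _ _).trans (inter_subset_left.trans (hLF.trans hFK)),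
    compIn_compact hG hpG, ⟨⟨p, mem_connectedComponentIn hpG⟩, isPreconnected_connectedComponentIn⟩,
    mem_connectedComponentIn hpG, ⟨y₁, hy₁, p, mem_connectedComponentIn hpG, ?_⟩, ?_⟩
  · rintro rfl
    rw [dist_self] at hy₁p
    linarith
  · intro z hz
    have h1 := connectedComponentIn_subset _ _ hz
    refine hbad z h1.1 ?_
    have := mem_closedBall.1 h1.2
    linarith

/-- the one-dimensional Hausdorff measure of a continuum near each of its points -/
theorem measure_pos {C : Set ℂ} (hC : IsCompact C) (hc : IsPreconnected C) (hn : C.Nontrivial)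
    {z : ℂ} (hz : z ∈ C) {r : ℝ} (hr : 0 < r) : 0 < μH[1] (C ∩ ball z r) := by
  obtain ⟨k, hk, hkz⟩ : ∃ k ∈ C, k ≠ z := hn.exists_ne z
  have hd : 0 < dist k z := dist_pos.2 hkz
  obtain ⟨s, hs⟩ : ∃ s, s = min (r / 2) (dist k z / 2) := ⟨_, rfl⟩
  have hs0 : 0 < s := by rw [hs]; positivity
  have hsr : s < r := by
    have := min_le_left (r / 2) (dist k z / 2)
    rw [hs]; linarith
  have hsk : s < dist k z := by
    have := min_le_right (r / 2) (dist k z / 2)
    rw [hs]; linarith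
  obtain ⟨y, hy, hyz⟩ := bump hC hc (p := z) (q := z) hz (by rw [dist_self]; exact hs0) hk hsk
  have hz' : z ∈ C ∩ closedBall z s := ⟨hz, mem_closedBall_self hs0.le⟩
  have h1 : IsPreconnected (connectedComponentIn (C ∩ closedBall z s) z) :=
    isPreconnected_connectedComponentIn
  have h2 : Icc 0 s ⊆ (fun x => dist x z) '' connectedComponentIn (C ∩ closedBall z s) z := by
    have h3 := h1.intermediate_value (mem_connectedComponentIn hz') hy
      (f := fun x => dist x z) (by fun_prop)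
    rw [dist_self, hyz] at h3
    exact h3
  have h3 : connectedComponentIn (C ∩ closedBall z s) z ⊆ C ∩ ball z r :=
    (connectedComponentIn_subset _ _).trans (inter_subset_inter_right _
      (closedBall_subset_ball hsr))
  have h4 : LipschitzWith 1 (fun x : ℂ => dist x z) := LipschitzWith.dist_left z
  have h5 : μH[1] ((fun x : ℂ => dist x z) '' (C ∩ ball z r)) ≤ μH[1] (C ∩ ball z r) := by
    have := h4.hausdorffMeasure_image_le (d := 1) zero_le_one (C ∩ ball z r)
    simpa using this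
  refine lt_of_lt_of_le ?_ h5
  have h6 : volume (Icc (0:ℝ) s) ≤ μH[1] ((fun x : ℂ => dist x z) '' (C ∩ ball z r)) := by
    rw [hausdorffMeasure_real]
    exact measure_mono (h2.trans (image_mono h3))
  refine lt_of_lt_of_le ?_ h6
  rw [Real.volume_Icc, sub_zero]
  exact ENNReal.ofReal_pos.2 hs0

end Pool.Agent.K6.H26.ML
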