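import Pool.Agent.K6.H26.ML.Cont

set_option autoImplicit false

/-! # Local connectivity is decided outside sets of length zero -/

namespace Pool.Agent.K6.H26.ML

open Set Metric Filter Topology MeasureTheory
open Pool.Agent.R240.Loc

theorem cik_interior {K : Set ℂ} {c : ℂ} (h : c ∈ interior K) : CIK K c := by
  intro ε hε
  obtain ⟨δ, hδ, hsub⟩ := Metric.isOpen_iff.1 isOpen_interior c h
  refine ⟨min δ ε, lt_min hδ hε, ?_⟩
  intro q _ hq
  refine ⟨ball c (min δ ε), ?_, (convex_ball _ _).isPreconnected, mem_ball_self (lt_min hδ hε), hq⟩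
  intro x hx
  exact ⟨interior_subset (hsub (ball_subset_ball (min_le_left _ _) hx)),
    ball_subset_ball (min_le_right _ _) hx⟩

theorem decided {K : Set ℂ} (hK : IsCompact K) (hc : IsPreconnected K) {E : Set ℂ}
    (hE : μH[1] E = 0) :
    (LocallyConnectedSpace K ↔ ∀ c ∈ frontier K, c ∉ E → CIK K c) ∧
    ∀ p, ¬ CIK K p → ∃ C ⊆ frontier K, IsCompact C ∧ IsConnected C ∧ p ∈ C ∧ C.Nontrivial ∧
      (∀ z ∈ C, ¬ CIK K z) ∧ (∀ z ∈ C, ∀ ε : ℝ, 0 < ε → 0 < μH[1] (C ∩ ball z ε)) ∧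
      μH[1] (C ∩ E) = 0 := by
  have h2 : ∀ p, ¬ CIK K p → ∃ C ⊆ frontier K, IsCompact C ∧ IsConnected C ∧ p ∈ C ∧
      C.Nontrivial ∧ (∀ z ∈ C, ¬ CIK K z) ∧
      (∀ z ∈ C, ∀ ε : ℝ, 0 < ε → 0 < μH[1] (C ∩ ball z ε)) ∧ μH[1] (C ∩ E) = 0 := by
    intro p hp
    obtain ⟨C, hCK, hCc, hCn, hpC, hCt, hbad⟩ := exists_continuum hK hc hp
    refine ⟨C, ?_, hCc, hCn, hpC, hCt, hbad, ?_, ?_⟩
    · intro z hz
      exact ⟨subset_closure (hCK hz), fun hi => hbad z hz (cik_interior hi)⟩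
    · intro z hz ε hε
      exact measure_pos hCc hCn.isPreconnected hCt hz hε
    · exact measure_mono_null inter_subset_right hE
  refine ⟨⟨fun h c hc' _ => lcs_iff.1 h c (hK.isClosed.frontier_subset hc'), fun h => ?_⟩, h2⟩
  refine lcs_iff.2 fun p _ => ?_
  by_contra hp
  obtain ⟨C, hCf, hCc, hCn, hpC, hCt, hbad, hpos, hnull⟩ := h2 p hp
  have h3 : ∃ c ∈ C, c ∉ E := by
    by_contra hcon
    push Not at hcon
    have h4 : C ∩ ball p 1 ⊆ C ∩ E := fun x hx => ⟨hx.1, hcon x hx.1⟩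
    exact absurd (measure_mono_null h4 hnull) (hpos p hpC 1 one_pos).ne'
  obtain ⟨c, hcC, hcE⟩ := h3
  exact hbad c hcC (h c (hCf hcC) hcE)

end Pool.Agent.K6.H26.ML
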