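import Pool.Agent.K6.H26.ML.Fix
import Pool.Agent.R240.Res2

set_option autoImplicit false

/-! # The dimension of the renormalizable parameters close to parameters with relations -/

namespace Pool.Agent.K6.H26.ML

open Filter Topology Set Metric MeasureTheory Pool.Agent.H712R2 Pool.Agent.Y736.RN
open Pool.Agent.H712R2 (P P_succ P_one P_zero fc continuous_P mem_multibrot_iff)
open N62a1eb23

/-- a parameter with a relation of the critical orbit, or with a parabolic cycle -/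
def EX : Set ℂ := {c | (∃ k n, k < n ∧ P 2 n c = P 2 k c) ∨
  ∃ m, 1 ≤ m ∧ ∃ z, (fc 2 c)^[m] z = z ∧ deriv ((fc 2 c)^[m]) z = 1}

theorem EX_countable : EX.Countable := by
  have h1 : EX ⊆ (⋃ (k : ℕ) (n : ℕ) (_ : k < n), {c | P 2 n c = P 2 k c}) ∪
      ⋃ (m : ℕ) (_ : 1 ≤ m), {c | ∃ z, (fc 2 c)^[m] z = z ∧ deriv ((fc 2 c)^[m]) z = 1} := by
    rintro c (⟨k, n, h1, h2⟩ | ⟨m, h1, h2⟩)
    · left
      simp only [mem_iUnion]
      exact ⟨k, n, h1, h2⟩
    · right
      simp only [mem_iUnion]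
      exact ⟨m, h1, h2⟩
  refine Set.Countable.mono h1 (Set.Countable.union ?_ ?_)
  · refine countable_iUnion fun k => countable_iUnion fun n => countable_iUnion fun h => ?_
    exact (pcf_fin h).countable
  · refine countable_iUnion fun m => countable_iUnion fun h => ?_
    exact (par_fin h).countable

theorem EE_sub {p j l : ℕ} (hpl : 1 ≤ p * l) : EE p j l ⊆ EX := by
  rintro c (⟨k, h1, h2, h3⟩ | h)
  · exact Or.inl ⟨k, k + p * l, by omega, h3⟩
  · exact Or.inr ⟨p * l, hpl, h⟩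

theorem tree_YM2 {p : ℕ} {V : Set ℂ} {c : ℂ} (hdeg : Deg 2 p V c) {C : ℕ}
    (hC : ∀ l, 1 ≤ l → (FV p V c l).Finite ∧ (FV p V c l).ncard ≤ C * 2 ^ l) {j l : ℕ}
    (hl : 1 ≤ l) : (YM p V j l c).Finite ∧ (YM p V j l c).ncard ≤ C * 2 ^ (j + l) := by
  classical
  obtain ⟨hf, hcard⟩ := hC l hl
  have hsub : YM p V j l c ⊆ ↑(hf.toFinset.biUnion fun w =>
      if h : w ∈ V then (tree hdeg h j).1.toFinset else ∅) := by
    rintro y ⟨h1, h2⟩
    simp only [Finset.coe_biUnion, Set.Finite.coe_toFinset, mem_iUnion, Finset.mem_coe]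
    have hwV : (fc 2 c)^[p * j] y ∈ V := h1 j (by omega)
    refine ⟨(fc 2 c)^[p * j] y, ⟨?_, ?_⟩, ?_⟩
    · intro i hi
      rw [← Function.iterate_add_apply, ← Nat.mul_add]
      exact h1 (i + j) (by omega)
    · have h3 := sub_eq_zero.1 h2
      rw [split_it, Function.comp_apply] at h3
      exact h3
    · rw [dif_pos hwV, Set.Finite.mem_toFinset]
      exact ⟨fun i hi => h1 i (by omega), rfl⟩
  refine ⟨(Finset.finite_toSet _).subset hsub, ?_⟩
  refine (Set.ncard_le_ncard hsub (Finset.finite_toSet _)).trans ?_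
  rw [Set.ncard_coe_finset]
  have h1 : (hf.toFinset.biUnion fun w =>
      if h : w ∈ V then (tree hdeg h j).1.toFinset else ∅).card ≤ hf.toFinset.card * 2 ^ j := by
    apply Finset.card_biUnion_le_card_mul
    intro w _
    by_cases h : w ∈ V
    · rw [dif_pos h, ← Set.ncard_eq_toFinset_card _ (tree hdeg h j).1]
      exact (tree hdeg h j).2
    · rw [dif_neg h]
      simp
  rw [← Set.ncard_eq_toFinset_card _ hf] at h1
  refine (h1.trans (Nat.mul_le_mul_right _ hcard)).trans (le_of_eq ?_)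
  rw [pow_add]
  ring

/-- **The counting lemma.** -/
theorem count2 {p : ℕ} (hp : 1 ≤ p) {V : Set ℂ}
    (hVo : IsOpen V) (hVb : Bornology.IsBounded V) {c₁ : ℂ} (hc₁ : c₁ ∈ frontier (multibrotSet 2))
    {δ : ℝ} (hδ : 0 < δ)
    (hfr : ∀ c ∈ ball c₁ δ, ∀ z ∈ frontier V, (fc 2 c)^[p] z ∉ closure V)
    (hdeg₁ : Deg 2 p V c₁) :
    ∃ (C : ℝ) (J : ℕ), 0 ≤ C ∧ ∀ j l, 1 ≤ l → J ≤ j + l →
      (ZM p V (ball c₁ (δ / 16)) j l).Finite ∧
      ((ZM p V (ball c₁ (δ / 16)) j l).ncard : ℝ) ≤ C * 2 ^ (j + l) := by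
  -- the escaping parameter
  obtain ⟨c', hc', hc'M, hc'X⟩ : ∃ c', ‖c' - c₁‖ < δ / 16 ∧ c' ∉ multibrotSet 2 ∧ c' ∉ EX := by
    have hMc : IsClosed (multibrotSet 2) := (isCompact_multibrot le_rfl).isClosed
    have h1 : c₁ ∈ closure (multibrotSet 2)ᶜ := by
      rw [frontier_eq_closure_inter_closure] at hc₁
      exact hc₁.2
    obtain ⟨c'', hc''M, hc''⟩ := Metric.mem_closure_iff.1 h1 (δ / 16) (by positivity)
    have h2 : IsOpen ((multibrotSet 2)ᶜ ∩ ball c₁ (δ / 16)) := hMc.isOpen_compl.inter isOpen_ball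
    have h3 : 0 < volume ((multibrotSet 2)ᶜ ∩ ball c₁ (δ / 16)) :=
      h2.measure_pos volume ⟨c'', hc''M, by rw [mem_ball, dist_comm]; exact hc''⟩
    by_contra hcon
    push Not at hcon
    have h4 : (multibrotSet 2)ᶜ ∩ ball c₁ (δ / 16) ⊆ EX := by
      rintro c ⟨h5, h6⟩
      rw [mem_ball, dist_eq_norm] at h6
      exact hcon c h6 h5
    exact h3.ne' (measure_mono_null h4 (EX_countable.measure_zero _))
  obtain ⟨i₀, hi₀⟩ := Pool.Agent.R240.Res.esc_of_not_mem hc'M hp hVb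
  have hsegB : segment ℝ c₁ c' ⊆ ball c₁ δ :=
    (convex_ball c₁ δ).segment_subset (mem_ball_self hδ) (by
      rw [mem_ball, dist_eq_norm]; linarith)
  have hc'B : c' ∈ ball c₁ δ := hsegB (right_mem_segment ℝ c₁ c')
  have hdeg : Deg 2 p V c' := deg_transfer hp hVo hVb isOpen_ball hfr hdeg₁ hsegB
  obtain ⟨C₀, hC₀⟩ := fix_bound hp hVo hVb hc'M (hfr c' hc'B) hdeg
  obtain ⟨η₀, hη₀, hη₀'⟩ : ∃ η₀ > 0, ∀ y : ℂ, ‖y‖ < η₀ → (fc 2 c')^[p * i₀] y ∉ closure V := by
    have h1 : IsOpen {y | (fc 2 c')^[p * i₀] y ∉ closure V} :=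
      isClosed_closure.isOpen_compl.preimage (cont_it_y 2 _ _)
    obtain ⟨η, hη, h2⟩ := Metric.isOpen_iff.1 h1 0 hi₀
    exact ⟨η, hη, fun y hy => h2 (mem_ball_zero_iff.2 hy)⟩
  obtain ⟨R₀, hR₀⟩ := hVb.exists_norm_le
  obtain ⟨R, hRdef⟩ : ∃ R, R = max R₀ (max 1 (2 * η₀)) := ⟨_, rfl⟩
  have hR1 : 1 ≤ R := by rw [hRdef]; exact (le_max_left _ _).trans (le_max_right _ _)
  have hR : 0 < R := by linarith
  have hRη : 2 * η₀ ≤ R := by rw [hRdef]; exact (le_max_right _ _).trans (le_max_right _ _)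
  have hVR : ∀ y ∈ V, ‖y‖ ≤ R := fun y hy => (hR₀ y hy).trans (by rw [hRdef]; exact le_max_left _ _)
  have hq0 : 0 < η₀ / R := by positivity
  have hlog : 0 < Real.log (R / η₀) := Real.log_pos (by rw [one_lt_div hη₀]; linarith)
  have hlog2 : 0 < Real.log 2 := Real.log_pos (by norm_num)
  refine ⟨C₀ * Real.log (R / η₀) / Real.log 2, i₀ + 1, by positivity, fun j l hl hj => ?_⟩
  have hpl : 1 ≤ p * l := Nat.mul_pos hp hl
  have hYR : ∀ c, ∀ y ∈ YM p V j l c, ‖y‖ ≤ R := by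
    intro c y hy
    apply hVR
    have := hy.1 0 (by omega)
    simpa using this
  have hfinZ : (ZM p V (ball c₁ (δ / 16)) j l).Finite := by
    refine (pcf_fin (k := p * j) (n := p * (j + l)) (by rw [Nat.mul_add]; omega)).subset ?_
    rintro c ⟨_, _, h⟩
    exact h
  refine ⟨hfinZ, ?_⟩
  obtain ⟨N, hN⟩ : ∃ N : ℕ, N = C₀ * 2 ^ (j + l) := ⟨_, rfl⟩
  obtain ⟨hc'fin, hcard⟩ := tree_YM2 hdeg hC₀ (j := j) hl
  rw [← hN] at hcard
  have hEfin := EE_finite (j := j) hpl
  have hc'E : c' ∉ EE p j l := fun h => hc'X (EE_sub hpl h)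
  have hsub : ball c' (δ / 2) ⊆ ball c₁ δ := by
    apply ball_subset_ball'
    rw [dist_eq_norm]
    linarith
  have hlow : (η₀ / R) ^ N ≤ ‖GP (YM p V j l c') R‖ := by
    apply GP_ge hη₀ (by linarith) hc'fin hcard
    intro y hy
    by_contra hlt
    push Not at hlt
    exact hη₀' y hlt (subset_closure (hy.1 i₀ (by omega)))
  have key := jz (fun c => GP (YM p V j l c) R) c' (δ / 2) 1 ((η₀ / R) ^ N)
    (EE p j l) hfinZ.toFinset (by positivity) hEfin
    (by
      rintro c ⟨hc1, hc2⟩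
      exact ((local_HH hVo hVb isOpen_ball hfr hl R (hsub hc1) hc2).2).differentiableWithinAt)
    (fun c _ => GP_le hR (hYR c)) hc'E hlow (by
      intro c hc
      rw [Set.Finite.coe_toFinset] at hc
      have h1 := hc.1
      rw [mem_ball, dist_eq_norm] at h1 ⊢
      have h2 : ‖c - c'‖ ≤ ‖c - c₁‖ + ‖c' - c₁‖ := by
        rw [← dist_eq_norm, ← dist_eq_norm, ← dist_eq_norm]
        exact dist_triangle_right _ _ _
      linarith)
    (by
      intro ĉ hĉ
      rw [Set.Finite.mem_toFinset] at hĉ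
      obtain ⟨h1, h2, h3⟩ := hĉ
      rw [Metric.tendsto_nhds]
      intro ε hε
      have h4 := persist_HH hVo hpl h2 h3 (ε := ε * R) (by positivity)
      have h5 : ∀ᶠ c in 𝓝[≠] ĉ, c ∉ EE p j l := by
        have h6 : IsClosed (EE p j l \ {ĉ}) := (hEfin.subset sdiff_subset).isClosed
        have h7 : (EE p j l \ {ĉ})ᶜ ∈ 𝓝 ĉ := h6.isOpen_compl.mem_nhds (by simp)
        filter_upwards [mem_nhdsWithin_of_mem_nhds h7, self_mem_nhdsWithin] with c hc1 hc2 hc3
        exact hc1 ⟨hc3, hc2⟩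
      have h6 : ∀ᶠ c in 𝓝[≠] ĉ, c ∈ ball c₁ δ := by
        apply mem_nhdsWithin_of_mem_nhds
        exact isOpen_ball.mem_nhds (ball_subset_ball (by linarith) h1)
      filter_upwards [nhdsWithin_le_nhds h4, h5, h6] with c hc1 hc2 hc3
      obtain ⟨y, hy1, hy2⟩ := hc1
      rw [dist_zero_right]
      have hf := ((local_HH hVo hVb isOpen_ball hfr hl R hc3 hc2).1.self_of_nhds).1
      exact GP_small hR (hYR c) hf hy2 hy1)
  rw [← Set.ncard_eq_toFinset_card _ hfinZ] at key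
  have h1 : (2 : ℝ) ^ ((ZM p V (ball c₁ (δ / 16)) j l).ncard) ≤ (R / η₀) ^ N := by
    have h2 : (R / η₀) ^ N = 1 / (η₀ / R) ^ N := by
      rw [← inv_div, inv_pow, one_div]
    rw [h2, le_div_iff₀ (by positivity)]
    linarith
  have h2 := Real.log_le_log (by positivity) h1
  rw [Real.log_pow, Real.log_pow] at h2
  rw [div_mul_eq_mul_div, le_div_iff₀ hlog2]
  have h3 : (N : ℝ) = C₀ * 2 ^ (j + l) := by
    rw [hN]
    push_cast
    ring
  rw [h3] at h2
  linarith

/-- infinitely often exponentially close to a parameter with a relation of the critical orbit, in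
which the difference of the times is a multiple of `p` -/
def NearP (p : ℕ) (X : ℝ) (c : ℂ) : Prop :=
  ∃ᶠ n : ℕ in atTop, ∃ k : ℕ, 1 ≤ k ∧ k < n ∧ p ∣ n - k ∧
    ∃ a : ℂ, P 2 n a = P 2 k a ∧ ‖a - c‖ ≤ Real.exp (-(X * n))

theorem rel_shift {a : ℂ} {k n : ℕ} (h : P 2 n a = P 2 k a) (s : ℕ) :
    P 2 (s + n) a = P 2 (s + k) a := by
  rw [← iter_P, ← iter_P, h]

/-- the bound for one domain, with weaker constants -/
theorem dim_aux {p : ℕ} (hp : 1 ≤ p) {V : Set ℂ} (hVo : IsOpen V)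
    (hVb : Bornology.IsBounded V) {X X' D : ℝ} (hX' : 0 < X') (hXX' : X' < X) (hD : 2 < D) :
    dimH {c | c ∈ frontier (multibrotSet 2) ∧ Good 2 p V c ∧ NearP p X c} ≤
      ENNReal.ofReal (Real.log D / (p * X')) := by
  classical
  have hp0 : (0:ℝ) < p := by exact_mod_cast hp
  have hX : 0 < X := by linarith
  have hpX : 0 < (p:ℝ) * X' := by positivity
  have hD0 : 0 < D := by linarith
  have hlogD : Real.log 2 ≤ Real.log D := Real.log_le_log (by norm_num) hD.le
  obtain ⟨A, hA⟩ : ∃ A : Set ℂ, A = {c | c ∈ frontier (multibrotSet 2) ∧ Good 2 p V c ∧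
      NearP p X c} := ⟨_, rfl⟩
  rw [← hA]
  apply le_of_forall_lt
  intro r hr
  obtain ⟨c₁, hc₁, h⟩ := exists_mem_nhdsWithin_lt_dimH_of_lt_dimH hr
  have hc₁' := hc₁
  rw [hA] at hc₁'
  obtain ⟨hfr₁, hg, _⟩ := hc₁'
  obtain ⟨δ, hδ, hfr⟩ := stab hVb hg.1
  obtain ⟨C, J, hC0, hcount⟩ := count2 hp hVo hVb hfr₁ hδ hfr hg.2.1
  have h1 : ball c₁ (δ / 32) ∩ A ∈ 𝓝[A] c₁ :=
    inter_mem (mem_nhdsWithin_of_mem_nhds (ball_mem_nhds c₁ (by positivity))) self_mem_nhdsWithin
  refine (h _ h1).trans_le ?_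
  obtain ⟨Z, hZ⟩ : ∃ Z : ℕ → Set ℂ, Z = fun m => ⋃ j ∈ Finset.range m,
      ZM p V (ball c₁ (δ / 16)) j (m - j) := ⟨_, rfl⟩
  have hsub : ball c₁ (δ / 32) ∩ A ⊆ {c | Good 2 p V c ∧ Fast 2 p V (p * X') c} ∪
      {c₀ | ∃ᶠ m : ℕ in atTop, ∃ z ∈ Z m, ‖c₀ - z‖ ≤ 1 * Real.exp (-(p * X' * m))} := by
    rintro c₀ ⟨hc₀, hc₀A⟩
    rw [hA] at hc₀A
    obtain ⟨_, hg₀, hnear⟩ := hc₀A
    by_cases hF : Fast 2 p V (p * X') c₀
    · exact Or.inl ⟨hg₀, hF⟩
    right
    unfold Fast at hF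
    rw [not_frequently, eventually_atTop] at hF
    obtain ⟨N₀, hN₀⟩ := hF
    have hlim : Tendsto (fun n : ℕ => Real.exp (-(X * n))) atTop (𝓝 0) := by
      apply Real.tendsto_exp_neg_atTop_nhds_zero.comp
      exact Tendsto.const_mul_atTop hX tendsto_natCast_atTop_atTop
    have hsmall := hlim.eventually (gt_mem_nhds (show 0 < δ / 32 by positivity))
    obtain ⟨n₁, hn₁⟩ := exists_nat_gt (X' * p / (X - X'))
    rw [mem_ofPred_eq, frequently_atTop]
    intro b
    obtain ⟨n, ⟨k, hk1, hkn, ⟨l, hl⟩, a, ha1, ha2⟩, hn1, hn2, hn3⟩ := (hnear.and_eventually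
      (hsmall.and ((eventually_ge_atTop (p * (b + N₀))).and (eventually_ge_atTop n₁)))).exists
    obtain ⟨j, hj⟩ : ∃ j, j = k / p + 1 := ⟨_, rfl⟩
    have hdm := Nat.div_add_mod k p
    have hmod : k % p < p := Nat.mod_lt k hp
    have hpj1 : k < p * j := by
      rw [hj, Nat.mul_add, Nat.mul_one]
      omega
    have hpj2 : p * j ≤ k + p := by
      rw [hj, Nat.mul_add, Nat.mul_one]
      have := Nat.mul_div_le k p
      omega
    have hl1 : 1 ≤ l := by
      rcases Nat.eq_zero_or_pos l with rfl | h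
      · rw [Nat.mul_zero] at hl
        omega
      · exact h
    have hpm : p * (j + l) = p * j + (n - k) := by rw [Nat.mul_add, ← hl]
    have hm1 : n < p * (j + l) := by omega
    have hm2 : p * (j + l) ≤ n + p := by omega
    have hm3 : b + N₀ ≤ j + l := by
      have h2 : p * (b + N₀) < p * (j + l) := by omega
      exact (Nat.lt_of_mul_lt_mul_left h2).le
    have hexp : Real.exp (-(X * n)) ≤ Real.exp (-(p * X' * (j + l : ℕ))) := by
      apply Real.exp_le_exp.2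
      have h2 : (p : ℝ) * ((j + l : ℕ) : ℝ) ≤ n + p := by exact_mod_cast hm2
      have h3 : X' * p ≤ (X - X') * n := by
        have h4 : X' * p / (X - X') ≤ n := by
          have : (n₁ : ℝ) ≤ n := by exact_mod_cast hn3
          linarith
        rw [div_le_iff₀ (by linarith)] at h4
        linarith
      nlinarith
    have htrap : ∀ i ≤ j + l, P 2 (p * i) a ∈ V := by
      intro i hi
      by_contra hcon
      apply hN₀ (j + l) (by omega)
      refine ⟨a, ?_, i, hi, hcon⟩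
      rw [mem_closedBall, dist_eq_norm]
      exact ha2.trans hexp
    have hrel : P 2 (p * (j + l)) a = P 2 (p * j) a := by
      have h2 := rel_shift ha1 (p * j - k)
      rw [show p * j - k + k = p * j by omega,
        show p * j - k + n = p * (j + l) by omega] at h2
      exact h2
    refine ⟨j + l, by omega, a, ?_, ?_⟩
    · rw [hZ]
      simp only [mem_iUnion, Finset.mem_range]
      refine ⟨j, by omega, ?_⟩
      rw [Nat.add_sub_cancel_left]
      refine ⟨?_, fun i hi => htrap i hi.le, hrel⟩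
      rw [mem_ball, dist_eq_norm] at hc₀ ⊢
      have h2 : a - c₁ = (a - c₀) + (c₀ - c₁) := by ring
      rw [h2]
      have := norm_add_le (a - c₀) (c₀ - c₁)
      have := ha2.trans_lt hn1
      linarith
    · rw [one_mul, norm_sub_rev]
      exact ha2.trans hexp
  refine (dimH_mono hsub).trans ?_
  rw [dimH_union]
  refine max_le ?_ ?_
  · refine (dim_good lp jz qs dc seq (d := 2) le_rfl hp hVo hVb hpX).trans ?_
    apply ENNReal.ofReal_le_ofReal
    push_cast
    gcongr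
  · obtain ⟨C', hC'⟩ : ∃ C', C' = C / (D / 2 - 1) := ⟨_, rfl⟩
    have hD2 : 0 < D / 2 - 1 := by linarith
    refine dc D (p * X') 1 C' J Z _ (by linarith) hpX ?_ fun a ha => ha
    intro m hm
    rw [hZ]
    have hfin : ∀ j ∈ Finset.range m, (ZM p V (ball c₁ (δ / 16)) j (m - j)).Finite ∧
        ((ZM p V (ball c₁ (δ / 16)) j (m - j)).ncard : ℝ) ≤ C * 2 ^ m := by
      intro j hj
      rw [Finset.mem_range] at hj
      have := hcount j (m - j) (by omega) (by omega)
      rwa [Nat.add_sub_cancel' hj.le] at this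
    refine ⟨Set.Finite.biUnion (Finset.finite_toSet _) fun j hj => (hfin j hj).1, ?_⟩
    have h2 : (⋃ j ∈ Finset.range m, ZM p V (ball c₁ (δ / 16)) j (m - j)).ncard ≤
        ∑ j ∈ Finset.range m, (ZM p V (ball c₁ (δ / 16)) j (m - j)).ncard :=
      Finset.set_ncard_biUnion_le _ _
    have h3 : ((⋃ j ∈ Finset.range m, ZM p V (ball c₁ (δ / 16)) j (m - j)).ncard : ℝ) ≤
        m * (C * 2 ^ m) := by
      refine (show ((⋃ j ∈ Finset.range m, ZM p V (ball c₁ (δ / 16)) j (m - j)).ncard : ℝ) ≤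
        ∑ j ∈ Finset.range m, ((ZM p V (ball c₁ (δ / 16)) j (m - j)).ncard : ℝ) by
          exact_mod_cast h2).trans ?_
      refine (Finset.sum_le_sum fun j hj => (hfin j hj).2).trans ?_
      rw [Finset.sum_const, Finset.card_range, nsmul_eq_mul]
    refine h3.trans ?_
    have h4 : (m : ℝ) * (D / 2 - 1) ≤ (D / 2) ^ m := by
      have := one_add_mul_le_pow (a := D / 2 - 1) (by linarith) m
      rw [add_sub_cancel] at this
      linarith
    have h5 : D ^ m = (D / 2) ^ m * 2 ^ m := by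
      rw [← mul_pow]
      congr 1
      ring
    rw [hC', h5, div_mul_eq_mul_div, le_div_iff₀ hD2]
    calc (m : ℝ) * (C * 2 ^ m) * (D / 2 - 1) = (m * (D / 2 - 1)) * (C * 2 ^ m) := by ring
      _ ≤ (D / 2) ^ m * (C * 2 ^ m) := by gcongr
      _ = _ := by ring

/-- the bound for one domain -/
theorem dim_VP {p : ℕ} (hp : 1 ≤ p) {V : Set ℂ} (hVo : IsOpen V)
    (hVb : Bornology.IsBounded V) {X : ℝ} (hX : 0 < X) :
    dimH {c | c ∈ frontier (multibrotSet 2) ∧ Good 2 p V c ∧ NearP p X c} ≤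
      ENNReal.ofReal (Real.log 2 / (p * X)) := by
  have hp0 : (0:ℝ) < p := by exact_mod_cast hp
  have h1 : Tendsto (fun t : ℝ => ENNReal.ofReal (Real.log (2 + t) / (p * (X / (1 + t)))))
      (𝓝[>] 0) (𝓝 (ENNReal.ofReal (Real.log 2 / (p * X)))) := by
    apply ENNReal.tendsto_ofReal
    have h2 : ContinuousAt (fun t : ℝ => Real.log (2 + t) / (p * (X / (1 + t)))) 0 := by
      apply ContinuousAt.div
      · exact (continuousAt_const.add continuousAt_id).log (by simp)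
      · apply ContinuousAt.mul continuousAt_const
        exact continuousAt_const.div (continuousAt_const.add continuousAt_id) (by simp)
      · simp only [add_zero, div_one]
        positivity
    have h3 := h2.tendsto
    simp only [add_zero, div_one] at h3
    exact h3.mono_left nhdsWithin_le_nhds
  apply ge_of_tendsto h1
  filter_upwards [self_mem_nhdsWithin] with t ht
  have ht0 : 0 < t := ht
  apply dim_aux hp hVo hVb (by positivity) _ (by linarith)
  rw [div_lt_iff₀ (by linarith)]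
  nlinarith

/-- **Renormalizable parameters close to parameters with a relation.** -/
theorem dim_nearP {p : ℕ} (hp : 1 ≤ p) {X : ℝ} (hX : 0 < X) :
    dimH {c | c ∈ frontier (multibrotSet 2) ∧ Ren 2 c p ∧ NearP p X c} ≤
      ENNReal.ofReal (Real.log 2 / (p * X)) := by
  have hsub : {c | c ∈ frontier (multibrotSet 2) ∧ Ren 2 c p ∧ NearP p X c} ⊆
      ⋃ V ∈ {V : Set ℂ | V ∈ FamV ∧ Bornology.IsBounded V},
        {c | c ∈ frontier (multibrotSet 2) ∧ Good 2 p V c ∧ NearP p X c} := by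
    rintro c ⟨h1, h2, h3⟩
    obtain ⟨V, hV, _, hVb, hg⟩ := good_of_ren h2
    rw [mem_iUnion₂]
    exact ⟨V, ⟨hV, hVb⟩, h1, hg, h3⟩
  refine (dimH_mono hsub).trans ?_
  rw [dimH_bUnion (FamV_countable.mono fun V hV => hV.1)]
  exact iSup₂_le fun V hV => dim_VP hp (FamV_open hV.1) hV.2 hX

theorem NearP.mono {p : ℕ} {X X' : ℝ} (h : X' ≤ X) {c : ℂ} (hc : NearP p X c) :
    NearP p X' c := by
  refine Filter.Frequently.mono hc ?_
  rintro n ⟨k, h1, h2, h3, a, h4, h5⟩
  refine ⟨k, h1, h2, h3, a, h4, h5.trans ?_⟩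
  apply Real.exp_le_exp.2
  have : (0:ℝ) ≤ n := Nat.cast_nonneg n
  nlinarith

end Pool.Agent.K6.H26.ML
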