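import Pool.Agent.K6.H26.ML.C2
import Pool.Agent.Y331.GJ.Zero

set_option autoImplicit false

/-! # Renormalizable parameters: the number of the trapped periodic points -/

namespace Pool.Agent.K6.H26.ML

open Filter Topology Set Metric MeasureTheory Pool.Agent.H712R2 Pool.Agent.Y736.RN
open Pool.Agent.H712R2 (P P_succ P_one P_zero fc continuous_P mem_multibrot_iff)

/-- the non-escaping points of an escaping parameter are a null set -/
theorem null_K {c : ℂ} (hc : c ∉ N62a1eb23.multibrotSet 2) :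
    volume {z : ℂ | ¬ Tendsto (fun k : ℕ => ‖(fc 2 c)^[k] z‖) atTop atTop} = 0 := by
  have hder : ∀ z, deriv (fc 2 c) z = 2 * z := by
    intro z
    have h1 : HasDerivAt (fc 2 c) (((2 : ℕ) : ℂ) * z ^ (2 - 1)) z := (hasDerivAt_pow 2 z).add_const c
    rw [h1.deriv]
    norm_num
  apply Pool.Agent.Y331.GJ.zero_area (R := 3 + ‖c‖)
  · unfold fc
    fun_prop
  · positivity
  · intro w hw
    have h1 : w ^ 2 = fc 2 c w - c := by unfold fc; ring
    have h2 := norm_sub_le (fc 2 c w) c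
    rw [← h1, norm_pow] at h2
    nlinarith [norm_nonneg c]
  · refine (finite_singleton (0:ℂ)).subset ?_
    intro z hz
    rw [mem_ofPred_eq, hder] at hz
    simpa using hz
  · intro z hz
    rw [hder] at hz
    have hz0 : z = 0 := by simpa using hz
    rw [hz0]
    have h1 : Tendsto (fun k => P 2 k c) atTop (Bornology.cobounded ℂ) := by
      by_contra h
      exact hc h
    exact tendsto_norm_cobounded_atTop.comp h1

/-- escaping points in every disc, off a countable set -/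
theorem exists_esc {c : ℂ} (hc : c ∉ N62a1eb23.multibrotSet 2) {p : ℕ} (hp : 1 ≤ p) {V : Set ℂ}
    (hVb : Bornology.IsBounded V) {A : Set ℂ} (hA : A.Countable) (w : ℂ) {r : ℝ} (hr : 0 < r) :
    ∃ z ∈ ball w r, z ∉ A ∧ ∃ i, (fc 2 c)^[p * i] z ∉ closure V := by
  have h1 : volume ({z : ℂ | ¬ Tendsto (fun k : ℕ => ‖(fc 2 c)^[k] z‖) atTop atTop} ∪ A) = 0 :=
    measure_union_null (null_K hc) (hA.measure_zero _)
  have h2 : 0 < volume (ball w r) := measure_ball_pos _ _ hr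
  obtain ⟨z, hz, hz2⟩ : ∃ z ∈ ball w r,
      z ∉ {z : ℂ | ¬ Tendsto (fun k : ℕ => ‖(fc 2 c)^[k] z‖) atTop atTop} ∪ A := by
    by_contra hcon
    push Not at hcon
    have h3 := measure_mono_null (μ := volume) hcon h1
    exact h2.ne' h3
  rw [mem_union, not_or] at hz2
  refine ⟨z, hz, hz2.2, ?_⟩
  have h3 : Tendsto (fun k : ℕ => ‖(fc 2 c)^[k] z‖) atTop atTop := by
    by_contra h
    exact hz2.1 h
  have h4 : Tendsto (fun i : ℕ => p * i) atTop atTop :=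
    tendsto_atTop_mono (fun i => Nat.le_mul_of_pos_left i hp) tendsto_id
  obtain ⟨R, hR⟩ := hVb.closure.exists_norm_le
  obtain ⟨i, hi⟩ := ((h3.comp h4).eventually (eventually_gt_atTop R)).exists
  exact ⟨i, fun h => absurd (hR _ h) (not_le.2 hi)⟩

/-- the differences with the trapped preimages of order `l` -/
def SS (p : ℕ) (V : Set ℂ) (c : ℂ) (l : ℕ) (z : ℂ) : Set ℂ :=
  {u : ℂ | (z, u) ∈ {q : ℂ × ℂ | ∀ i < l, (fc 2 c)^[p * i] (q.1 - q.2) ∈ V} ∧
    (fc 2 c)^[p * l] (z - u) - z = 0}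

theorem SS_image (p : ℕ) (V : Set ℂ) (c : ℂ) (l : ℕ) (z : ℂ) :
    SS p V c l z = (fun y => z - y) '' YY 2 p V z l c := by
  ext u
  constructor
  · rintro ⟨h1, h2⟩
    exact ⟨z - u, ⟨h1, sub_eq_zero.1 h2⟩, by simp⟩
  · rintro ⟨y, ⟨h1, h2⟩, rfl⟩
    refine ⟨fun i hi => ?_, ?_⟩
    · show (fc 2 c)^[p * i] (z - (z - y)) ∈ V
      rw [sub_sub_cancel]
      exact h1 i hi
    · rw [sub_sub_cancel, h2, sub_self]

theorem SS_card {p : ℕ} {V : Set ℂ} {c : ℂ} (hdeg : Deg 2 p V c) {z : ℂ} (hz : z ∈ V) (l : ℕ) :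
    (SS p V c l z).Finite ∧ (SS p V c l z).ncard ≤ 2 ^ l := by
  obtain ⟨h1, h2⟩ := tree hdeg hz l
  rw [SS_image]
  exact ⟨h1.image _, (Set.ncard_image_le h1).trans h2⟩

theorem cont_sub (c : ℂ) (m : ℕ) : Continuous (fun q : ℂ × ℂ => (fc 2 c)^[m] (q.1 - q.2)) :=
  (cont_it_y 2 m c).comp (continuous_fst.sub continuous_snd)

theorem open_SS (p : ℕ) {V : Set ℂ} (hV : IsOpen V) (c : ℂ) (l : ℕ) :
    IsOpen {q : ℂ × ℂ | ∀ i < l, (fc 2 c)^[p * i] (q.1 - q.2) ∈ V} := by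
  have h : {q : ℂ × ℂ | ∀ i < l, (fc 2 c)^[p * i] (q.1 - q.2) ∈ V} =
      ⋂ i ∈ Finset.range l, (fun q : ℂ × ℂ => (fc 2 c)^[p * i] (q.1 - q.2)) ⁻¹' V := by
    ext q
    simp
  rw [h]
  exact isOpen_biInter_finset fun i _ => hV.preimage (cont_sub c (p * i))

theorem compact_SS {p : ℕ} {V : Set ℂ} (hVo : IsOpen V) {c : ℂ} {R : ℝ}
    (hVR : ∀ y ∈ V, ‖y‖ ≤ R) (hfr : ∀ z ∈ frontier V, (fc 2 c)^[p] z ∉ closure V)
    {l : ℕ} (hl : 1 ≤ l) {z₀ : ℂ} {r : ℝ} (hr : closedBall z₀ r ⊆ V) :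
    IsCompact {q : ℂ × ℂ | q ∈ {q : ℂ × ℂ | ∀ i < l, (fc 2 c)^[p * i] (q.1 - q.2) ∈ V} ∧
      q.1 ∈ closedBall z₀ r ∧ (fc 2 c)^[p * l] (q.1 - q.2) - q.1 = 0} := by
  have heq : {q : ℂ × ℂ | q ∈ {q : ℂ × ℂ | ∀ i < l, (fc 2 c)^[p * i] (q.1 - q.2) ∈ V} ∧
      q.1 ∈ closedBall z₀ r ∧ (fc 2 c)^[p * l] (q.1 - q.2) - q.1 = 0} =
      (closedBall z₀ r ×ˢ closedBall (0:ℂ) (2 * R)) ∩
      ((⋂ i ∈ Finset.range l, (fun q : ℂ × ℂ => (fc 2 c)^[p * i] (q.1 - q.2)) ⁻¹' closure V) ∩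
        {q | (fc 2 c)^[p * l] (q.1 - q.2) - q.1 = 0}) := by
    ext ⟨z, u⟩
    simp only [mem_ofPred_eq, mem_inter_iff, mem_prod, mem_iInter, Finset.mem_range,
      mem_preimage]
    constructor
    · rintro ⟨h1, h2, h3⟩
      refine ⟨⟨h2, ?_⟩, fun i hi => subset_closure (h1 i hi), h3⟩
      have h4 : z - u ∈ V := by
        have := h1 0 (by omega)
        simpa using this
      rw [mem_closedBall_zero_iff]
      have h5 : u = z - (z - u) := by ring
      rw [h5]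
      refine (norm_sub_le _ _).trans ?_
      have := hVR _ h4
      have := hVR _ (hr h2)
      linarith
    · rintro ⟨⟨h1, h2⟩, h3, h4⟩
      refine ⟨?_, h1, h4⟩
      intro i hi
      by_contra hcon
      have hf : (fc 2 c)^[p * i] (z - u) ∈ frontier V := by
        rw [hVo.frontier_eq]
        exact ⟨h3 i hi, hcon⟩
      apply hfr _ hf
      rw [← Function.iterate_add_apply, show p + p * i = p * (i + 1) by ring]
      rcases Nat.lt_or_ge (i + 1) l with h5 | h5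
      · exact h3 (i + 1) h5
      · rw [show i + 1 = l by omega, sub_eq_zero.1 h4]
        exact subset_closure (hr h1)
  rw [heq]
  refine IsCompact.inter_right ((isCompact_closedBall _ _).prod (isCompact_closedBall _ _)) ?_
  refine IsClosed.inter ?_ (isClosed_eq ((cont_sub c (p * l)).sub continuous_fst)
    continuous_const)
  exact isClosed_biInter fun i _ => isClosed_closure.preimage (cont_sub c (p * i))

theorem local_SS {p : ℕ} {V : Set ℂ} (hVo : IsOpen V) {c : ℂ} {R : ℝ}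
    (hVR : ∀ y ∈ V, ‖y‖ ≤ R) (hfr : ∀ z ∈ frontier V, (fc 2 c)^[p] z ∉ closure V)
    {l : ℕ} (hl : 1 ≤ l) {z₀ : ℂ} (hz₀ : z₀ ∈ V)
    (hE : ∀ k, 1 ≤ k → k ≤ p * l → P 2 k c ≠ z₀) (Q : ℝ) :
    DifferentiableAt ℂ (fun z => GP (SS p V c l z) Q) z₀ := by
  obtain ⟨r, hr, hrB⟩ := Metric.isOpen_iff.1 hVo z₀ hz₀
  obtain ⟨h1, h2⟩ := lp (fun z u => (fc 2 c)^[p * l] (z - u) - z)
    {q : ℂ × ℂ | ∀ i < l, (fc 2 c)^[p * i] (q.1 - q.2) ∈ V} z₀ (r / 2)
    (by
      refine ContDiff.sub ?_ contDiff_fst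
      have h3 : ContDiff ℂ ⊤ (fun q : ℂ × ℂ => (fc 2 c)^[p * l] (q.1 - q.2)) := by
        have h4 : ContDiff ℂ ⊤ (fun q : ℂ × ℂ => (c, q.1 - q.2)) :=
          contDiff_const.prodMk (contDiff_fst.sub contDiff_snd)
        exact (contDiff_it 2 (p * l)).comp h4
      exact h3)
    (open_SS p hVo c l) (half_pos hr)
    (compact_SS hVo hVR hfr hl ((closedBall_subset_ball (half_lt_self hr)).trans hrB)) (by
      intro u _ hu
      have h3 : (fc 2 c)^[p * l] (z₀ - u) = z₀ := sub_eq_zero.1 hu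
      have h4 := deriv_it_ne (d := 2) le_rfl h3 hE
      have h5 : HasDerivAt (fun u => (fc 2 c)^[p * l] (z₀ - u) - z₀)
          (deriv ((fc 2 c)^[p * l]) (z₀ - u) * (-1)) u := by
        have h6 : HasDerivAt (fun u : ℂ => z₀ - u) (-1) u := by
          simpa using (hasDerivAt_id' u).const_sub z₀
        exact (((diff_it_y 2 (p * l) c (z₀ - u)).hasDerivAt).comp u h6).sub_const z₀
      rw [h5.deriv]
      exact mul_ne_zero h4 (by norm_num))
  have h3 : DifferentiableAt ℂ (fun z => (∏ᶠ y ∈ SS p V c l z, y) /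
      (Q : ℂ) ^ (SS p V c l z₀).ncard) z₀ := h2.div_const _
  refine h3.congr_of_eventuallyEq ?_
  filter_upwards [h1] with z hz
  unfold GP
  have hz2 : (SS p V c l z).ncard = (SS p V c l z₀).ncard := hz.2
  rw [hz2]

theorem it_nonconst {c : ℂ} (m : ℕ) (z₀ : ℂ) : 𝓝 ((fc 2 c)^[m] z₀) ≤ map ((fc 2 c)^[m]) (𝓝 z₀) := by
  have han : AnalyticAt ℂ ((fc 2 c)^[m]) z₀ := (diff_it_y 2 m c).analyticAt z₀
  rcases han.eventually_constant_or_nhds_le_map_nhds with h | h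
  · exfalso
    have h1 := ev_ne (d := 2) le_rfl c z₀ ((fc 2 c)^[m] z₀) m
    obtain ⟨z, hz1, hz2⟩ := (h1.and (nhdsWithin_le_nhds h)).exists
    exact hz1 hz2
  · exact h

/-- the trapped points of period `l` -/
def FV (p : ℕ) (V : Set ℂ) (c : ℂ) (l : ℕ) : Set ℂ :=
  {y : ℂ | (∀ i < l, (fc 2 c)^[p * i] y ∈ V) ∧ (fc 2 c)^[p * l] y = y}

theorem tend_SS {p : ℕ} {V : Set ℂ} (hVo : IsOpen V) {c : ℂ} (hdeg : Deg 2 p V c) {R : ℝ}
    (hR : 0 < R) (hSR : ∀ z ∈ V, ∀ l, 1 ≤ l → ∀ u ∈ SS p V c l z, ‖u‖ ≤ R)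
    {l : ℕ} (hl : 1 ≤ l) {z₀ : ℂ} (hz₀ : z₀ ∈ FV p V c l) :
    Tendsto (fun z => GP (SS p V c l z) R) (𝓝[≠] z₀) (𝓝 0) := by
  obtain ⟨h1, h2⟩ := hz₀
  have hzV : z₀ ∈ V := by
    have := h1 0 (by omega)
    simpa using this
  rw [Metric.tendsto_nhds]
  intro ε hε
  have h3 := it_nonconst (c := c) (p * l) z₀
  rw [h2] at h3
  have h4 : {y : ℂ | (∀ i < l, (fc 2 c)^[p * i] y ∈ V)} ∩ ball z₀ (ε * R / 2) ∈ 𝓝 z₀ := by
    refine inter_mem ?_ (ball_mem_nhds z₀ (by positivity))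
    have h : {y : ℂ | (∀ i < l, (fc 2 c)^[p * i] y ∈ V)} =
        ⋂ i ∈ Finset.range l, ((fc 2 c)^[p * i]) ⁻¹' V := by
      ext q
      simp
    rw [h]
    refine (isOpen_biInter_finset fun i _ => hVo.preimage (cont_it_y 2 (p * i) c)).mem_nhds ?_
    simp only [mem_iInter, Finset.mem_range, mem_preimage]
    exact h1
  have h5 := h3 (image_mem_map h4)
  apply nhdsWithin_le_nhds
  filter_upwards [h5, ball_mem_nhds z₀ (show 0 < ε * R / 2 by positivity), hVo.mem_nhds hzV]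
    with z hz1 hz2 hzV'
  obtain ⟨y, ⟨hy1, hy2⟩, hy3⟩ := hz1
  rw [dist_zero_right]
  have hf := (SS_card hdeg hzV' l).1
  have hmem : z - y ∈ SS p V c l z := by
    rw [SS_image]
    exact ⟨y, ⟨hy1, hy3⟩, rfl⟩
  refine GP_small hR (hSR z hzV' l hl) hf hmem ?_
  rw [mem_ball, dist_eq_norm] at hz2 hy2
  have h6 : z - y = (z - z₀) - (y - z₀) := by ring
  rw [h6]
  have := norm_sub_le (z - z₀) (y - z₀)
  linarith

/-- the trapped periodic points in a small disc -/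
theorem fix_local {p : ℕ} (hp : 1 ≤ p) {V : Set ℂ} (hVo : IsOpen V) (hVb : Bornology.IsBounded V)
    {c : ℂ} (hc : c ∉ N62a1eb23.multibrotSet 2)
    (hfr : ∀ z ∈ frontier V, (fc 2 c)^[p] z ∉ closure V) (hdeg : Deg 2 p V c)
    {w : ℂ} {r : ℝ} (hr : 0 < r) (hrV : ball w (8 * r) ⊆ V) :
    ∃ (C : ℕ) (L : ℕ), ∀ l ≥ L, (FV p V c l ∩ ball w r).ncard ≤ C * 2 ^ l := by
  obtain ⟨A, hA⟩ : ∃ A : Set ℂ, A = range (fun k => P 2 k c) := ⟨_, rfl⟩
  have hAc : A.Countable := by rw [hA]; exact countable_range _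
  obtain ⟨z₁, hz₁, hz₁A, i₀, hi₀⟩ := exists_esc hc hp hVb hAc w hr
  rw [mem_ball, dist_eq_norm] at hz₁
  obtain ⟨η, hη, hη'⟩ : ∃ η > 0, ∀ y ∈ ball z₁ η, (fc 2 c)^[p * i₀] y ∉ closure V := by
    have h1 : IsOpen {y | (fc 2 c)^[p * i₀] y ∉ closure V} :=
      isClosed_closure.isOpen_compl.preimage (cont_it_y 2 _ _)
    obtain ⟨η, hη, h2⟩ := Metric.isOpen_iff.1 h1 z₁ hi₀
    exact ⟨η, hη, fun y hy => h2 hy⟩
  obtain ⟨R₀, hR₀⟩ := hVb.exists_norm_le
  obtain ⟨R, hRdef⟩ : ∃ R, R = max R₀ (max 1 η) := ⟨_, rfl⟩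
  have hR1 : 1 ≤ R := by rw [hRdef]; exact (le_max_left _ _).trans (le_max_right _ _)
  have hRη : η ≤ R := by rw [hRdef]; exact (le_max_right _ _).trans (le_max_right _ _)
  have hVR : ∀ y ∈ V, ‖y‖ ≤ R := fun y hy => (hR₀ y hy).trans (by rw [hRdef]; exact le_max_left _ _)
  obtain ⟨Q, hQ⟩ : ∃ Q, Q = 2 * R := ⟨_, rfl⟩
  have hQ0 : 0 < Q := by rw [hQ]; linarith
  have hηQ : η ≤ Q := by rw [hQ]; linarith
  have hSQ : ∀ z ∈ V, ∀ l, 1 ≤ l → ∀ u ∈ SS p V c l z, ‖u‖ ≤ Q := by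
    intro z hz l hl u hu
    have h1 := hu.1 0 (by omega)
    have h2 : z - u ∈ V := by simpa using h1
    have h3 : u = z - (z - u) := by ring
    rw [h3, hQ]
    refine (norm_sub_le _ _).trans ?_
    have := hVR _ hz
    have := hVR _ h2
    linarith
  have hlog2 : 0 < Real.log 2 := Real.log_pos (by norm_num)
  obtain ⟨C, hC⟩ := exists_nat_ge (Real.log (Q / η) / Real.log 2)
  refine ⟨C, i₀ + 1, fun l hl => ?_⟩
  have hl1 : 1 ≤ l := by omega
  have hpl : 1 ≤ p * l := Nat.mul_pos hp hl1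
  have hfinZ : (FV p V c l ∩ ball w r).Finite := by
    refine (per_card c hpl).1.subset ?_
    rintro y ⟨⟨_, h⟩, _⟩
    exact h
  have hb1 : ball z₁ (6 * r) ⊆ V := by
    refine (ball_subset_ball' ?_).trans hrV
    rw [dist_eq_norm]
    linarith
  have hz₁V : z₁ ∈ V := hb1 (mem_ball_self (by linarith))
  obtain ⟨E, hE⟩ : ∃ E : Set ℂ, E = (fun k => P 2 k c) '' (Icc 1 (p * l)) := ⟨_, rfl⟩
  have hEfin : E.Finite := by rw [hE]; exact (finite_Icc _ _).image _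
  have hz₁E : z₁ ∉ E := by
    rw [hE]
    rintro ⟨k, _, hk⟩
    apply hz₁A
    rw [hA]
    exact ⟨k, hk⟩
  obtain ⟨hSf, hSc⟩ := SS_card hdeg hz₁V l
  have hlow : (η / Q) ^ (2 ^ l) ≤ ‖GP (SS p V c l z₁) Q‖ := by
    apply GP_ge hη hηQ hSf hSc
    intro u hu
    by_contra hlt
    push Not at hlt
    refine hη' (z₁ - u) ?_ (subset_closure (hu.1 i₀ (by omega)))
    rw [mem_ball, dist_eq_norm, sub_sub_cancel_left, norm_neg]
    exact hlt
  have key := jz (fun z => GP (SS p V c l z) Q) z₁ (6 * r) 1 ((η / Q) ^ (2 ^ l))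
    E hfinZ.toFinset (by positivity) hEfin
    (by
      rintro z ⟨hz1, hz2⟩
      refine (local_SS hVo hVR hfr hl1 (hb1 hz1) ?_ Q).differentiableWithinAt
      intro k hk1 hk2 hk3
      apply hz2
      rw [hE]
      exact ⟨k, ⟨hk1, hk2⟩, hk3⟩)
    (fun z hz => GP_le hQ0 (hSQ z (hb1 hz.1) l hl1)) hz₁E hlow (by
      intro z hz
      rw [Set.Finite.coe_toFinset] at hz
      have h1 := hz.2
      rw [mem_ball, dist_eq_norm] at h1 ⊢
      have h2 : z - z₁ = (z - w) - (z₁ - w) := by ring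
      rw [h2]
      have := norm_sub_le (z - w) (z₁ - w)
      linarith)
    (by
      intro z hz
      rw [Set.Finite.mem_toFinset] at hz
      exact tend_SS hVo hdeg hQ0 hSQ hl1 hz.1)
  rw [← Set.ncard_eq_toFinset_card _ hfinZ] at key
  have h1 : (2 : ℝ) ^ ((FV p V c l ∩ ball w r).ncard) ≤ (Q / η) ^ (2 ^ l) := by
    have h2 : (Q / η) ^ (2 ^ l) = 1 / (η / Q) ^ (2 ^ l) := by
      rw [← inv_div, inv_pow, one_div]
    rw [h2, le_div_iff₀ (by positivity)]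
    linarith
  have h2 := Real.log_le_log (by positivity) h1
  rw [Real.log_pow, Real.log_pow] at h2
  push_cast at h2
  have h3 : ((FV p V c l ∩ ball w r).ncard : ℝ) ≤ C * 2 ^ l := by
    have h4 : Real.log (Q / η) ≤ C * Real.log 2 := by
      rw [div_le_iff₀ hlog2] at hC
      exact hC
    have h5 : (2:ℝ) ^ l * Real.log (Q / η) ≤ 2 ^ l * (C * Real.log 2) := by gcongr
    have h6 : ((FV p V c l ∩ ball w r).ncard : ℝ) * Real.log 2 ≤ (C * 2 ^ l) * Real.log 2 := by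
      linarith
    exact le_of_mul_le_mul_right h6 hlog2
  exact_mod_cast h3

/-- **The number of the trapped periodic points.** -/
theorem fix_bound {p : ℕ} (hp : 1 ≤ p) {V : Set ℂ} (hVo : IsOpen V) (hVb : Bornology.IsBounded V)
    {c : ℂ} (hc : c ∉ N62a1eb23.multibrotSet 2)
    (hfr : ∀ z ∈ frontier V, (fc 2 c)^[p] z ∉ closure V) (hdeg : Deg 2 p V c) :
    ∃ C : ℕ, ∀ l, 1 ≤ l → (FV p V c l).Finite ∧ (FV p V c l).ncard ≤ C * 2 ^ l := by
  classical
  obtain ⟨K, hK⟩ : ∃ K : Set ℂ, K = closure V ∩ (fc 2 c)^[p] ⁻¹' closure V := ⟨_, rfl⟩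
  have hKc : IsCompact K := by
    rw [hK]
    exact (Metric.isCompact_of_isClosed_isBounded isClosed_closure hVb.closure).inter_right
      (isClosed_closure.preimage (cont_it_y 2 p c))
  have hKV : K ⊆ V := by
    rw [hK]
    rintro z ⟨h1, h2⟩
    by_contra hcon
    exact hfr z (by rw [hVo.frontier_eq]; exact ⟨h1, hcon⟩) h2
  have h1 : ∀ w ∈ K, ∃ (r : ℝ) (C L : ℕ), 0 < r ∧
      ∀ l ≥ L, (FV p V c l ∩ ball w r).ncard ≤ C * 2 ^ l := by
    intro w hw
    obtain ⟨ε, hε, hball⟩ := Metric.isOpen_iff.1 hVo w (hKV hw)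
    obtain ⟨C, L, h2⟩ := fix_local hp hVo hVb hc hfr hdeg (w := w) (r := ε / 8) (by positivity)
      (by rw [show 8 * (ε / 8) = ε by ring]; exact hball)
    exact ⟨ε / 8, C, L, by positivity, h2⟩
  choose! r C L hr hCL using h1
  obtain ⟨t, ht1, ht2⟩ := hKc.elim_nhds_subcover (fun w => ball w (r w))
    (fun w hw => ball_mem_nhds w (hr w hw))
  obtain ⟨L₀, hL₀⟩ : ∃ L₀, L₀ = t.sup L := ⟨_, rfl⟩
  refine ⟨(∑ w ∈ t, C w) + 2 ^ (p * L₀), fun l hl => ?_⟩
  have hpl : 1 ≤ p * l := Nat.mul_pos hp hl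
  obtain ⟨hf, hcard⟩ := per_card c hpl
  have hsub : FV p V c l ⊆ {w : ℂ | (fc 2 c)^[p * l] w = w} := fun y hy => hy.2
  have hfin : (FV p V c l).Finite := hf.subset hsub
  refine ⟨hfin, ?_⟩
  rcases Nat.lt_or_ge l L₀ with hlt | hge
  · have h2 : (FV p V c l).ncard ≤ 2 ^ (p * l) := (Set.ncard_le_ncard hsub hf).trans hcard
    have h3 : 2 ^ (p * l) ≤ 2 ^ (p * L₀) :=
      Nat.pow_le_pow_right (by norm_num) (Nat.mul_le_mul_left p hlt.le)
    have h4 : 1 ≤ 2 ^ l := Nat.one_le_two_pow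
    calc (FV p V c l).ncard ≤ 2 ^ (p * L₀) := h2.trans h3
      _ ≤ ((∑ w ∈ t, C w) + 2 ^ (p * L₀)) * 1 := by omega
      _ ≤ _ := Nat.mul_le_mul_left _ h4
  · have h2 : FV p V c l ⊆ ⋃ w ∈ t, FV p V c l ∩ ball w (r w) := by
      intro y hy
      have hyK : y ∈ K := by
        rw [hK]
        have hy0 : y ∈ V := by
          have := hy.1 0 (by omega)
          simpa using this
        refine ⟨subset_closure hy0, ?_⟩
        show (fc 2 c)^[p] y ∈ closure V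
        rcases Nat.lt_or_ge 1 l with h3 | h3
        · have := hy.1 1 h3
          rw [Nat.mul_one] at this
          exact subset_closure this
        · have h4 : l = 1 := by omega
          have h5 := hy.2
          rw [h4, Nat.mul_one] at h5
          rw [h5]
          exact subset_closure hy0
      obtain ⟨w, hw1, hw2⟩ := mem_iUnion₂.1 (ht2 hyK)
      exact mem_iUnion₂.2 ⟨w, hw1, hy, hw2⟩
    have h3 : (⋃ w ∈ t, FV p V c l ∩ ball w (r w)).ncard ≤
        ∑ w ∈ t, (FV p V c l ∩ ball w (r w)).ncard := by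
      exact Finset.set_ncard_biUnion_le t _
    have h4 : ∑ w ∈ t, (FV p V c l ∩ ball w (r w)).ncard ≤ ∑ w ∈ t, C w * 2 ^ l := by
      apply Finset.sum_le_sum
      intro w hw
      apply hCL w (ht1 w hw)
      have : L w ≤ L₀ := by rw [hL₀]; exact Finset.le_sup hw
      omega
    have h5 : (⋃ w ∈ t, FV p V c l ∩ ball w (r w)).Finite :=
      Set.Finite.biUnion (Finset.finite_toSet _) fun w _ => hfin.subset inter_subset_left
    calc (FV p V c l).ncard ≤ (⋃ w ∈ t, FV p V c l ∩ ball w (r w)).ncard :=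
          Set.ncard_le_ncard h2 h5
      _ ≤ ∑ w ∈ t, C w * 2 ^ l := h3.trans h4
      _ = (∑ w ∈ t, C w) * 2 ^ l := by rw [Finset.sum_mul]
      _ ≤ _ := Nat.mul_le_mul_right _ (Nat.le_add_right _ _)

/-- the degree is stable along a segment -/
theorem deg_transfer {p : ℕ} (hp : 1 ≤ p) {V : Set ℂ} (hVo : IsOpen V)
    (hVb : Bornology.IsBounded V) {c₁ c' : ℂ} {B : Set ℂ} (hB : IsOpen B)
    (hfr : ∀ c ∈ B, ∀ z ∈ frontier V, (fc 2 c)^[p] z ∉ closure V)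
    (hdeg : Deg 2 p V c₁) (hseg : segment ℝ c₁ c' ⊆ B) : Deg 2 p V c' := by
  classical
  intro w hw
  have hset : ∀ w, {z | z ∈ V ∧ (fc 2 c')^[p] z = w} = YY 2 p V w 1 c' := by
    intro w
    ext z
    unfold YY
    simp only [mem_ofPred_eq, Nat.mul_one]
    constructor
    · rintro ⟨h1, h2⟩
      refine ⟨fun i hi => ?_, h2⟩
      have : i = 0 := by omega
      rw [this]
      simpa using h1
    · rintro ⟨h1, h2⟩
      refine ⟨?_, h2⟩
      have := h1 0 (by omega)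
      simpa using this
  -- finiteness
  have hfin : ∀ w, {z | z ∈ V ∧ (fc 2 c')^[p] z = w}.Finite := by
    intro w
    obtain ⟨h1, h2⟩ := Fz_monic p
    have h3 := Fz_map c' p
    have h4 : (Fc c' p).Monic := by rw [← h3]; exact h1.map _
    have h5 : (Fc c' p).natDegree = 2 ^ p := by rw [← h3, h1.natDegree_map, h2]
    have h6 : (Fc c' p - Polynomial.C w) ≠ 0 := by
      intro h0
      have h7 : (Fc c' p).natDegree = 0 := by
        rw [sub_eq_zero.1 h0, Polynomial.natDegree_C]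
      rw [h5] at h7
      have := Nat.one_le_two_pow (n := p)
      omega
    refine (roots_bound h6 (A := {z | z ∈ V ∧ (fc 2 c')^[p] z = w}) ?_ le_rfl).1
    rintro z ⟨_, hz⟩
    rw [Polynomial.eval_sub, Fc_eval, Polynomial.eval_C, sub_eq_zero]
    exact hz
  refine ⟨hfin w, ?_⟩
  by_contra hcon
  push Not at hcon
  obtain ⟨a, b, e, ha, hb, he, hab, hae, hbe⟩ := (Set.two_lt_ncard_iff (hfin w)).1 hcon
  -- disjoint neighbourhoods
  obtain ⟨ρ, hρ⟩ : ∃ ρ, ρ = min (dist a b) (min (dist a e) (dist b e)) / 2 := ⟨_, rfl⟩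
  have hρ0 : 0 < ρ := by
    rw [hρ]
    have h1 := dist_pos.2 hab
    have h2 := dist_pos.2 hae
    have h3 := dist_pos.2 hbe
    positivity
  have key : ∀ x ∈ V, (fc 2 c')^[p] x = w → (fc 2 c')^[p] '' (V ∩ ball x ρ) ∈ 𝓝 w := by
    intro x hx hxw
    have h1 := it_nonconst (c := c') p x
    rw [hxw] at h1
    exact h1 (image_mem_map (inter_mem (hVo.mem_nhds hx) (ball_mem_nhds x hρ0)))
  have hW : (fc 2 c')^[p] '' (V ∩ ball a ρ) ∩ ((fc 2 c')^[p] '' (V ∩ ball b ρ) ∩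
      ((fc 2 c')^[p] '' (V ∩ ball e ρ) ∩ V)) ∈ 𝓝 w :=
    inter_mem (key a ha.1 ha.2) (inter_mem (key b hb.1 hb.2)
      (inter_mem (key e he.1 he.2) (hVo.mem_nhds hw)))
  obtain ⟨ε, hε, hεW⟩ := Metric.mem_nhds_iff.1 hW
  obtain ⟨w', hw', hw'2⟩ : ∃ w' ∈ ball w ε,
      w' ∉ {w : ℂ | ∃ m, ∃ c ∈ segment ℝ c₁ c', P 2 m c = w} := by
    by_contra hcon
    push Not at hcon
    have h3 := measure_mono_null (μ := volume) hcon (null_bad 2 c₁ c')
    exact (measure_ball_pos volume w hε).ne' h3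
  obtain ⟨⟨a', ha', ha''⟩, ⟨b', hb', hb''⟩, ⟨e', he', he''⟩, hw'V⟩ := hεW hw'
  have hP : ∀ c ∈ segment ℝ c₁ c', ∀ k, P 2 k c ≠ w' := by
    intro c hc k hk
    exact hw'2 ⟨k, c, hc, hk⟩
  have h1 : ∀ c ∈ segment ℝ c₁ c', ContinuousWithinAt
      (fun c => (YY 2 p V w' 1 c).ncard) (segment ℝ c₁ c') c := by
    intro c hc
    have h2 := (local_B lp (d := 2) le_rfl hVo hVb hB hfr hw'V (j := 1) le_rfl 1 (hseg hc)
      (fun k hk _ => hP c hc k)).1
    have h3 : (fun c => (YY 2 p V w' 1 c).ncard) =ᶠ[𝓝 c] fun _ => (YY 2 p V w' 1 c).ncard := by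
      filter_upwards [h2] with a ha using ha.2
    exact (continuousAt_const.congr h3.symm).continuousWithinAt
  have h2 := (convex_segment c₁ c').isPreconnected.constant (f := fun c => (YY 2 p V w' 1 c).ncard)
    h1 (left_mem_segment ℝ c₁ c') (right_mem_segment ℝ c₁ c')
  have h3 := (tree hdeg hw'V 1).2
  have h4 : (YY 2 p V w' 1 c₁).ncard = (YY 2 p V w' 1 c').ncard := h2
  rw [h4, ← hset, pow_one] at h3
  have h5 : 2 < {z | z ∈ V ∧ (fc 2 c')^[p] z = w'}.ncard := by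
    rw [Set.two_lt_ncard_iff (hfin w')]
    have hd : ∀ {x y x' y' : ℂ}, x' ∈ V ∩ ball x ρ → y' ∈ V ∩ ball y ρ → 2 * ρ ≤ dist x y →
        x' ≠ y' := by
      rintro x y x' y' ⟨_, hx⟩ ⟨_, hy⟩ hxy rfl
      rw [mem_ball] at hx hy
      have := dist_triangle_left x y x'
      linarith
    have e1 : 2 * ρ ≤ dist a b := by
      rw [hρ]
      have := min_le_left (dist a b) (min (dist a e) (dist b e))
      linarith
    have e2 : 2 * ρ ≤ dist a e := by
      rw [hρ]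
      have := min_le_right (dist a b) (min (dist a e) (dist b e))
      have := min_le_left (dist a e) (dist b e)
      linarith
    have e3 : 2 * ρ ≤ dist b e := by
      rw [hρ]
      have := min_le_right (dist a b) (min (dist a e) (dist b e))
      have := min_le_right (dist a e) (dist b e)
      linarith
    exact ⟨a', b', e', ⟨ha'.1, ha''⟩, ⟨hb'.1, hb''⟩, ⟨he'.1, he''⟩, hd ha' hb' e1, hd ha' he' e2,
      hd hb' he' e3⟩
  omega

end Pool.Agent.K6.H26.ML
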