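import Pool.Agent.R240.Kern

set_option autoImplicit false

/-! # The norm of the kernel of two near points -/

namespace Pool.Agent.K6.H26.ML

open Complex Metric Set Filter Topology MeasureTheory ENNReal
open Pool.Agent.R240.Push

/-- the kernel -/
noncomputable def ker2 (c a b y : ℂ) : ℝ :=
  ‖a - b‖ * ‖(y - c) + a * b‖ / (2 * (‖y - c‖ * ‖y - (c + a ^ 2)‖ * ‖y - (c + b ^ 2)‖))

theorem ker2_symm (c a b y : ℂ) : ker2 c a b y = ker2 c b a y := by
  unfold ker2
  rw [norm_sub_rev a b, mul_comm a b]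
  ring_nf

/-- scalar estimates -/
theorem scal1 {t β : ℝ} (ht : 0 < t) (hβ : t / 2 ≤ β) :
    Real.log (24 / β ^ 2) ≤ 5 + 2 * |Real.log t| := by
  have hβ0 : 0 < β := by linarith
  have h1 : 24 / β ^ 2 ≤ 96 / t ^ 2 := by
    rw [div_le_div_iff₀ (by positivity) (by positivity)]
    nlinarith
  have h2 := Real.log_le_log (by positivity) h1
  have h2' : Real.log (96 / t ^ 2) = Real.log 96 - 2 * Real.log t := by
    rw [Real.log_div (by norm_num) (by positivity), Real.log_pow]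
    norm_num
  have h3 : Real.log 96 ≤ 5 := by
    rw [Real.log_le_iff_le_exp (by norm_num)]
    have h4 : Real.exp 5 = Real.exp 1 ^ 5 := by rw [← Real.exp_nat_mul]; norm_num
    rw [h4]
    have h5 : (2.7 : ℝ) ≤ Real.exp 1 := by
      have := Real.exp_one_gt_d9
      linarith
    calc (96 : ℝ) ≤ 2.7 ^ 5 := by norm_num
      _ ≤ _ := by gcongr
  have h4 := neg_abs_le (Real.log t)
  linarith

theorem scal2 {t α : ℝ} (ht : 0 < t) (hα : 0 < α) (hαt : α ≤ 2 * t) :
    α * Real.log (24 / α ^ 2) ≤ t * (14 + 4 * |Real.log t|) := by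
  have h1 : (24 : ℝ) / α ^ 2 = (6 / t ^ 2) * (2 * t / α) ^ 2 := by
    field_simp
    norm_num
  rw [h1, Real.log_mul (by positivity) (by positivity), Real.log_pow]
  have h2 : Real.log (2 * t / α) ≤ 2 * t / α := by
    have := Real.log_le_sub_one_of_pos (show 0 < 2 * t / α by positivity)
    linarith
  have h3 : α * (2 * t / α) = 2 * t := by field_simp
  have h4 : Real.log (6 / t ^ 2) ≤ 5 + 2 * |Real.log t| := by
    have h5 := scal1 (t := 2 * t) (β := 2 * t) (by positivity) (by linarith)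
    rw [Real.log_div (by norm_num) (by positivity), Real.log_pow]
    have h6 : Real.log 6 ≤ 5 := by
      have := Real.log_le_sub_one_of_pos (show (0:ℝ) < 6 by norm_num)
      linarith
    have h4 := neg_abs_le (Real.log t)
    push_cast
    linarith
  have h5 : α * Real.log (6 / t ^ 2) ≤ 2 * t * (5 + 2 * |Real.log t|) := by
    have h6 : 0 ≤ 5 + 2 * |Real.log t| := by positivity
    calc α * Real.log (6 / t ^ 2) ≤ α * (5 + 2 * |Real.log t|) := by gcongr
      _ ≤ _ := by gcongr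
  have h6 : α * Real.log (2 * t / α) ≤ 2 * t := by
    have := mul_le_mul_of_nonneg_left h2 hα.le
    rwa [h3] at this
  push_cast
  nlinarith

theorem kern_pair {c a b : ℂ} (hc : ‖c‖ ≤ 2) (ha2 : ‖c + a ^ 2‖ ≤ 2) (hb2 : ‖c + b ^ 2‖ ≤ 2)
    (ha : a ≠ 0) (hb : b ≠ 0) (hab : a ≠ b) (hab' : a ^ 2 ≠ b ^ 2) :
    ∫⁻ y in ball (0:ℂ) 4, ENNReal.ofReal (ker2 c a b y) ≤
      ENNReal.ofReal (200 * Real.pi * (‖a - b‖ * (1 + |Real.log ‖a - b‖|))) := by
  wlog hle : ‖a‖ ≤ ‖b‖ generalizing a b with H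
  · have := H hb2 ha2 hb ha hab.symm hab'.symm (le_of_not_ge hle)
    simp only [ker2_symm c b a] at this
    rwa [norm_sub_rev b a] at this
  have hpi := Real.pi_pos
  obtain ⟨t, ht⟩ : ∃ t, t = ‖a - b‖ := ⟨_, rfl⟩
  obtain ⟨s, hs⟩ : ∃ s, s = ‖a + b‖ := ⟨_, rfl⟩
  obtain ⟨α, hα⟩ : ∃ α, α = ‖a‖ := ⟨_, rfl⟩
  obtain ⟨β, hβ⟩ : ∃ β, β = ‖b‖ := ⟨_, rfl⟩
  obtain ⟨L, hL⟩ : ∃ L, L = |Real.log t| := ⟨_, rfl⟩
  have hL0 : 0 ≤ L := by rw [hL]; exact abs_nonneg _
  have ht0 : 0 < t := by rw [ht]; exact norm_pos_iff.2 (sub_ne_zero.2 hab)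
  have hα0 : 0 < α := by rw [hα]; exact norm_pos_iff.2 ha
  have hβ0 : 0 < β := by rw [hβ]; exact norm_pos_iff.2 hb
  have hts : t * s = ‖a ^ 2 - b ^ 2‖ := by
    rw [ht, hs, ← norm_mul]
    congr 1
    ring
  have hts0 : 0 < t * s := by rw [hts]; exact norm_pos_iff.2 (sub_ne_zero.2 hab')
  have hs0 : 0 < s := pos_of_mul_pos_right hts0 ht0.le
  have hts4 : t * s ≤ 4 := by
    rw [hts]
    have h1 : a ^ 2 - b ^ 2 = (c + a ^ 2) - (c + b ^ 2) := by ring
    rw [h1]
    exact (norm_sub_le _ _).trans (by linarith)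
  have hα4 : α ^ 2 ≤ 4 := by
    rw [hα, ← norm_pow]
    have h1 : a ^ 2 = (c + a ^ 2) - c := by ring
    rw [h1]
    exact (norm_sub_le _ _).trans (by linarith)
  have hβ4 : β ^ 2 ≤ 4 := by
    rw [hβ, ← norm_pow]
    have h1 : b ^ 2 = (c + b ^ 2) - c := by ring
    rw [h1]
    exact (norm_sub_le _ _).trans (by linarith)
  have hαβ : α ≤ β := by rw [hα, hβ]; exact hle
  have htβ : t / 2 ≤ β := by
    have : t ≤ α + β := by rw [ht, hα, hβ]; exact norm_sub_le _ _
    linarith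
  -- the integrals
  have hc1 : c ≠ c + a ^ 2 := by
    intro h
    have : a ^ 2 = 0 := by linear_combination -h
    exact ha (pow_eq_zero_iff (by norm_num) |>.1 this)
  have hc2 : c ≠ c + b ^ 2 := by
    intro h
    have : b ^ 2 = 0 := by linear_combination -h
    exact hb (pow_eq_zero_iff (by norm_num) |>.1 this)
  have hc3 : c + a ^ 2 ≠ c + b ^ 2 := by
    intro h
    exact hab' (add_left_cancel h)
  have K01 := kern_two hc ha2 hc1
  have K02 := kern_two hc hb2 hc2
  have K12 := kern_two ha2 hb2 hc3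
  have e1 : ‖c - (c + a ^ 2)‖ = α ^ 2 := by
    rw [hα, ← norm_pow, ← norm_neg]
    congr 1
    ring
  have e2 : ‖c - (c + b ^ 2)‖ = β ^ 2 := by
    rw [hβ, ← norm_pow, ← norm_neg]
    congr 1
    ring
  have e3 : ‖(c + a ^ 2) - (c + b ^ 2)‖ = t * s := by
    rw [hts]
    congr 1
    ring
  rw [e1] at K01
  rw [e2] at K02
  rw [e3] at K12
  have hl1 : 0 ≤ Real.log (24 / α ^ 2) := Real.log_nonneg (by
    rw [le_div_iff₀ (by positivity)]; linarith)
  have hl2 : 0 ≤ Real.log (24 / β ^ 2) := Real.log_nonneg (by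
    rw [le_div_iff₀ (by positivity)]; linarith)
  have hl3 : 0 ≤ Real.log (24 / (t * s)) := Real.log_nonneg (by
    rw [le_div_iff₀ (by positivity)]; linarith)
  have hb1 : Real.log (24 / β ^ 2) ≤ 5 + 2 * L := by rw [hL]; exact scal1 ht0 htβ
  -- the pointwise bound
  have hnum : ∀ y : ℂ, ‖(y - c) + a * b‖ ≤ ‖y - (c + a ^ 2)‖ + α * s := by
    intro y
    have h1 : (y - c) + a * b = (y - (c + a ^ 2)) + a * (a + b) := by ring
    rw [h1, hα, hs, ← norm_mul]
    exact norm_add_le _ _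
  have hpt0 : ∀ y : ℂ, ker2 c a b y ≤ (t / 2) * (‖y - c‖⁻¹ * ‖y - (c + b ^ 2)‖⁻¹) +
      (t / 2) * (α * s) * (‖y - c‖⁻¹ * (‖y - (c + a ^ 2)‖⁻¹ * ‖y - (c + b ^ 2)‖⁻¹)) := by
    intro y
    unfold ker2
    rw [← ht]
    obtain ⟨u, hu⟩ : ∃ u, u = ‖y - c‖ := ⟨_, rfl⟩
    obtain ⟨v, hv⟩ : ∃ v, v = ‖y - (c + a ^ 2)‖ := ⟨_, rfl⟩
    obtain ⟨w, hw⟩ : ∃ w, w = ‖y - (c + b ^ 2)‖ := ⟨_, rfl⟩
    have hn := hnum y
    rw [← hu, ← hv, ← hw]
    rw [← hv] at hn
    have hu0 : 0 ≤ u := by rw [hu]; exact norm_nonneg _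
    have hv0 : 0 ≤ v := by rw [hv]; exact norm_nonneg _
    have hw0 : 0 ≤ w := by rw [hw]; exact norm_nonneg _
    have hR0 : 0 ≤ t / 2 * (u⁻¹ * w⁻¹) + t / 2 * (α * s) * (u⁻¹ * (v⁻¹ * w⁻¹)) := by positivity
    rcases hv0.eq_or_lt with hv1 | hv1
    · have h0 : t * ‖(y - c) + a * b‖ / (2 * (u * v * w)) = 0 := by rw [← hv1]; simp
      rw [h0]
      exact hR0
    rcases hu0.eq_or_lt with hu1 | hu1
    · have h0 : t * ‖(y - c) + a * b‖ / (2 * (u * v * w)) = 0 := by rw [← hu1]; simp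
      rw [h0]
      exact hR0
    rcases hw0.eq_or_lt with hw1 | hw1
    · have h0 : t * ‖(y - c) + a * b‖ / (2 * (u * v * w)) = 0 := by rw [← hw1]; simp
      rw [h0]
      exact hR0
    calc t * ‖(y - c) + a * b‖ / (2 * (u * v * w)) ≤ t * (v + α * s) / (2 * (u * v * w)) := by
          gcongr
      _ = _ := by
          field_simp
  rcases le_or_gt (α / 2) t with hcase | hcase
  · -- far
    have hαt : α ≤ 2 * t := by linarith
    have hpt : ∀ y : ℂ, ENNReal.ofReal (ker2 c a b y) ≤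
        ENNReal.ofReal ((t + α) / 2) * ENNReal.ofReal (‖y - c‖⁻¹ * ‖y - (c + b ^ 2)‖⁻¹) +
        ENNReal.ofReal (α / 2) * ENNReal.ofReal (‖y - c‖⁻¹ * ‖y - (c + a ^ 2)‖⁻¹) := by
      intro y
      rw [← ENNReal.ofReal_mul (by positivity), ← ENNReal.ofReal_mul (by positivity),
        ← ENNReal.ofReal_add (by positivity) (by positivity)]
      apply ENNReal.ofReal_le_ofReal
      refine (hpt0 y).trans ?_
      obtain ⟨u, hu⟩ : ∃ u, u = ‖y - c‖ := ⟨_, rfl⟩
      obtain ⟨v, hv⟩ : ∃ v, v = ‖y - (c + a ^ 2)‖ := ⟨_, rfl⟩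
      obtain ⟨w, hw⟩ : ∃ w, w = ‖y - (c + b ^ 2)‖ := ⟨_, rfl⟩
      rw [← hu, ← hv, ← hw]
      have hu0 : 0 ≤ u := by rw [hu]; exact norm_nonneg _
      have hv0 : 0 ≤ v := by rw [hv]; exact norm_nonneg _
      have hw0 : 0 ≤ w := by rw [hw]; exact norm_nonneg _
      have htri : t * s ≤ v + w := by
        rw [hts, hv, hw]
        have h1 : a ^ 2 - b ^ 2 = (y - (c + b ^ 2)) - (y - (c + a ^ 2)) := by ring
        have h2 := norm_sub_le (y - (c + b ^ 2)) (y - (c + a ^ 2))
        rw [← h1] at h2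
        linarith
      have h2 : t * s * (v⁻¹ * w⁻¹) ≤ v⁻¹ + w⁻¹ := by
        rcases hv0.eq_or_lt with hv1 | hv1
        · rw [← hv1]
          simp [hw0]
        rcases hw0.eq_or_lt with hw1 | hw1
        · rw [← hw1]
          simp [hv0]
        calc t * s * (v⁻¹ * w⁻¹) ≤ (v + w) * (v⁻¹ * w⁻¹) := by gcongr
          _ = _ := by field_simp; ring
      have h3 : (t / 2) * (α * s) * (u⁻¹ * (v⁻¹ * w⁻¹)) ≤ (α / 2) * u⁻¹ * (v⁻¹ + w⁻¹) := by
        calc (t / 2) * (α * s) * (u⁻¹ * (v⁻¹ * w⁻¹)) = (α / 2) * u⁻¹ * (t * s * (v⁻¹ * w⁻¹)) := by ring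
          _ ≤ _ := by gcongr
      calc t / 2 * (u⁻¹ * w⁻¹) + t / 2 * (α * s) * (u⁻¹ * (v⁻¹ * w⁻¹))
          ≤ t / 2 * (u⁻¹ * w⁻¹) + (α / 2) * u⁻¹ * (v⁻¹ + w⁻¹) := by gcongr
        _ = _ := by ring
    refine (lintegral_mono hpt).trans ?_
    rw [lintegral_add_left (by fun_prop), lintegral_const_mul' _ _ ENNReal.ofReal_ne_top,
      lintegral_const_mul' _ _ ENNReal.ofReal_ne_top]
    calc _ ≤ ENNReal.ofReal ((t + α) / 2) *
          ENNReal.ofReal (4 * Real.pi + 2 * Real.pi * Real.log (24 / β ^ 2)) +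
          ENNReal.ofReal (α / 2) *
          ENNReal.ofReal (4 * Real.pi + 2 * Real.pi * Real.log (24 / α ^ 2)) := by gcongr
      _ = ENNReal.ofReal ((t + α) / 2 * (4 * Real.pi + 2 * Real.pi * Real.log (24 / β ^ 2)) +
          α / 2 * (4 * Real.pi + 2 * Real.pi * Real.log (24 / α ^ 2))) := by
          rw [← ENNReal.ofReal_mul (by positivity), ← ENNReal.ofReal_mul (by positivity),
            ← ENNReal.ofReal_add (by positivity) (by positivity)]
      _ ≤ _ := by
          apply ENNReal.ofReal_le_ofReal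
          rw [← ht, ← hL]
          have h1 := scal2 ht0 hα0 hαt
          rw [← hL] at h1
          have h2 : (t + α) / 2 * (4 * Real.pi + 2 * Real.pi * Real.log (24 / β ^ 2)) ≤
              (3 * t) / 2 * (4 * Real.pi + 2 * Real.pi * (5 + 2 * L)) := by
            gcongr
            linarith
          have h3 : α / 2 * (4 * Real.pi + 2 * Real.pi * Real.log (24 / α ^ 2)) ≤
              Real.pi * (4 * t + t * (14 + 4 * L)) := by
            calc α / 2 * (4 * Real.pi + 2 * Real.pi * Real.log (24 / α ^ 2)) =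
                Real.pi * (2 * α + α * Real.log (24 / α ^ 2)) := by ring
              _ ≤ Real.pi * (2 * (2 * t) + t * (14 + 4 * L)) := by gcongr
              _ = _ := by ring
          refine (add_le_add h2 h3).trans ?_
          have h4 : 3 * t / 2 * (4 * Real.pi + 2 * Real.pi * (5 + 2 * L)) +
              Real.pi * (4 * t + t * (14 + 4 * L)) = Real.pi * (t * (39 + 10 * L)) := by ring
          rw [h4]
          have h5 : t * (39 + 10 * L) ≤ 200 * (t * (1 + L)) := by nlinarith [mul_nonneg ht0.le hL0]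
          calc Real.pi * (t * (39 + 10 * L)) ≤ Real.pi * (200 * (t * (1 + L))) := by gcongr
            _ = _ := by ring
  · -- near
    have hsα : s ≤ 5 / 2 * α := by
      have h1 : a + b = 2 * a - (a - b) := by ring
      have h2 := norm_sub_le (2 * a) (a - b)
      rw [← h1, ← hs, norm_mul, Complex.norm_ofNat, ← hα, ← ht] at h2
      linarith
    have hst : 3 * t ≤ s := by
      have h1 : 2 * a = (a + b) + (a - b) := by ring
      have h2 := norm_add_le (a + b) (a - b)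
      rw [← h1, ← hs, norm_mul, Complex.norm_ofNat, ← hα, ← ht] at h2
      linarith
    obtain ⟨κ, hκ⟩ : ∃ κ, κ = (t / 2) * (α * s) * (16 / 9 / α ^ 4) := ⟨_, rfl⟩
    obtain ⟨κ', hκ'⟩ : ∃ κ', κ' = (t / 2) * (α * s) * (4 / α ^ 2) := ⟨_, rfl⟩
    have hκ0 : 0 ≤ κ := by rw [hκ]; positivity
    have hκ0' : 0 ≤ κ' := by rw [hκ']; positivity
    have hpt : ∀ y : ℂ, ENNReal.ofReal (ker2 c a b y) ≤
        ENNReal.ofReal (t / 2) * ENNReal.ofReal (‖y - c‖⁻¹ * ‖y - (c + b ^ 2)‖⁻¹) +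
        (ENNReal.ofReal κ * (ball c (α ^ 2 / 4)).indicator
          (fun y => ENNReal.ofReal (‖y - c‖⁻¹)) y +
        ENNReal.ofReal κ' * ENNReal.ofReal (‖y - (c + a ^ 2)‖⁻¹ * ‖y - (c + b ^ 2)‖⁻¹)) := by
      intro y
      by_cases hy : y ∈ ball c (α ^ 2 / 4)
      · rw [indicator_of_mem hy, ← ENNReal.ofReal_mul (by positivity),
          ← ENNReal.ofReal_mul hκ0, ← ENNReal.ofReal_mul hκ0',
          ← ENNReal.ofReal_add (by positivity) (by positivity),
          ← ENNReal.ofReal_add (by positivity) (by positivity)]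
        apply ENNReal.ofReal_le_ofReal
        refine (hpt0 y).trans ?_
        rw [mem_ball, dist_eq_norm] at hy
        have hv : 3 / 4 * α ^ 2 ≤ ‖y - (c + a ^ 2)‖ := by
          have h1 : a ^ 2 = (y - c) - (y - (c + a ^ 2)) := by ring
          have h2 := norm_sub_le (y - c) (y - (c + a ^ 2))
          rw [← h1, norm_pow, ← hα] at h2
          linarith
        have hw : 3 / 4 * α ^ 2 ≤ ‖y - (c + b ^ 2)‖ := by
          have h1 : b ^ 2 = (y - c) - (y - (c + b ^ 2)) := by ring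
          have h2 := norm_sub_le (y - c) (y - (c + b ^ 2))
          rw [← h1, norm_pow, ← hβ] at h2
          nlinarith
        have hv' : ‖y - (c + a ^ 2)‖⁻¹ ≤ (3 / 4 * α ^ 2)⁻¹ := inv_anti₀ (by positivity) hv
        have hw' : ‖y - (c + b ^ 2)‖⁻¹ ≤ (3 / 4 * α ^ 2)⁻¹ := inv_anti₀ (by positivity) hw
        have h3 : (t / 2) * (α * s) * (‖y - c‖⁻¹ * (‖y - (c + a ^ 2)‖⁻¹ * ‖y - (c + b ^ 2)‖⁻¹)) ≤
            κ * ‖y - c‖⁻¹ := by
          calc (t / 2) * (α * s) * (‖y - c‖⁻¹ * (‖y - (c + a ^ 2)‖⁻¹ * ‖y - (c + b ^ 2)‖⁻¹))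
              ≤ (t / 2) * (α * s) * (‖y - c‖⁻¹ * ((3 / 4 * α ^ 2)⁻¹ * (3 / 4 * α ^ 2)⁻¹)) := by
                gcongr
            _ = κ * ‖y - c‖⁻¹ := by
                rw [hκ]
                field_simp
                norm_num
        have h4 : 0 ≤ κ' * (‖y - (c + a ^ 2)‖⁻¹ * ‖y - (c + b ^ 2)‖⁻¹) := by positivity
        linarith
      · rw [indicator_of_notMem hy, mul_zero, zero_add, ← ENNReal.ofReal_mul (by positivity),
          ← ENNReal.ofReal_mul hκ0', ← ENNReal.ofReal_add (by positivity) (by positivity)]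
        apply ENNReal.ofReal_le_ofReal
        refine (hpt0 y).trans ?_
        rw [mem_ball, dist_eq_norm, not_lt] at hy
        have hu' : ‖y - c‖⁻¹ ≤ (α ^ 2 / 4)⁻¹ := inv_anti₀ (by positivity) hy
        have h3 : (t / 2) * (α * s) * (‖y - c‖⁻¹ * (‖y - (c + a ^ 2)‖⁻¹ * ‖y - (c + b ^ 2)‖⁻¹)) ≤
            κ' * (‖y - (c + a ^ 2)‖⁻¹ * ‖y - (c + b ^ 2)‖⁻¹) := by
          calc (t / 2) * (α * s) * (‖y - c‖⁻¹ * (‖y - (c + a ^ 2)‖⁻¹ * ‖y - (c + b ^ 2)‖⁻¹))
              ≤ (t / 2) * (α * s) * ((α ^ 2 / 4)⁻¹ *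
                  (‖y - (c + a ^ 2)‖⁻¹ * ‖y - (c + b ^ 2)‖⁻¹)) := by gcongr
            _ = _ := by
                rw [hκ']
                field_simp
        linarith
    have hm : Measurable ((ball c (α ^ 2 / 4)).indicator
        (fun y : ℂ => ENNReal.ofReal (‖y - c‖⁻¹))) :=
      Measurable.indicator (by fun_prop) isOpen_ball.measurableSet
    refine (lintegral_mono hpt).trans ?_
    rw [lintegral_add_left (by fun_prop), lintegral_add_left (hm.const_mul _),
      lintegral_const_mul' _ _ ENNReal.ofReal_ne_top,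
      lintegral_const_mul' _ _ ENNReal.ofReal_ne_top,
      lintegral_const_mul' _ _ ENNReal.ofReal_ne_top]
    have h0 : ∫⁻ y in ball (0:ℂ) 4, (ball c (α ^ 2 / 4)).indicator
        (fun y : ℂ => ENNReal.ofReal (‖y - c‖⁻¹)) y ≤
        ENNReal.ofReal (2 * Real.pi * (α ^ 2 / 4)) := by
      refine (setLIntegral_le_lintegral _ _).trans ?_
      rw [lintegral_indicator isOpen_ball.measurableSet]
      exact kern_one c
    calc _ ≤ ENNReal.ofReal (t / 2) *
          ENNReal.ofReal (4 * Real.pi + 2 * Real.pi * Real.log (24 / β ^ 2)) +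
          (ENNReal.ofReal κ * ENNReal.ofReal (2 * Real.pi * (α ^ 2 / 4)) +
          ENNReal.ofReal κ' *
          ENNReal.ofReal (4 * Real.pi + 2 * Real.pi * Real.log (24 / (t * s)))) := by gcongr
      _ = ENNReal.ofReal (t / 2 * (4 * Real.pi + 2 * Real.pi * Real.log (24 / β ^ 2)) +
          (κ * (2 * Real.pi * (α ^ 2 / 4)) +
          κ' * (4 * Real.pi + 2 * Real.pi * Real.log (24 / (t * s))))) := by
          rw [← ENNReal.ofReal_mul (by positivity), ← ENNReal.ofReal_mul (by positivity),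
            ← ENNReal.ofReal_mul (by positivity),
            ← ENNReal.ofReal_add (by positivity) (by positivity),
            ← ENNReal.ofReal_add (by positivity) (by positivity)]
      _ ≤ _ := by
          apply ENNReal.ofReal_le_ofReal
          rw [← ht, ← hL]
          have h1 : t / 2 * (4 * Real.pi + 2 * Real.pi * Real.log (24 / β ^ 2)) ≤
              t / 2 * (4 * Real.pi + 2 * Real.pi * (5 + 2 * L)) := by gcongr
          have h2 : κ * (2 * Real.pi * (α ^ 2 / 4)) = Real.pi * (t * (s / α) * (4 / 9)) := by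
            rw [hκ]
            field_simp
            norm_num
          have h3 : s / α ≤ 5 / 2 := by
            rw [div_le_iff₀ hα0]
            exact hsα
          have h4 : Real.log (24 / (t * s)) ≤ 5 + 2 * L := by
            have h5 : 24 / (t * s) ≤ 24 / (t / 2) ^ 2 := by
              apply div_le_div_of_nonneg_left (by norm_num) (by positivity)
              nlinarith
            refine (Real.log_le_log (by positivity) h5).trans ?_
            rw [hL]
            exact scal1 ht0 le_rfl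
          have h5 : κ' * (4 * Real.pi + 2 * Real.pi * Real.log (24 / (t * s))) ≤
              2 * t * (5 / 2) * (4 * Real.pi + 2 * Real.pi * (5 + 2 * L)) := by
            have h6 : κ' = 2 * t * (s / α) := by
              rw [hκ']
              field_simp
              norm_num
            rw [h6]
            gcongr
          rw [h2]
          have h6 : Real.pi * (t * (s / α) * (4 / 9)) ≤ Real.pi * (t * (5 / 2) * (4 / 9)) := by
            gcongr
          refine (add_le_add h1 (add_le_add h6 h5)).trans ?_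
          have h7 : t / 2 * (4 * Real.pi + 2 * Real.pi * (5 + 2 * L)) +
              (Real.pi * (t * (5 / 2) * (4 / 9)) +
              2 * t * (5 / 2) * (4 * Real.pi + 2 * Real.pi * (5 + 2 * L))) =
              Real.pi * (t * (77 + 10 / 9 + 22 * L)) := by ring
          rw [h7]
          have h8 : t * (77 + 10 / 9 + 22 * L) ≤ 200 * (t * (1 + L)) := by
            nlinarith [mul_nonneg ht0.le hL0]
          calc Real.pi * (t * (77 + 10 / 9 + 22 * L)) ≤ Real.pi * (200 * (t * (1 + L))) := by gcongr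
            _ = _ := by ring

end Pool.Agent.K6.H26.ML
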