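import Pool.Agent.R240.Univ4
import Pool.Agent.R240.Res3

set_option autoImplicit false

/-! # The Newton step for the difference of two points of the critical orbit -/

namespace Pool.Agent.K6.H26.ML

open Complex Metric Set Filter Topology N62a1eb23
open Pool.Agent.H712R2 Pool.Agent.H713R2 Pool.Agent.R240 Pool.Agent.R240.Univ

/-- the bound of a zero-free point of the critical orbit -/
noncomputable def KV : ℝ := (2 + SH 17) * (5 / 4) * 2

theorem KV_one : 1 ≤ KV := by
  have := one_le_SH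
  unfold KV
  linarith

theorem free_bound {c : ℂ} {N : ℕ} (hc : ‖P 2 (N + 1) c‖ ≤ 2) (hc2 : ‖c‖ ≤ 2) {ρ : ℝ}
    (hρ0 : 0 < ρ) (hfree : ∀ x ∈ ball c ρ, P 2 (N + 1) x ≠ 0) {x : ℂ} (hx : x ∈ ball c (ρ / 4)) :
    ‖P 2 (N + 1) x‖ ≤ KV := by
  have hd : 2 ≤ 2 := le_rfl
  have hρc : ρ ≤ ‖c‖ := by
    by_contra hcon
    push Not at hcon
    apply hfree 0 _ (P_at_zero hd _)
    rw [mem_ball, dist_zero_left]
    exact hcon
  have hc0 : 0 < ‖c‖ := hρ0.trans_le hρc
  have hA : ‖P 2 N c‖ ^ 2 ≤ 17 * ‖c‖ := by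
    rcases le_total ‖c‖ (1 / 8) with h | h
    · have h1 := P_small hd h N
      nlinarith [norm_nonneg (P 2 N c)]
    · have h1 : P 2 N c ^ 2 = P 2 (N + 1) c - c := by
        rw [P_succ]; ring
      rw [← norm_pow, h1]
      refine (norm_sub_le _ _).trans ?_
      linarith
  rw [mem_ball, dist_eq_norm] at hx
  have hρC : (ρ : ℂ) ≠ 0 := by exact_mod_cast hρ0.ne'
  have h1 := disc_step (N := N) hd (γ := fun t => c + ρ * t) (by fun_prop) (fun t ht => by
    rw [mem_ball_zero_iff] at ht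
    apply hfree
    rw [mem_ball, dist_eq_norm, add_sub_cancel_left, norm_mul, Complex.norm_real,
      Real.norm_eq_abs, abs_of_pos hρ0]
    nlinarith) (A := 17) (by norm_num) (by simpa using hA) (t := (x - c) / ρ) (by
    rw [norm_div, Complex.norm_real, Real.norm_eq_abs, abs_of_pos hρ0, div_le_iff₀ hρ0]
    linarith)
  have h2 : c + ρ * ((x - c) / ρ) = x := by
    field_simp
    ring
  simp only [h2] at h1
  have h3 : ‖x‖ ≤ 5 / 4 * ‖c‖ := by
    have h4 := norm_add_le (x - c) c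
    rw [sub_add_cancel] at h4
    linarith
  have h4 : ‖P 2 (N + 1) x‖ ≤ ‖P 2 N x‖ ^ 2 + ‖x‖ := by
    rw [P_succ]
    refine (norm_add_le _ _).trans ?_
    rw [norm_pow]
  have h5 := one_le_SH
  have h6 : SH 17 * ‖x‖ ≤ SH 17 * (5 / 4 * ‖c‖) := by gcongr
  have h7 : SH 17 * (5 / 4 * ‖c‖) ≤ SH 17 * (5 / 4 * 2) := by gcongr
  unfold KV
  nlinarith

/-- Newton's step on a zero-free disc -/
theorem newton_free {c : ℂ} (hc : c ∈ multibrotSet 2) {n : ℕ} (hn : 1 ≤ n) {ρ : ℝ}
    (hfree : ∀ x ∈ ball c ρ, P 2 n x ≠ 0) :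
    ρ * ‖vel 2 c (fun _ => 1) n‖ ≤ KN * ‖P 2 n c‖ * (1 + |Real.log ‖P 2 n c‖|) := by
  obtain ⟨N, rfl⟩ : ∃ N, n = N + 1 := ⟨n - 1, by omega⟩
  obtain ⟨c', h1, h2⟩ := newton (N := N) (d := 2) le_rfl (norm_P_le le_rfl hc (N + 1))
    (norm_c_le le_rfl hc)
  rw [(vel_one c (N + 1)).deriv] at h2
  refine le_trans ?_ h2
  gcongr
  by_contra hcon
  push Not at hcon
  apply hfree c' _ h1
  rw [mem_ball, dist_eq_norm]
  exact hcon

theorem phi_mono {X y : ℝ} (hX : 0 ≤ X) (hXy : X ≤ 2 * y) :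
    X * (1 + |Real.log X|) ≤ 4 * (y * (1 + |Real.log y|)) := by
  rcases hX.eq_or_lt with rfl | hX0
  · have hy : 0 ≤ y := by linarith
    rw [zero_mul]
    positivity
  have hy : 0 < y := by linarith
  have hL := abs_nonneg (Real.log y)
  have h2 : Real.log 2 ≤ 1 := by
    have := Real.log_two_lt_d9
    linarith
  have h1 : Real.log X ≤ 1 + |Real.log y| := by
    have h3 := Real.log_le_log hX0 hXy
    rw [Real.log_mul (by norm_num) hy.ne'] at h3
    have := le_abs_self (Real.log y)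
    linarith
  rcases le_total 0 (Real.log X) with h | h
  · rw [abs_of_nonneg h]
    nlinarith
  · rw [abs_of_nonpos h]
    -- `- X log X ≤ - X log (X / (2 y)) - X log (2 y)`
    have h3 : -Real.log X ≤ -Real.log (X / (2 * y)) + |Real.log y| + 0 := by
      rw [Real.log_div hX0.ne' (by positivity), Real.log_mul (by norm_num) hy.ne']
      have := neg_abs_le (Real.log y)
      have h4 : 0 ≤ Real.log 2 := Real.log_nonneg (by norm_num)
      linarith
    have h4 : -Real.log (X / (2 * y)) ≤ 2 * y / X - 1 := by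
      have h5 := Real.log_le_sub_one_of_pos (show 0 < 2 * y / X by positivity)
      have h6 : Real.log (2 * y / X) = -Real.log (X / (2 * y)) := by
        rw [← inv_div, Real.log_inv]
      rw [h6] at h5
      exact h5
    have h5 : X * (2 * y / X - 1) = 2 * y - X := by
      field_simp
    have h6 : X * -Real.log X ≤ 2 * y - X + X * |Real.log y| := by
      have h7 := mul_le_mul_of_nonneg_left h3 hX0.le
      have h8 := mul_le_mul_of_nonneg_left h4 hX0.le
      rw [h5] at h8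
      nlinarith
    have h7 : X * |Real.log y| ≤ 2 * y * |Real.log y| := by gcongr
    nlinarith

/-- the bound of the difference -/
noncomputable def KB : ℝ := KV ^ 2 * (SH 2 + 1) + 1

/-- the constant -/
noncomputable def KP : ℝ := 16 * KN + 8 * (Real.log KB + 1)

theorem KB_one : 1 ≤ KB := by
  have h1 := KV_one
  have h2 : 1 ≤ SH 2 := SH_one (by norm_num)
  unfold KB
  nlinarith [sq_nonneg KV]

theorem KP_pos : 0 < KP := by
  have h1 := KN_pos
  have h2 := Real.log_nonneg KB_one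
  unfold KP
  positivity

theorem newton_pair {c : ℂ} (hc : c ∈ multibrotSet 2) {k n : ℕ} (hk : 1 ≤ k) (hkn : k < n) {ρ : ℝ}
    (hρ : 0 < ρ) (h1 : ∀ x ∈ ball c ρ, P 2 n x ≠ P 2 k x) (h2 : ∀ x ∈ ball c ρ, P 2 (n - 1) x ≠ 0)
    (h3 : k = 1 ∨ ∀ x ∈ ball c ρ, P 2 (k - 1) x ≠ 0) :
    ρ * ‖vel 2 c (fun _ => 1) n - vel 2 c (fun _ => 1) k‖ ≤
      KP * (‖P 2 n c - P 2 k c‖ * (1 + |Real.log ‖P 2 n c - P 2 k c‖|)) := by
  have hKN := KN_pos
  have hKB := KB_one
  have hlogB : 0 ≤ Real.log KB := Real.log_nonneg hKB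
  obtain ⟨m, rfl⟩ : ∃ m, n = m + 1 := ⟨n - 1, by omega⟩
  obtain ⟨l, rfl⟩ : ∃ l, k = l + 1 := ⟨k - 1, by omega⟩
  rw [Nat.add_sub_cancel] at h2 h3
  have hcc : c ∈ ball c ρ := mem_ball_self hρ
  have hFm : P 2 (m + 1) c - P 2 (l + 1) c = P 2 m c ^ 2 - P 2 l c ^ 2 := by
    rw [P_succ, P_succ]; ring
  have hVm : vel 2 c (fun _ => 1) (m + 1) - vel 2 c (fun _ => 1) (l + 1) =
      2 * P 2 m c * vel 2 c (fun _ => 1) m - 2 * P 2 l c * vel 2 c (fun _ => 1) l := by
    have e1 : vel 2 c (fun _ => 1) (m + 1) =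
        ((2 : ℕ) : ℂ) * P 2 m c ^ (2 - 1) * vel 2 c (fun _ => 1) m + 1 := rfl
    have e2 : vel 2 c (fun _ => 1) (l + 1) =
        ((2 : ℕ) : ℂ) * P 2 l c ^ (2 - 1) * vel 2 c (fun _ => 1) l + 1 := rfl
    rw [e1, e2]
    push_cast
    ring
  have hF0 : P 2 (m + 1) c - P 2 (l + 1) c ≠ 0 := sub_ne_zero.2 (h1 c hcc)
  obtain ⟨y, hy⟩ : ∃ y, y = ‖P 2 (m + 1) c - P 2 (l + 1) c‖ := ⟨_, rfl⟩
  have hy0 : 0 < y := by rw [hy]; exact norm_pos_iff.2 hF0
  have hφ0 : 0 ≤ y * (1 + |Real.log y|) := by positivity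
  rw [← hy]
  by_cases hcase : 2 * ‖P 2 l c‖ ^ 2 < ‖P 2 m c‖ ^ 2
  · -- the first case
    have hX : ‖P 2 m c‖ ^ 2 ≤ 2 * y := by
      have h4 : ‖P 2 m c‖ ^ 2 ≤ y + ‖P 2 l c‖ ^ 2 := by
        rw [hy, hFm, ← norm_pow, ← norm_pow]
        calc ‖P 2 m c ^ 2‖ = ‖(P 2 m c ^ 2 - P 2 l c ^ 2) + P 2 l c ^ 2‖ := by congr 1; ring
          _ ≤ _ := norm_add_le _ _
      linarith
    have hX' : ‖P 2 l c‖ ^ 2 ≤ 2 * y := by
      have := sq_nonneg ‖P 2 l c‖
      linarith
    have key : ∀ j : ℕ, (j = 0 ∨ ∀ x ∈ ball c ρ, P 2 j x ≠ 0) → ‖P 2 j c‖ ^ 2 ≤ 2 * y →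
        ρ * ‖2 * P 2 j c * vel 2 c (fun _ => 1) j‖ ≤ 8 * KN * (y * (1 + |Real.log y|)) := by
      intro j hj hj2
      rcases Nat.eq_zero_or_pos j with rfl | hj0
      · simp only [P_zero, mul_zero, zero_mul, norm_zero]
        positivity
      have hj : ∀ x ∈ ball c ρ, P 2 j x ≠ 0 := hj.resolve_left (by omega)
      have h4 := newton_free hc hj0 hj
      obtain ⟨a, ha⟩ : ∃ a, a = ‖P 2 j c‖ := ⟨_, rfl⟩
      have ha0 : 0 ≤ a := by rw [ha]; exact norm_nonneg _
      rw [norm_mul, norm_mul, Complex.norm_ofNat]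
      rw [← ha] at h4 hj2 ⊢
      have h5 := phi_mono (sq_nonneg a) hj2
      have h6 : |Real.log a| ≤ |Real.log (a ^ 2)| := by
        rw [Real.log_pow, abs_mul]
        have := abs_nonneg (Real.log a)
        norm_num
        linarith
      calc ρ * (2 * a * ‖vel 2 c (fun _ => 1) j‖) = 2 * a * (ρ * ‖vel 2 c (fun _ => 1) j‖) := by ring
        _ ≤ 2 * a * (KN * a * (1 + |Real.log a|)) := by gcongr
        _ = 2 * KN * (a ^ 2 * (1 + |Real.log a|)) := by ring
        _ ≤ 2 * KN * (a ^ 2 * (1 + |Real.log (a ^ 2)|)) := by gcongr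
        _ ≤ 2 * KN * (4 * (y * (1 + |Real.log y|))) := by gcongr
        _ = _ := by ring
    have k1 := key m (Or.inr h2) hX
    have k2 := key l (h3.imp (fun h => by omega) fun h => h) hX'
    rw [hVm]
    have h5 := mul_le_mul_of_nonneg_left (norm_sub_le (2 * P 2 m c * vel 2 c (fun _ => 1) m)
      (2 * P 2 l c * vel 2 c (fun _ => 1) l)) hρ.le
    rw [mul_add] at h5
    have h6 : 16 * KN * (y * (1 + |Real.log y|)) ≤ KP * (y * (1 + |Real.log y|)) := by
      apply mul_le_mul_of_nonneg_right _ hφ0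
      unfold KP
      linarith
    linarith
  · -- the second case
    push Not at hcase
    have hm0 : P 2 m c ≠ 0 := h2 c hcc
    have hl0 : l ≠ 0 := by
      rintro rfl
      rw [P_zero, norm_zero] at hcase
      have : 0 < ‖P 2 m c‖ := norm_pos_iff.2 hm0
      have := pow_pos this 2
      linarith
    have h3' : ∀ x ∈ ball c ρ, P 2 l x ≠ 0 := h3.resolve_left (by omega)
    have hmap : ∀ t ∈ ball (0:ℂ) 1, c + ρ * t ∈ ball c ρ := by
      intro t ht
      rw [mem_ball_zero_iff] at ht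
      rw [mem_ball, dist_eq_norm, add_sub_cancel_left, norm_mul, Complex.norm_real,
        Real.norm_eq_abs, abs_of_pos hρ]
      nlinarith
    have hh : ∀ {t : ℂ}, ‖t‖ ≤ 1 / 4 → ‖P 2 m (c + ρ * t) / P 2 l (c + ρ * t)‖ ^ 2 ≤ SH 2 :=
      fun {t} ht => omit_roots (d := 2) le_rfl
      (g := fun t => P 2 m (c + ρ * t) / P 2 l (c + ρ * t)) (by
        apply DifferentiableOn.fun_div
        · exact ((differentiable_P 2 m).comp (by fun_prop :
            Differentiable ℂ fun t : ℂ => c + ρ * t)).differentiableOn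
        · exact ((differentiable_P 2 l).comp (by fun_prop :
            Differentiable ℂ fun t : ℂ => c + ρ * t)).differentiableOn
        · intro t ht
          exact h3' _ (hmap t ht))
      (by
        intro t ht h0
        apply h1 _ (hmap t ht)
        have h4 := h3' _ (hmap t ht)
        rw [div_pow, div_eq_one_iff_eq (pow_ne_zero 2 h4)] at h0
        rw [P_succ, P_succ, h0]) (A := 2) (by norm_num) (by
        have h4 := h3' c hcc
        simp only [mul_zero, add_zero]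
        rw [norm_div, div_pow, div_le_iff₀ (pow_pos (norm_pos_iff.2 h4) 2)]
        exact hcase) ht
    have hB : ∀ x ∈ ball c (ρ / 4), ‖P 2 (m + 1) x - P 2 (l + 1) x‖ < KB := by
      intro x hx
      have hx' := hx
      rw [mem_ball, dist_eq_norm] at hx'
      have hρC : (ρ : ℂ) ≠ 0 := by exact_mod_cast hρ.ne'
      have h4 := hh (t := (x - c) / ρ) (by
        rw [norm_div, Complex.norm_real, Real.norm_eq_abs, abs_of_pos hρ, div_le_iff₀ hρ]
        linarith)
      have h5 : c + ρ * ((x - c) / ρ) = x := by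
        field_simp
        ring
      simp only [h5] at h4
      have hxρ : x ∈ ball c ρ := ball_subset_ball (by linarith) hx
      have h6 := h3' x hxρ
      have h6' : 0 < ‖P 2 l x‖ := norm_pos_iff.2 h6
      obtain ⟨L, rfl⟩ : ∃ L, l = L + 1 := ⟨l - 1, by omega⟩
      have h7 := free_bound (norm_P_le le_rfl hc (L + 1)) (norm_c_le le_rfl hc) hρ h3' hx
      rw [norm_div, div_pow, div_le_iff₀ (by positivity)] at h4
      have h8 : ‖P 2 (m + 1) x - P 2 (L + 1 + 1) x‖ ≤ ‖P 2 m x‖ ^ 2 + ‖P 2 (L + 1) x‖ ^ 2 := by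
        have h9 : P 2 (m + 1) x - P 2 (L + 1 + 1) x = P 2 m x ^ 2 - P 2 (L + 1) x ^ 2 := by
          rw [P_succ, P_succ]; ring
        rw [h9, ← norm_pow, ← norm_pow]
        exact norm_sub_le _ _
      have h9 : ‖P 2 (L + 1) x‖ ^ 2 ≤ KV ^ 2 := by gcongr
      have h10 : 1 ≤ SH 2 := SH_one (by norm_num)
      unfold KB
      nlinarith
    have hS := Pool.Agent.W746.LD.schwarz_log (F := fun x => P 2 (m + 1) x - P 2 (l + 1) x) (a := c)
      (r := ρ / 4) (B := KB) (by positivity)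
      ((differentiable_P 2 (m + 1)).sub (differentiable_P 2 (l + 1))).differentiableOn
      (fun t ht => sub_ne_zero.2 (h1 t (ball_subset_ball (by linarith) ht))) hB
    have hder : deriv (fun x => P 2 (m + 1) x - P 2 (l + 1) x) c =
        vel 2 c (fun _ => 1) (m + 1) - vel 2 c (fun _ => 1) (l + 1) :=
      ((vel_one c (m + 1)).sub (vel_one c (l + 1))).deriv
    rw [hder, ← hy] at hS
    have hlog : Real.log (KB / y) ≤ Real.log KB + |Real.log y| := by
      rw [Real.log_div (by linarith) hy0.ne']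
      have := neg_abs_le (Real.log y)
      linarith
    have hL := abs_nonneg (Real.log y)
    have h4 : ρ * ‖vel 2 c (fun _ => 1) (m + 1) - vel 2 c (fun _ => 1) (l + 1)‖ ≤
        8 * (y * (Real.log KB + |Real.log y|)) := by
      have := mul_le_mul_of_nonneg_left hlog (show 0 ≤ 2 * y by positivity)
      nlinarith
    refine h4.trans ?_
    have h5 : y * (Real.log KB + |Real.log y|) ≤ (Real.log KB + 1) * (y * (1 + |Real.log y|)) := by
      have h6 : Real.log KB + |Real.log y| ≤ (Real.log KB + 1) * (1 + |Real.log y|) := by nlinarith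
      calc y * (Real.log KB + |Real.log y|) ≤ y * ((Real.log KB + 1) * (1 + |Real.log y|)) := by
            gcongr
        _ = _ := by ring
    have h6 : 8 * (Real.log KB + 1) * (y * (1 + |Real.log y|)) ≤ KP * (y * (1 + |Real.log y|)) := by
      apply mul_le_mul_of_nonneg_right _ hφ0
      unfold KP
      linarith
    linarith

end Pool.Agent.K6.H26.ML
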