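import Pool.Agent.K6.H26.ML.UP
import Pool.Agent.K6.H26.ML.NP
import Pool.Agent.K6.H26.ML.Dm
import Pool.Agent.R240.Res3

set_option autoImplicit false

/-! # Quasi-Lipschitz velocities of the critical orbit -/

namespace Pool.Agent.K6.H26.ML

open Complex Filter Topology Set Metric MeasureTheory Pool.Agent.H713R2
open N62a1eb23
open Pool.Agent.H712R2 (P P_succ P_one P_zero fc continuous_P mem_multibrot_iff)
open Pool.Agent.Y736.RN
open Pool.Agent.R240.Res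
open Pool.Agent.R240.Univ (vel norm_P_le norm_c_le)

/-- the constant -/
noncomputable def KQ : ℝ := max KR (4 * KP + 67)

theorem KQ_pos : 0 < KQ := KR_pos.trans_le (le_max_left _ _)

/-- the relative velocities -/
theorem vel_pair {c : ℂ} (hc : c ∈ multibrotSet 2) {k n : ℕ} (hk : 1 ≤ k) (hkn : k < n) {ρ : ℝ}
    (hρ : 0 < ρ) (hρ1 : ρ ≤ 1)
    (h0 : ∀ i, 1 ≤ i → i ≤ n → P 2 i c ≠ 0) (hne : P 2 (k + 1) c ≠ P 2 (n + 1) c)
    (h1 : ∀ x ∈ ball c ρ, P 2 n x ≠ P 2 k x) (h2 : ∀ x ∈ ball c ρ, P 2 (n - 1) x ≠ 0)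
    (h3 : k = 1 ∨ ∀ x ∈ ball c ρ, P 2 (k - 1) x ≠ 0) {Φ : ℂ → ℂ} {M : ℝ}
    (hΦ : DifferentiableOn ℂ Φ (ball 0 4)) (hM : ∀ x ∈ ball (0:ℂ) 4, ‖Φ x‖ ≤ M) :
    ‖vel 2 c Φ n - vel 2 c Φ k‖ ≤ (4 * KP + 67) * M * ρ⁻¹ *
      (‖P 2 n c - P 2 k c‖ * (1 + |Real.log ‖P 2 n c - P 2 k c‖|)) := by
  have hM0 : 0 ≤ M := (norm_nonneg _).trans (hM 0 (mem_ball_self (by norm_num)))
  have hKP := KP_pos
  have h4 := univ_pair hc hk hkn h0 hne hΦ hM
  have h5 := newton_pair hc hk hkn hρ h1 h2 h3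
  rw [norm_sub_rev (P 2 k c)] at h4
  obtain ⟨φ, hφ⟩ : ∃ φ, φ = ‖P 2 n c - P 2 k c‖ * (1 + |Real.log ‖P 2 n c - P 2 k c‖|) := ⟨_, rfl⟩
  have hφ0 : 0 ≤ φ := by
    rw [hφ]
    have := abs_nonneg (Real.log ‖P 2 n c - P 2 k c‖)
    positivity
  rw [← hφ] at h4 h5 ⊢
  obtain ⟨v, hv⟩ : ∃ v, v = ‖vel 2 c (fun _ => 1) n - vel 2 c (fun _ => 1) k‖ := ⟨_, rfl⟩
  rw [← hv] at h4 h5
  have h6 : v ≤ ρ⁻¹ * (KP * φ) := by
    rw [inv_mul_eq_div, le_div_iff₀ hρ]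
    linarith
  have h7 : 1 ≤ ρ⁻¹ := (one_le_inv₀ hρ).2 hρ1
  calc ‖vel 2 c Φ n - vel 2 c Φ k‖ ≤ M * (4 * v + 67 * φ) := h4
    _ ≤ M * (4 * (ρ⁻¹ * (KP * φ)) + 67 * φ) := by gcongr
    _ ≤ M * (4 * (ρ⁻¹ * (KP * φ)) + ρ⁻¹ * (67 * φ)) := by
        have h8 : 67 * φ ≤ ρ⁻¹ * (67 * φ) := le_mul_of_one_le_left (by positivity) h7
        gcongr
    _ = _ := by ring

/-- the property at the exponent `X` -/
def FarP (q : ℕ) (X : ℝ) (c : ℂ) : Prop :=
  ∀ᶠ n : ℕ in atTop, ∀ k < n, (k = 0 ∨ q ∣ n - k) →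
    (∀ a : ℂ, P 2 n a = P 2 k a → Real.exp (-(X * n)) < ‖a - c‖) ∧
    ∀ (Φ : ℂ → ℂ) (M : ℝ), DifferentiableOn ℂ Φ (ball 0 4) →
      (∀ x ∈ ball (0 : ℂ) 4, ‖Φ x‖ ≤ M) →
      ‖vel 2 c Φ n - vel 2 c Φ k‖ ≤ KQ * M * Real.exp (X * n) *
        (‖P 2 n c - P 2 k c‖ * (1 + |Real.log ‖P 2 n c - P 2 k c‖|))

theorem farP_of_not_near {c : ℂ} (hc : c ∈ frontier (multibrotSet 2)) {q : ℕ} {X : ℝ}
    (hX : 0 < X) (h1 : ¬ Near 2 X c) (h2 : ¬ NearP q X c) : FarP q X c := by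
  have hcM : c ∈ multibrotSet 2 :=
    (Pool.Agent.H712R2.isCompact_multibrot le_rfl).isClosed.frontier_subset hc
  have hfar := far_of_not_near le_rfl hcM hX.le h1
  unfold Near at h1
  rw [not_frequently, eventually_atTop] at h1
  obtain ⟨N₁, hN₁⟩ := h1
  unfold NearP at h2
  rw [not_frequently, eventually_atTop] at h2
  obtain ⟨N₂, hN₂⟩ := h2
  have hN₁' : ∀ m ≥ N₁, ∀ a : ℂ, P 2 m a = 0 → Real.exp (-(X * m)) < ‖a - c‖ := by
    intro m hm a ha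
    by_contra hcon
    exact hN₁ m hm ⟨a, ha, not_lt.1 hcon⟩
  have hN₂' : ∀ n ≥ N₂, ∀ k, 1 ≤ k → k < n → q ∣ n - k → ∀ a : ℂ, P 2 n a = P 2 k a →
      Real.exp (-(X * n)) < ‖a - c‖ := by
    intro n hn k hk hkn hq a ha
    by_contra hcon
    exact hN₂ n hn ⟨k, hk, hkn, hq, a, ha, not_lt.1 hcon⟩
  -- the small indices
  obtain ⟨r₀, hr₀, hr₀'⟩ : ∃ r₀ > 0, ∀ i, 1 ≤ i → i < N₁ → ∀ x ∈ ball c r₀, P 2 i x ≠ 0 := by
    have h3 : IsOpen (⋂ i ∈ Finset.Ico 1 N₁, {x : ℂ | P 2 i x ≠ 0}) :=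
      isOpen_biInter_finset fun i _ => isOpen_ne_fun (continuous_P 2 i) continuous_const
    obtain ⟨r₀, hr₀, h4⟩ := Metric.isOpen_iff.1 h3 c (by
      simp only [mem_iInter, Finset.mem_Ico]
      intro i hi
      exact frontier_ne le_rfl hc hi.1)
    refine ⟨r₀, hr₀, fun i hi1 hi2 x hx => ?_⟩
    have h5 := h4 hx
    simp only [mem_iInter, Finset.mem_Ico] at h5
    exact h5 i ⟨hi1, hi2⟩
  have hlim : Tendsto (fun n : ℕ => Real.exp (-(X * n))) atTop (𝓝 0) := by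
    apply Real.tendsto_exp_neg_atTop_nhds_zero.comp
    exact Tendsto.const_mul_atTop hX tendsto_natCast_atTop_atTop
  filter_upwards [hfar, eventually_ge_atTop (N₁ + 1), eventually_ge_atTop N₂,
    eventually_ge_atTop 2, hlim.eventually (gt_mem_nhds hr₀)] with n hf hn1 hn2 hn3 hn4 k hkn hk
  rcases Nat.eq_zero_or_pos k with rfl | hk0
  · refine ⟨fun a ha => hf.1 a (by rw [ha, P_zero]), fun Φ M hΦ hM => ?_⟩
    have hM0 : 0 ≤ M := (norm_nonneg _).trans (hM 0 (mem_ball_self (by norm_num)))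
    have h3 := hf.2 Φ M hΦ hM
    have h4 : vel 2 c Φ 0 = 0 := rfl
    rw [h4, P_zero, sub_zero, sub_zero]
    refine h3.trans ?_
    have h5 : KR ≤ KQ := le_max_left _ _
    have h6 := abs_nonneg (Real.log ‖P 2 n c‖)
    gcongr
  have hq : q ∣ n - k := hk.resolve_left (by omega)
  refine ⟨hN₂' n hn2 k hk0 hkn hq, fun Φ M hΦ hM => ?_⟩
  have hM0 : 0 ≤ M := (norm_nonneg _).trans (hM 0 (mem_ball_self (by norm_num)))
  have hρ : 0 < Real.exp (-(X * n)) := Real.exp_pos _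
  have hρ1 : Real.exp (-(X * n)) ≤ 1 := by
    rw [Real.exp_le_one_iff]
    have : (0:ℝ) ≤ X * n := by positivity
    linarith
  have hfree : ∀ i, N₁ ≤ i → i ≤ n → ∀ x ∈ ball c (Real.exp (-(X * n))), P 2 i x ≠ 0 := by
    intro i hi1 hi2 x hx h0
    have h3 := hN₁' i hi1 x h0
    rw [mem_ball, dist_eq_norm] at hx
    have h4 : Real.exp (-(X * n)) ≤ Real.exp (-(X * i)) := by
      apply Real.exp_le_exp.2
      have : (i : ℝ) ≤ n := by exact_mod_cast hi2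
      nlinarith
    linarith
  have h3 := vel_pair hcM hk0 hkn hρ hρ1 (fun i hi _ => frontier_ne le_rfl hc hi)
    (by
      intro h0
      have h4 := hN₂' (n + 1) (by omega) (k + 1) (by omega) (by omega)
        (by rw [Nat.add_sub_add_right]; exact hq) c h0.symm
      rw [sub_self, norm_zero] at h4
      exact absurd h4 (not_lt.2 (Real.exp_pos _).le))
    (by
      intro x hx h0
      have h4 := hN₂' n hn2 k hk0 hkn hq x h0
      rw [mem_ball, dist_eq_norm] at hx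
      linarith)
    (hfree (n - 1) (by omega) (by omega))
    (by
      rcases Nat.lt_or_ge 1 k with hk1 | hk1
      · right
        rcases Nat.lt_or_ge (k - 1) N₁ with h4 | h4
        · intro x hx
          exact hr₀' (k - 1) (by omega) h4 x (ball_subset_ball hn4.le hx)
        · exact hfree (k - 1) h4 (by omega)
      · left
        omega) hΦ hM
  rw [← Real.exp_neg, neg_neg] at h3
  refine h3.trans ?_
  have h5 : 4 * KP + 67 ≤ KQ := le_max_right _ _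
  have h6 := abs_nonneg (Real.log ‖P 2 n c - P 2 k c‖)
  gcongr

/-- quasi-Lipschitz velocities -/
def QL (c : ℂ) : Prop :=
  ∀ q : ℕ, 1 ≤ q → (q = 1 ∨ RenC 2 c q) → ∀ X : ℝ, Real.log 2 / q < X → FarP q X c

/-- the exceptional parameters -/
theorem dim_bad {q : ℕ} (hq : 1 ≤ q) {X : ℝ} (hX : 0 < X) :
    dimH {c | c ∈ frontier (multibrotSet 2) ∧ RenC 2 c q ∧ (Near 2 X c ∨ NearP q X c)} ≤
      ENNReal.ofReal (Real.log 2 / (q * X)) := by
  have h1 : {c | c ∈ frontier (multibrotSet 2) ∧ RenC 2 c q ∧ (Near 2 X c ∨ NearP q X c)} ⊆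
      {c | c ∈ frontier (multibrotSet 2) ∧ RenC 2 c q ∧ Near 2 X c} ∪
        {c | c ∈ frontier (multibrotSet 2) ∧ Ren 2 c q ∧ NearP q X c} := by
    rintro c ⟨h1, h2, h3 | h3⟩
    · exact Or.inl ⟨h1, h2, h3⟩
    · exact Or.inr ⟨h1, h2.ren, h3⟩
  refine (dimH_mono h1).trans ?_
  rw [dimH_union]
  refine max_le ?_ (dim_nearP hq hX)
  have h2 := dim_near (d := 2) le_rfl hq hX
  push_cast at h2
  exact h2

/-- the parameters without quasi-Lipschitz velocities form a set of length zero -/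
theorem null_QL : μH[1] {c | c ∈ frontier (multibrotSet 2) ∧ ¬ QL c} = 0 := by
  have hlog2 : 0 < Real.log 2 := Real.log_pos (by norm_num)
  have h1 : {c | c ∈ frontier (multibrotSet 2) ∧ ¬ QL c} ⊆
      ⋃ (q : ℕ) (X : ℚ) (_ : 1 ≤ q) (_ : Real.log 2 / q < (X : ℝ)),
        {c | c ∈ frontier (multibrotSet 2) ∧ RenC 2 c q ∧ (Near 2 X c ∨ NearP q X c)} := by
    rintro c ⟨hc, hQ⟩
    have hcM : c ∈ multibrotSet 2 :=
      (Pool.Agent.H712R2.isCompact_multibrot le_rfl).isClosed.frontier_subset hc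
    unfold QL at hQ
    push Not at hQ
    obtain ⟨q, hq, hr, X, hX, hF⟩ := hQ
    obtain ⟨Y, hY1, hY2⟩ := exists_rat_btwn hX
    have hq0 : (0:ℝ) < q := by exact_mod_cast hq
    have hY0 : (0:ℝ) < Y := lt_trans (by positivity) hY1
    simp only [mem_iUnion]
    refine ⟨q, Y, hq, hY1, hc, ?_, ?_⟩
    · rcases hr with rfl | hr
      · exact renC_one le_rfl hcM
      · exact hr
    · by_contra hcon
      rw [not_or] at hcon
      apply hF
      apply farP_of_not_near hc (hY0.trans hY2)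
      · exact fun h => hcon.1 (h.mono hY2.le)
      · exact fun h => hcon.2 (h.mono hY2.le)
  refine measure_mono_null h1 ?_
  rw [measure_iUnion_null_iff]; intro q
  rw [measure_iUnion_null_iff]; intro X
  rw [measure_iUnion_null_iff]; intro hq
  rw [measure_iUnion_null_iff]; intro hX
  have hq0 : (0:ℝ) < q := by exact_mod_cast hq
  have hX0 : (0:ℝ) < X := lt_trans (by positivity) hX
  have h2 := dim_bad hq hX0
  have h3 : dimH {c | c ∈ frontier (multibrotSet 2) ∧ RenC 2 c q ∧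
      (Near 2 X c ∨ NearP q X c)} < 1 := by
    refine h2.trans_lt ?_
    rw [← ENNReal.ofReal_one, ENNReal.ofReal_lt_ofReal_iff one_pos, div_lt_one (by positivity)]
    rwa [div_lt_iff₀ hq0, mul_comm] at hX
  have h4 := hausdorffMeasure_of_dimH_lt (d := 1) (by simpa using h3)
  simpa using h4

/-- **Infinitely renormalizable parameters.** -/
theorem dim_inf :
    dimH {c | c ∈ frontier (multibrotSet 2) ∧ {p : ℕ | RenC 2 c p}.Infinite ∧
      ∃ X : ℝ, 0 < X ∧ {p : ℕ | RenC 2 c p ∧ (Near 2 X c ∨ NearP p X c)}.Infinite} = 0 := by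
  have hlog2 : 0 < Real.log 2 := Real.log_pos (by norm_num)
  have hsub : {c | c ∈ frontier (multibrotSet 2) ∧ {p : ℕ | RenC 2 c p}.Infinite ∧
      ∃ X : ℝ, 0 < X ∧ {p : ℕ | RenC 2 c p ∧ (Near 2 X c ∨ NearP p X c)}.Infinite} ⊆
      ⋃ k : ℕ, {c | c ∈ frontier (multibrotSet 2) ∧
        {p : ℕ | RenC 2 c p ∧ (Near 2 (1 / ((k : ℝ) + 1)) c ∨
          NearP p (1 / ((k : ℝ) + 1)) c)}.Infinite} := by
    rintro c ⟨h1, _, X, hX, h3⟩
    obtain ⟨k, hk⟩ := exists_nat_one_div_lt hX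
    refine mem_iUnion.2 ⟨k, h1, h3.mono ?_⟩
    rintro p ⟨h4, h5⟩
    exact ⟨h4, h5.imp (fun h => h.mono hk.le) fun h => h.mono hk.le⟩
  apply le_antisymm _ bot_le
  refine (dimH_mono hsub).trans ?_
  rw [dimH_iUnion]
  apply iSup_le
  intro k
  have hk0 : (0:ℝ) < 1 / ((k : ℝ) + 1) := by positivity
  have h1 : ∀ N : ℕ, dimH {c | c ∈ frontier (multibrotSet 2) ∧
        {p : ℕ | RenC 2 c p ∧ (Near 2 (1 / ((k : ℝ) + 1)) c ∨
          NearP p (1 / ((k : ℝ) + 1)) c)}.Infinite} ≤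
      ENNReal.ofReal ((Real.log 2 * ((k : ℝ) + 1)) / ((N : ℝ) + 1)) := by
    intro N
    have h2 : {c | c ∈ frontier (multibrotSet 2) ∧
        {p : ℕ | RenC 2 c p ∧ (Near 2 (1 / ((k : ℝ) + 1)) c ∨
          NearP p (1 / ((k : ℝ) + 1)) c)}.Infinite} ⊆
        ⋃ p : {p : ℕ // N + 1 ≤ p}, {c | c ∈ frontier (multibrotSet 2) ∧ RenC 2 c p ∧
          (Near 2 (1 / ((k : ℝ) + 1)) c ∨ NearP p (1 / ((k : ℝ) + 1)) c)} := by
      rintro c ⟨h3, h4⟩
      obtain ⟨p, hp, hpN⟩ := h4.exists_gt N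
      exact mem_iUnion.2 ⟨⟨p, hpN⟩, h3, hp⟩
    refine (dimH_mono h2).trans ?_
    rw [dimH_iUnion]
    apply iSup_le
    rintro ⟨p, hp⟩
    refine (dim_bad (q := p) (le_trans (Nat.le_add_left 1 N) hp) hk0).trans ?_
    apply ENNReal.ofReal_le_ofReal
    have h5 : ((N : ℝ) + 1) ≤ p := by exact_mod_cast hp
    have h6 : (0:ℝ) < p := lt_of_lt_of_le (by positivity) h5
    have h7 : Real.log 2 / (p * (1 / ((k : ℝ) + 1))) = Real.log 2 * ((k : ℝ) + 1) / p := by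
      field_simp
    rw [h7]
    gcongr
  have h2 : Tendsto (fun N : ℕ => ENNReal.ofReal ((Real.log 2 * ((k : ℝ) + 1)) / ((N : ℝ) + 1)))
      atTop (𝓝 (ENNReal.ofReal 0)) := by
    apply ENNReal.tendsto_ofReal
    have h3 := (tendsto_one_div_add_atTop_nhds_zero_nat (𝕜 := ℝ)).const_mul
      (Real.log 2 * ((k : ℝ) + 1))
    rw [mul_zero] at h3
    refine h3.congr fun N => ?_
    ring
  rw [ENNReal.ofReal_zero] at h2
  exact ge_of_tendsto' h2 h1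

end Pool.Agent.K6.H26.ML
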