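import Pool.Agent.R240.Univ4
import Pool.Agent.K6.H26.ML.Kern2

set_option autoImplicit false

/-! # Universal transversality for pairs of points of the critical orbit -/

namespace Pool.Agent.K6.H26.ML

open Complex Metric Set Filter Topology MeasureTheory ENNReal N62a1eb23
open Pool.Agent.H712R2 Pool.Agent.H713R2 Pool.Agent.R240.Push Pool.Agent.R240.Univ

/-- the difference of the normalised differentials of the orders `N' < N` -/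
noncomputable def qd (c : ℂ) (N' N : ℕ) (y : ℂ) : ℂ :=
  DD 2 c N * qq (N + 1) (fun k => (DD 2 c k)⁻¹) (zz 2 c) y -
    DD 2 c N' * qq (N' + 1) (fun k => (DD 2 c k)⁻¹) (zz 2 c) y

/-- the difference of the push-forwards -/
noncomputable def Gd (c : ℂ) (N' N : ℕ) (y : ℂ) : ℂ :=
  DD 2 c N * GG 2 c N y - DD 2 c N' * GG 2 c N' y

theorem Gd_meas (c : ℂ) (N' N : ℕ) : Measurable (Gd c N' N) := by
  unfold Gd
  exact ((GG_meas 2 c N).const_mul _).sub ((GG_meas 2 c N').const_mul _)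

theorem qd_meas (c : ℂ) (N' N : ℕ) : Measurable (qd c N' N) := by
  unfold qd
  exact ((qq_meas _ _ _).const_mul _).sub ((qq_meas _ _ _).const_mul _)

/-- the residues -/
noncomputable def rd (c : ℂ) (N' N : ℕ) (k : ℕ) : ℂ :=
  (DD 2 c k)⁻¹ * (DD 2 c N - if k ≤ N' then DD 2 c N' else 0)

theorem qd_eq (c : ℂ) {N' N : ℕ} (h : N' ≤ N) :
    qd c N' N = qq (N + 1) (rd c N' N) (zz 2 c) := by
  funext y
  unfold qd qq
  rw [Finset.mul_sum, Finset.mul_sum]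
  have h1 : ∑ i ∈ Finset.range (N' + 1), DD 2 c N' * ((DD 2 c i)⁻¹ / (y - zz 2 c i)) =
      ∑ i ∈ Finset.range (N + 1), if i ≤ N' then DD 2 c N' * ((DD 2 c i)⁻¹ / (y - zz 2 c i)) else 0 := by
    rw [← Finset.sum_filter]
    apply Finset.sum_congr _ fun _ _ => rfl
    ext i
    simp only [Finset.mem_filter, Finset.mem_range]
    omega
  rw [h1, ← Finset.sum_sub_distrib]
  apply Finset.sum_congr rfl
  intro k _
  unfold rd
  split_ifs <;> ring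

theorem rd_sum (c : ℂ) {N' N : ℕ} (h : N' ≤ N) (Φ : ℂ → ℂ) :
    ∑ k ∈ Finset.range (N + 1), rd c N' N k * Φ (zz 2 c k) =
      DD 2 c N * ∑ k ∈ Finset.range (N + 1), (DD 2 c k)⁻¹ * Φ (zz 2 c k) -
      DD 2 c N' * ∑ k ∈ Finset.range (N' + 1), (DD 2 c k)⁻¹ * Φ (zz 2 c k) := by
  rw [Finset.mul_sum, Finset.mul_sum]
  have h1 : ∑ i ∈ Finset.range (N' + 1), DD 2 c N' * ((DD 2 c i)⁻¹ * Φ (zz 2 c i)) =
      ∑ i ∈ Finset.range (N + 1), if i ≤ N' then DD 2 c N' * ((DD 2 c i)⁻¹ * Φ (zz 2 c i)) else 0 := by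
    rw [← Finset.sum_filter]
    apply Finset.sum_congr _ fun _ _ => rfl
    ext i
    simp only [Finset.mem_filter, Finset.mem_range]
    omega
  rw [h1, ← Finset.sum_sub_distrib]
  apply Finset.sum_congr rfl
  intro k _
  unfold rd
  split_ifs <;> ring

theorem Gd_push {ζ : ℂ} (hζ : IsPrimitiveRoot ζ 2) (c : ℂ) (N' N : ℕ) :
    ∀ᵐ x : ℂ, (((2 : ℕ) : ℂ) * x ^ (2 - 1)) ^ 2 * Gd c N' N (x ^ 2 + c) =
      ∑ i ∈ Finset.range 2, (ζ ^ i) ^ 2 * qd c N' N (ζ ^ i * x) := by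
  filter_upwards [GG_push le_rfl hζ c N, GG_push le_rfl hζ c N'] with x h1 h2
  unfold Gd qd
  have e1 : ∀ i, (ζ ^ i) ^ 2 * (DD 2 c N * qq (N + 1) (fun k => (DD 2 c k)⁻¹) (zz 2 c) (ζ ^ i * x) -
      DD 2 c N' * qq (N' + 1) (fun k => (DD 2 c k)⁻¹) (zz 2 c) (ζ ^ i * x)) =
      DD 2 c N * ((ζ ^ i) ^ 2 * qq (N + 1) (fun k => (DD 2 c k)⁻¹) (zz 2 c) (ζ ^ i * x)) -
      DD 2 c N' * ((ζ ^ i) ^ 2 * qq (N' + 1) (fun k => (DD 2 c k)⁻¹) (zz 2 c) (ζ ^ i * x)) := by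
    intro i; ring
  simp only [e1]
  rw [Finset.sum_sub_distrib, ← Finset.mul_sum, ← Finset.mul_sum, ← h1, ← h2]
  ring

theorem alg_pair {a b u L : ℂ} (z w : ℂ) (hz : z = a ^ 2) (hw : w = b ^ 2) (hu : u ≠ 0)
    (h1 : u - z ≠ 0) (h2 : u - w ≠ 0) :
    L / u - (b / (2 * u * (u - w)) - a / (2 * u * (u - z))) =
      L / u + (a - b) * (u + a * b) / (2 * (u * (u - z) * (u - w))) := by
  subst hz hw
  field_simp
  ring

/-- The difference of the differentials and the difference of the push-forwards. -/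
theorem Gd_eq {c : ℂ} {N' N : ℕ} (h : ∀ m, 1 ≤ m → m ≤ N → P 2 m c ≠ 0) (hN : N' ≤ N) {y : ℂ}
    (hyc : y ≠ c) (hy : ∀ k ≤ N + 1, y ≠ zz 2 c k) :
    qd c N' N y = Gd c N' N y +
      ((vel 2 c (fun _ => 1) (N + 1) - vel 2 c (fun _ => 1) (N' + 1)) / (y - c) +
      (zz 2 c N' - zz 2 c N) * ((y - c) + zz 2 c N' * zz 2 c N) /
        (2 * ((y - c) * (y - (c + zz 2 c N' ^ 2)) * (y - (c + zz 2 c N ^ 2))))) := by
  have h' : ∀ m, 1 ≤ m → m ≤ N' → P 2 m c ≠ 0 := fun m h1 h2 => h m h1 (h2.trans hN)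
  have e1 := GG_eq le_rfl h hyc hy
  have e2 := GG_eq le_rfl h' hyc (fun k hk => hy k (by omega))
  have v1 := vel_eq le_rfl (fun _ => 1) h
  have v2 := vel_eq le_rfl (fun _ => 1) h'
  simp only [mul_one] at v1 v2
  have d1 := DD_ne le_rfl h (k := N) le_rfl
  have d2 := DD_ne le_rfl h' (k := N') le_rfl
  have z1 : zz 2 c (N + 1) = c + zz 2 c N ^ 2 := by rw [zz_succ]; ring
  have z2 : zz 2 c (N' + 1) = c + zz 2 c N' ^ 2 := by rw [zz_succ]; ring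
  have hy1 : y - zz 2 c (N + 1) ≠ 0 := sub_ne_zero.2 (hy (N + 1) le_rfl)
  have hy2 : y - zz 2 c (N' + 1) ≠ 0 := sub_ne_zero.2 (hy (N' + 1) (by omega))
  have hyc' : y - c ≠ 0 := sub_ne_zero.2 hyc
  unfold qd Gd
  rw [e1, e2, v1, v2]
  rw [z1] at hy1 ⊢
  rw [z2] at hy2 ⊢
  obtain ⟨S1, hS1⟩ : ∃ S, S = ∑ k ∈ Finset.range (N + 1), (DD 2 c k)⁻¹ := ⟨_, rfl⟩
  obtain ⟨S2, hS2⟩ : ∃ S, S = ∑ k ∈ Finset.range (N' + 1), (DD 2 c k)⁻¹ := ⟨_, rfl⟩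
  rw [← hS1, ← hS2]
  have e3 : y - (c + zz 2 c N ^ 2) = (y - c) - zz 2 c N ^ 2 := by ring
  have e4 : y - (c + zz 2 c N' ^ 2) = (y - c) - zz 2 c N' ^ 2 := by ring
  rw [e3] at hy1 ⊢
  rw [e4] at hy2 ⊢
  have key := alg_pair (a := zz 2 c N') (b := zz 2 c N) (u := y - c)
    (L := DD 2 c N * S1 - DD 2 c N' * S2) _ _ rfl rfl hyc' hy2 hy1
  rw [← key]
  obtain ⟨u, hu⟩ : ∃ u, u = y - c := ⟨_, rfl⟩
  rw [← hu] at hy1 hy2 hyc' ⊢
  obtain ⟨a, ha⟩ : ∃ a, a = zz 2 c N' := ⟨_, rfl⟩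
  obtain ⟨b, hb⟩ : ∃ b, b = zz 2 c N := ⟨_, rfl⟩
  rw [← ha] at hy2
  rw [← hb] at hy1
  rw [← ha, ← hb]
  obtain ⟨D1, hD1⟩ : ∃ D, D = DD 2 c N := ⟨_, rfl⟩
  obtain ⟨D2, hD2⟩ : ∃ D, D = DD 2 c N' := ⟨_, rfl⟩
  rw [← hD1] at d1 ⊢
  rw [← hD2] at d2 ⊢
  push_cast
  field_simp
  ring

/-- **The norm on the annulus.** -/
theorem ann_pair {c : ℂ} (hc : c ∈ multibrotSet 2) {N' N : ℕ} (hN : N' < N)
    (h : ∀ m, 1 ≤ m → m ≤ N + 1 → P 2 m c ≠ 0) (hne : P 2 (N' + 2) c ≠ P 2 (N + 2) c) :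
    ∫⁻ x in Ann, ‖qd c N' N x‖ₑ ≤
      ENNReal.ofReal (12 * Real.pi *
        ‖vel 2 c (fun _ => 1) (N + 1) - vel 2 c (fun _ => 1) (N' + 1)‖) +
      ENNReal.ofReal (200 * Real.pi * (‖P 2 (N' + 1) c - P 2 (N + 1) c‖ *
        (1 + |Real.log ‖P 2 (N' + 1) c - P 2 (N + 1) c‖|))) := by
  have hc2 := norm_c_le le_rfl hc
  have hpi := Real.pi_pos
  obtain ⟨q, hq⟩ : ∃ q, q = qd c N' N := ⟨_, rfl⟩
  obtain ⟨S, hS⟩ : ∃ S, S = vel 2 c (fun _ => 1) (N + 1) - vel 2 c (fun _ => 1) (N' + 1) := ⟨_, rfl⟩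
  rw [← hq, ← hS]
  have hqm : Measurable q := by rw [hq]; exact qd_meas _ _ _
  have hz2 : ∀ k, ‖zz 2 c k‖ ≤ 2 := fun k => norm_P_le le_rfl hc (k + 1)
  obtain ⟨a, ha⟩ : ∃ a, a = zz 2 c N' := ⟨_, rfl⟩
  obtain ⟨b, hb⟩ : ∃ b, b = zz 2 c N := ⟨_, rfl⟩
  have ha0 : a ≠ 0 := by rw [ha]; exact h (N' + 1) (by omega) (by omega)
  have hb0 : b ≠ 0 := by rw [hb]; exact h (N + 1) (by omega) (by omega)
  have e1 : c + a ^ 2 = zz 2 c (N' + 1) := by rw [ha, zz_succ]; ring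
  have e2 : c + b ^ 2 = zz 2 c (N + 1) := by rw [hb, zz_succ]; ring
  have hab2 : a ^ 2 ≠ b ^ 2 := by
    intro h0
    apply hne
    have : zz 2 c (N' + 1) = zz 2 c (N + 1) := by rw [← e1, ← e2, h0]
    exact this
  have hab : a ≠ b := fun h0 => hab2 (by rw [h0])
  have hPa : P 2 (N' + 1) c = a := ha.symm
  have hPb : P 2 (N + 1) c = b := hb.symm
  rw [hPa, hPb]
  obtain ⟨U, hU⟩ : ∃ U : Set ℂ, U = {x | x ^ 2 + c ∈ ball (0:ℂ) 4} := ⟨_, rfl⟩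
  have hUm : MeasurableSet U := by
    rw [hU]
    exact isOpen_ball.measurableSet.preimage (by fun_prop)
  have hU5 : ∀ x ∈ U, ‖x‖ ≤ 5 / 2 := by
    intro x hx
    rw [hU, mem_ofPred_eq, mem_ball_zero_iff] at hx
    by_contra hcon
    push Not at hcon
    have h1 : ‖x ^ 2‖ ≤ ‖x ^ 2 + c‖ + ‖c‖ := by
      calc ‖x ^ 2‖ = ‖(x ^ 2 + c) - c‖ := by congr 1; ring
        _ ≤ _ := norm_sub_le _ _
    rw [norm_pow] at h1
    nlinarith
  have hUV : U ∪ Ann ⊆ ball (0:ℂ) 4 := by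
    rintro x (hx | hx)
    · rw [mem_ball_zero_iff]
      have := hU5 x hx
      linarith
    · rw [mem_ball_zero_iff]
      exact hx.2
  have hdisj : Disjoint U Ann := by
    rw [Set.disjoint_left]
    intro x hx hx2
    have := hU5 x hx
    have := hx2.1
    linarith
  have hfin : ({c} ∪ ⋃ k ∈ Finset.range (N + 2), {zz 2 c k}).Finite := by
    apply (finite_singleton _).union
    apply Set.Finite.biUnion (Finset.finite_toSet _)
    intro k _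
    exact finite_singleton _
  have h0 := hfin.measure_zero (volume : Measure ℂ)
  rw [← compl_compl ({c} ∪ ⋃ k ∈ Finset.range (N + 2), {zz 2 c k})] at h0
  have h0' : ({c} ∪ ⋃ k ∈ Finset.range (N + 2), {zz 2 c k})ᶜ ∈ ae (volume : Measure ℂ) := h0
  have hpt : ∀ᵐ y : ℂ, ‖q y‖ₑ ≤ ‖Gd c N' N y‖ₑ + ENNReal.ofReal ‖S‖ * ENNReal.ofReal (‖y - c‖⁻¹) +
      ENNReal.ofReal (ker2 c a b y) := by
    filter_upwards [h0'] with y hy
    simp only [mem_compl_iff, mem_union, mem_singleton_iff, mem_iUnion, not_or, not_exists,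
      Finset.mem_range] at hy
    have h1 := Gd_eq (fun m h1 h2 => h m h1 (by omega)) hN.le hy.1 (fun k hk => hy.2 k (by omega))
    rw [← hq, ← hS, ← ha, ← hb] at h1
    rw [h1, add_assoc]
    refine (enorm_add_le _ _).trans ?_
    gcongr
    refine (enorm_add_le _ _).trans ?_
    gcongr
    · rw [div_eq_mul_inv, enorm_mul, ← ofReal_norm ((y - c)⁻¹), norm_inv, ← ofReal_norm S]
    · rw [← ofReal_norm]
      apply ENNReal.ofReal_le_ofReal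
      apply le_of_eq
      unfold ker2
      rw [norm_div, norm_mul, norm_mul, norm_mul, norm_mul, Complex.norm_ofNat]
  have hV : ∫⁻ y in ball (0:ℂ) 4, ‖q y‖ₑ ≤ (∫⁻ x in U, ‖q x‖ₑ) +
      (ENNReal.ofReal (12 * Real.pi * ‖S‖) +
        ENNReal.ofReal (200 * Real.pi * (‖a - b‖ * (1 + |Real.log ‖a - b‖|)))) := by
    refine (lintegral_mono_ae (ae_restrict_of_ae hpt)).trans ?_
    rw [lintegral_add_left (by
      apply Measurable.add (Gd_meas c N' N).enorm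
      fun_prop), lintegral_add_left (Gd_meas c N' N).enorm, add_assoc]
    obtain ⟨ζ, hζ⟩ : ∃ ζ : ℂ, IsPrimitiveRoot ζ 2 := ⟨_, Complex.isPrimitiveRoot_exp 2 (by omega)⟩
    have hpush := Gd_push hζ c N' N
    rw [← hq] at hpush
    have h1 := contraction le_rfl hζ hqm (Gd_meas c N' N) hpush
      (V := ball (0:ℂ) 4) isOpen_ball.measurableSet
    rw [← hU] at h1
    gcongr
    · rw [lintegral_const_mul' _ _ ENNReal.ofReal_ne_top, mul_comm (12 * Real.pi),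
        ENNReal.ofReal_mul (norm_nonneg S)]
      gcongr
      exact inv_int le_rfl (sub_ball hc2)
    · refine kern_pair hc2 ?_ ?_ ha0 hb0 hab hab2
      · rw [e1]; exact hz2 _
      · rw [e2]; exact hz2 _
  have hfinU : ∫⁻ x in U, ‖q x‖ₑ ≠ ⊤ := by
    refine ne_top_of_le_ne_top ?_ (lintegral_mono_set (subset_union_left.trans hUV))
    rw [hq, qd_eq c hN.le]
    exact q_fin fun k _ => hz2 k
  have hsplit : (∫⁻ x in U, ‖q x‖ₑ) + (∫⁻ x in Ann, ‖q x‖ₑ) ≤ ∫⁻ y in ball (0:ℂ) 4, ‖q y‖ₑ := by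
    rw [← lintegral_union Ann_meas hdisj]
    exact lintegral_mono_set hUV
  exact (ENNReal.add_le_add_iff_left hfinU).1 (hsplit.trans hV)

/-- **Universal transversality for pairs.** -/
theorem univ_pair {c : ℂ} (hc : c ∈ multibrotSet 2) {m n : ℕ} (hm : 1 ≤ m) (hmn : m < n)
    (h : ∀ k, 1 ≤ k → k ≤ n → P 2 k c ≠ 0) (hne : P 2 (m + 1) c ≠ P 2 (n + 1) c)
    {Φ : ℂ → ℂ} {M : ℝ}
    (hΦ : DifferentiableOn ℂ Φ (ball 0 4)) (hM : ∀ x ∈ ball (0:ℂ) 4, ‖Φ x‖ ≤ M) :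
    ‖vel 2 c Φ n - vel 2 c Φ m‖ ≤ M * (4 * ‖vel 2 c (fun _ => 1) n - vel 2 c (fun _ => 1) m‖ +
      67 * (‖P 2 m c - P 2 n c‖ * (1 + |Real.log ‖P 2 m c - P 2 n c‖|))) := by
  obtain ⟨N', rfl⟩ : ∃ N', m = N' + 1 := ⟨m - 1, by omega⟩
  obtain ⟨N, rfl⟩ : ∃ N, n = N + 1 := ⟨n - 1, by omega⟩
  have hN : N' < N := by omega
  have hpi := Real.pi_pos
  have hM0 : 0 ≤ M := (norm_nonneg _).trans (hM 0 (mem_ball_self (by norm_num)))
  have h1 := resid (n := N + 1) (ρ := rd c N' N) (z := zz 2 c)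
    (fun k _ => norm_P_le le_rfl hc (k + 1)) hΦ hM
  rw [rd_sum c hN.le, ← vel_eq le_rfl Φ (fun k h1 h2 => h k h1 (by omega)),
    ← vel_eq le_rfl Φ (fun k h1 h2 => h k h1 (by omega)), ← qd_eq c hN.le] at h1
  have h2 := ann_pair hc hN h hne
  obtain ⟨T, hT⟩ : ∃ T, T = vel 2 c Φ (N + 1) - vel 2 c Φ (N' + 1) := ⟨_, rfl⟩
  obtain ⟨S, hS⟩ : ∃ S, S = vel 2 c (fun _ => 1) (N + 1) - vel 2 c (fun _ => 1) (N' + 1) := ⟨_, rfl⟩
  obtain ⟨t, ht⟩ : ∃ t, t = ‖P 2 (N' + 1) c - P 2 (N + 1) c‖ := ⟨_, rfl⟩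
  have ht0 : 0 ≤ t := by rw [ht]; exact norm_nonneg _
  rw [← hT] at h1 ⊢
  rw [← hS, ← ht] at h2 ⊢
  have hL := abs_nonneg (Real.log t)
  have h3 : ENNReal.ofReal (3 * Real.pi * ‖T‖) ≤
      ENNReal.ofReal (M * (12 * Real.pi * ‖S‖ + 200 * Real.pi * (t * (1 + |Real.log t|)))) := by
    rw [ENNReal.ofReal_mul hM0, ENNReal.ofReal_add (by positivity) (by positivity)]
    exact h1.trans (by gcongr)
  rw [ENNReal.ofReal_le_ofReal_iff (by positivity)] at h3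
  have h4 : 3 * Real.pi * ‖T‖ ≤ 3 * Real.pi * (M * (4 * ‖S‖ + 67 * (t * (1 + |Real.log t|)))) := by
    refine h3.trans ?_
    have h5 : 3 * Real.pi * (M * (4 * ‖S‖ + 67 * (t * (1 + |Real.log t|)))) =
        M * (12 * Real.pi * ‖S‖ + 201 * Real.pi * (t * (1 + |Real.log t|))) := by ring
    rw [h5]
    gcongr
    norm_num
  exact le_of_mul_le_mul_left h4 (by positivity)

end Pool.Agent.K6.H26.ML
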